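import Pool.Agent.H808.PieceC

namespace Pool.Agent.H808

variable {g : ℕ}

theorem EE_mem (s : ℕ) {i l : ℕ} (h1 : i ≤ s / 2) (h2 : s / 2 + 1 + s % 2 ≤ i + l) :
    EE g s ∈ SupG g i l := by
  rcases Nat.even_or_odd' s with ⟨t, rfl | rfl⟩
  · rw [EE_even]
    exact tw_mem_of _ (by simp only [Tw.lo]; omega) (by simp only [Tw.lo, Tw.len]; omega)
  · rw [EE_odd]
    exact tw_mem_of _ (by simp only [Tw.lo]; omega) (by simp only [Tw.lo, Tw.len]; omega)

theorem AA_mem (t : ℕ) {i l : ℕ} (h1 : i ≤ t) (h2 : t + 1 ≤ i + l) : AA g t ∈ SupG g i l :=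
  tw_mem_of _ (by simpa [Tw.lo] using h1) (by simpa [Tw.lo, Tw.len] using h2)

theorem EE_TwG (s : ℕ) : EE g s ∈ TwG g := by
  rcases Nat.even_or_odd' s with ⟨t, rfl | rfl⟩
  · rw [EE_even]; exact tw_mem_TwG _
  · rw [EE_odd]; exact tw_mem_TwG _

/-- the linking twist of the central piece -/
def d0 (g f : ℕ) : MulAut (SurfaceGroup g) := if f = 0 then 1 else EE g (2 * f - 1)

/-- the linking twist of the outer piece -/
def d1 (g p l : ℕ) : MulAut (SurfaceGroup g) := if l = 0 then 1 else EE g (2 * p - 1)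

theorem d0_comm (f : ℕ) (u : MulAut (SurfaceGroup g))
    (h : f ≠ 0 → Commute (EE g (2 * f - 1)) u) : Commute (d0 g f) u := by
  unfold d0; split_ifs with h1
  · exact Commute.one_left _
  · exact h h1

theorem d1_comm (p l : ℕ) (u : MulAut (SurfaceGroup g))
    (h : l ≠ 0 → Commute (EE g (2 * p - 1)) u) : Commute (d1 g p l) u := by
  unfold d1; split_ifs with h1
  · exact Commute.one_left _
  · exact h h1

theorem TwG_le (H : Subgroup (MulAut (SurfaceGroup g))) (hE : ∀ s, s < 2 * g - 1 → EE g s ∈ H)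
    (hA : ∀ t, 2 * t < 2 * g - 1 → AA g t ∈ H) : TwG g ≤ H := by
  rw [TwG, Subgroup.closure_le]
  rintro _ ⟨T, rfl⟩
  cases T with
  | A t =>
    by_cases h : t < g
    · exact hA t (by omega)
    · rw [tw_out _ (by simp only [Tw.lo, Tw.len]; omega)]; exact one_mem _
  | B t =>
    by_cases h : t < g
    · have := hE (2 * t) (by omega); rwa [EE_even] at this
    · rw [tw_out _ (by simp only [Tw.lo, Tw.len]; omega)]; exact one_mem _
  | C t =>
    by_cases h : t + 1 < g
    · have := hE (2 * t + 1) (by omega); rwa [EE_odd] at this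
    · rw [tw_out _ (by simp only [Tw.lo, Tw.len]; omega)]; exact one_mem _

section

variable {G : Type*} [Group G] {H : Subgroup G}

theorem conj_mem_of {X T e : G} (h1 : X * T⁻¹ ∈ H) (he : e ∈ H) (hc : Commute X e) :
    T * e * T⁻¹ ∈ H := by
  have : T * e * T⁻¹ = (X * T⁻¹)⁻¹ * e * (X * T⁻¹) := by
    calc T * e * T⁻¹ = T * X⁻¹ * (X * e) * T⁻¹ := by group
      _ = T * X⁻¹ * (e * X) * T⁻¹ := by rw [hc.eq]
      _ = _ := by group
  rw [this]; exact mul_mem (mul_mem (inv_mem h1) he) h1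

theorem conj_left {d r e : G} (hc : Commute r e) : (d * r) * e * (d * r)⁻¹ = d * e * d⁻¹ := by
  calc (d * r) * e * (d * r)⁻¹ = d * (r * e) * r⁻¹ * d⁻¹ := by group
    _ = d * (e * r) * r⁻¹ * d⁻¹ := by rw [hc.eq]
    _ = _ := by group

theorem conj_right {l d e : G} (hc : Commute l e) (hc' : Commute l d) :
    (l * d) * e * (l * d)⁻¹ = d * e * d⁻¹ := by
  have h : Commute l (d * e * d⁻¹) := (hc'.mul_right hc).mul_right hc'.inv_right
  calc (l * d) * e * (l * d)⁻¹ = l * (d * e * d⁻¹) * l⁻¹ := by group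
    _ = (d * e * d⁻¹) * l * l⁻¹ := by rw [h.eq]
    _ = _ := by group

theorem K_split {y w w' : G} (h : Commute (w' * (y * w'⁻¹ * y⁻¹)) (y * w⁻¹ * y⁻¹)) :
    (w * w') * (y * (w * w')⁻¹ * y⁻¹) = (w * (y * w⁻¹ * y⁻¹)) * (w' * (y * w'⁻¹ * y⁻¹)) := by
  calc (w * w') * (y * (w * w')⁻¹ * y⁻¹) = w * ((w' * (y * w'⁻¹ * y⁻¹)) * (y * w⁻¹ * y⁻¹)) := by
        group
    _ = w * ((y * w⁻¹ * y⁻¹) * (w' * (y * w'⁻¹ * y⁻¹))) := by rw [h.eq]
    _ = _ := by group

end

section

variable {k m f n' l' : ℕ} {V W w w' : MulAut (SurfaceGroup g)}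

theorem arms_le (hk : 4 ≤ k) (hn : m * k = n' + 1) : 4 * m ≤ n' + 1 := by
  rw [← hn, mul_comm]; exact Nat.mul_le_mul_left m hk

theorem arms_le5 (hk : 5 ≤ k) (hn : m * k = n' + 1) : 5 * m ≤ n' + 1 := by
  rw [← hn, mul_comm]; exact Nat.mul_le_mul_left m hk

theorem x_EE (hm' : m ≤ n' + 1) (hg : f + n' + 1 + l' = g)
    (hV : V ∈ SupG g 0 f) (hW : W ∈ SupG g (f + n' + 1) l') (s : ℕ) (h1 : 2 * f ≤ s)
    (h2 : s + 2 * m + 2 ≤ 2 * (f + (n' + 1))) :
    xel g f n' m V W * EE g s = EE g (s + 2 * m) * xel g f n' m V W := by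
  rcases Nat.even_or_odd' s with ⟨t, rfl | rfl⟩
  · rw [show 2 * t + 2 * m = 2 * (m + t) by ring, EE_even, EE_even]
    exact x_conj_mid hV hW (by omega) (by omega) (.B t) (by simp only [Tw.lo]; omega)
      (by simp only [Tw.lo, Tw.len]; omega)
  · rw [show 2 * t + 1 + 2 * m = 2 * (m + t) + 1 by ring, EE_odd, EE_odd]
    exact x_conj_mid hV hW (by omega) (by omega) (.C t) (by simp only [Tw.lo]; omega)
      (by simp only [Tw.lo, Tw.len]; omega)

theorem x_AA (hm' : m ≤ n' + 1) (hg : f + n' + 1 + l' = g)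
    (hV : V ∈ SupG g 0 f) (hW : W ∈ SupG g (f + n' + 1) l') (t : ℕ) (h1 : f ≤ t)
    (h2 : t + m < f + (n' + 1)) :
    xel g f n' m V W * AA g t = AA g (t + m) * xel g f n' m V W := by
  rw [show t + m = m + t by ring]
  exact x_conj_mid hV hW (by omega) (by omega) (.A t) (by simp only [Tw.lo]; omega)
      (by simp only [Tw.lo, Tw.len]; omega)

theorem coreInst (hk : 4 ≤ k) (hm : 6 ≤ m) (hn : m * k = n' + 1) (hg : f + n' + 1 + l' = g)
    (hV : V ∈ SupG g 0 f) (hw : w ∈ SupG g 0 f) (hW : W ∈ SupG g (f + n' + 1) l')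
    (hw' : w' ∈ SupG g (f + n' + 1) l') (hl : l' = 0 ∨ 5 ≤ k) :
    Core (EE g) (AA g) (2 * g - 1) (xel g f n' m V W)
      (d0 g f * w * d1 g (f + n' + 1) l' * w') f m (n' + 1) := by
  have h4 := arms_le hk hn
  have hc := chainEA (g := g) (by omega)
  refine ⟨hc, hm, h4, by omega, x_EE (by omega) hg hV hW, x_AA (by omega) hg hV hW, ?_, ?_⟩
  · intro s h1 h2
    refine Commute.mul_left (Commute.mul_left (Commute.mul_left ?_ ?_) ?_) ?_
    · refine d0_comm _ _ (fun _ => hc.cm _ _ (by omega))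
    · exact SupG_commute (i' := f) (l' := s + 1) hw (EE_mem s (by omega) (by omega)) (by omega)
    · refine d1_comm _ _ _ (fun hl' => (hc.cm _ _ ?_).symm)
      have h5 : 5 ≤ k := by rcases hl with h | h; exact absurd h hl'; exact h
      have := arms_le5 h5 hn
      omega
    · refine (SupG_commute (i := f) (l := n' + 1) (EE_mem s (by omega) (by omega)) hw'
        (by omega)).symm
  · intro t h1 h2
    refine Commute.mul_left (Commute.mul_left (Commute.mul_left ?_ ?_) ?_) ?_
    · refine d0_comm _ _ (fun _ => (hc.acm _ _ (by omega)).symm)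
    · exact SupG_commute (i' := f) (l' := t + 1) hw (AA_mem t (by omega) (by omega)) (by omega)
    · refine d1_comm _ _ _ (fun hl' => (hc.acm _ _ (by omega)).symm)
    · refine (SupG_commute (i := f) (l := n' + 1) (AA_mem t (by omega) (by omega)) hw'
        (by omega)).symm

/-- The generation theorem in the automorphism group of the surface group. -/
theorem generation (hk : 4 ≤ k) (hm : 6 ≤ m) (hn : m * k = n' + 1) (hg : f + n' + 1 + l' = g)
    (hV : V ∈ SupG g 0 f) (hw : w ∈ SupG g 0 f) (hW : W⁻¹ ∈ SupG g (f + n' + 1) l')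
    (hw' : w' ∈ SupG g (f + n' + 1) l') (hL : f = 0 ∨ RecL g f V w)
    (hR : l' = 0 ∨ (5 ≤ k ∧ RecR g (f + n' + 1) l' W w'))
    (H : Subgroup (MulAut (SurfaceGroup g))) (hx : xel g f n' m V W⁻¹ ∈ H)
    (hy : ya (EE g) (xel g f n' m V W⁻¹) (d0 g f * w * d1 g (f + n' + 1) l' * w') f m *
      xel g f n' m V W⁻¹ *
      (ya (EE g) (xel g f n' m V W⁻¹) (d0 g f * w * d1 g (f + n' + 1) l' * w') f m)⁻¹ ∈ H)
    (hz : cc (EE g) (AA g) m (f + m) * xel g f n' m V W⁻¹ * (cc (EE g) (AA g) m (f + m))⁻¹ ∈ H) :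
    TwG g ≤ H := by
  have h4 := arms_le hk hn
  have hl : l' = 0 ∨ 5 ≤ k := by rcases hR with h | h; exact Or.inl h; exact Or.inr h.1
  have hcore := coreInst hk hm hn hg hV hw hW hw' hl
  have hc := hcore.hc
  obtain ⟨hall, hA1, hA2, hX⟩ := hcore.main hx hy hz
  set x := xel g f n' m V W⁻¹ with hxdef
  set p := f + n' + 1 with hp
  set D0 := d0 g f with hD0
  set D1 := d1 g p l' with hD1
  have hcT := hcore.hT
  -- the linking twist of the central piece
  have k0 : f ≠ 0 → EE g (2 * f - 1) ∈ H := by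
    intro hf
    have he : EE g (2 * f) ∈ H := hall _ le_rfl (by omega)
    have h1 : Commute (x⁻¹ * (D0 * w * D1 * w') * x) (EE g (2 * f)) :=
      conj_comm (hcore.xE (2 * f) le_rfl (by omega)) (hcT _ (by omega) (by omega))
    have h2 := conj_mem_of hX he h1
    have h3 : Commute (w * D1 * w') (EE g (2 * f)) := by
      refine Commute.mul_left (Commute.mul_left ?_ ?_) ?_
      · exact SupG_commute (i' := f) (l' := 1) hw (EE_mem _ (by omega) (by omega)) (by omega)
      · exact d1_comm _ _ _ (fun _ => (hc.cm _ _ (by omega)).symm)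
      · exact (SupG_commute (i := f) (l := 1) (EE_mem _ (by omega) (by omega)) hw'
          (by omega)).symm
    rw [show D0 * w * D1 * w' = D0 * (w * D1 * w') by group, conj_left h3] at h2
    have h5 : D0 = EE g (2 * f - 1) := by rw [hD0, d0, if_neg hf]
    rw [h5] at h2
    refine mem_of_braid ?_ he h2
    have := hc.br (2 * f - 1) (by omega)
    rwa [show 2 * f - 1 + 1 = 2 * f by omega] at this
  -- the linking twist of the outer piece
  have k1 : l' ≠ 0 → EE g (2 * p - 1) ∈ H := by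
    intro hl'
    have he : EE g (2 * p - 2) ∈ H := hall _ (by omega) (by omega)
    have hxw : x * EE g (2 * p - 2) = EE g (2 * (f + m - 1)) * x := by
      have := x_conj_wrap (V := V) (W := W⁻¹) (m := m) hV hW (by omega) (by omega)
        (.B (f + m - 1)) (by simp only [Tw.lo]; omega) (by simp only [Tw.lo, Tw.len]; omega)
      rw [show 2 * p - 2 = 2 * (n' + 1 - m + (f + m - 1)) by omega, EE_even, EE_even]
      exact this
    have h1 : Commute (x⁻¹ * (D0 * w * D1 * w') * x) (EE g (2 * p - 2)) :=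
      conj_comm hxw (hcT _ (by omega) (by omega))
    have h2 := conj_mem_of hX he h1
    have h3 : Commute w' (EE g (2 * p - 2)) :=
      (SupG_commute (i := f) (l := n' + 1) (EE_mem _ (by omega) (by omega)) hw' (by omega)).symm
    have h4' : Commute (D0 * w) (EE g (2 * p - 2)) := by
      refine Commute.mul_left ?_ ?_
      · exact d0_comm _ _ (fun _ => hc.cm _ _ (by omega))
      · exact SupG_commute (i' := f) (l' := n' + 1) hw (EE_mem _ (by omega) (by omega)) (by omega)
    have h5 : D1 = EE g (2 * p - 1) := by rw [hD1, d1, if_neg hl']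
    have h6 : Commute (D0 * w) D1 := by
      rw [h5]
      refine Commute.mul_left ?_ ?_
      · exact d0_comm _ _ (fun _ => hc.cm _ _ (by omega))
      · exact SupG_commute (i' := f) (l' := g) hw (EE_mem _ (by omega) (by omega)) (by omega)
    rw [show D0 * w * D1 * w' = (D0 * w) * (D1 * w') by group] at h2
    have h7 : (D0 * w) * (D1 * w') * EE g (2 * p - 2) * ((D0 * w) * (D1 * w'))⁻¹ =
        D1 * EE g (2 * p - 2) * D1⁻¹ := by
      rw [mul_assoc (D0 * w) (D1 * w'), ]
      have e1 : (D1 * w') * EE g (2 * p - 2) = (D1 * EE g (2 * p - 2)) * w' := by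
        rw [mul_assoc, h3.eq]; group
      calc D0 * w * (D1 * w' * EE g (2 * p - 2)) * (D0 * w * (D1 * w'))⁻¹
          = D0 * w * ((D1 * EE g (2 * p - 2)) * w') * (D0 * w * (D1 * w'))⁻¹ := by rw [e1]
        _ = ((D0 * w) * D1) * EE g (2 * p - 2) * ((D0 * w) * D1)⁻¹ := by group
        _ = _ := conj_right h4' h6
    rw [h7, h5] at h2
    refine mem_of_braid ?_ he h2
    have := hc.br (2 * p - 2) (by omega)
    rw [show 2 * p - 2 + 1 = 2 * p - 1 by omega] at this
    exact this.symm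
  have hD0H : D0 ∈ H := by
    rw [hD0, d0]; split_ifs with h
    · exact one_mem _
    · exact k0 h
  have hD1H : D1 ∈ H := by
    rw [hD1, d1]; split_ifs with h
    · exact one_mem _
    · exact k1 h
  -- conjugate of `x` by `w w'`
  have hwx : (w * w') * x * (w * w')⁻¹ ∈ H := by
    have h1 : (D0 * w * D1 * w') * x * (D0 * w * D1 * w')⁻¹ ∈ H := by
      have : (D0 * w * D1 * w') * x * (D0 * w * D1 * w')⁻¹ =
          x * (x⁻¹ * (D0 * w * D1 * w') * x * (D0 * w * D1 * w')⁻¹) := by group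
      rw [this]; exact mul_mem hx hX
    have h2 : Commute w D1 := by
      rw [hD1]
      refine (d1_comm _ _ _ (fun hl' => ?_)).symm
      exact (SupG_commute (i' := f) (l' := g) hw (EE_mem _ (by omega) (by omega)) (by omega)).symm
    have h3 : (w * w') * x * (w * w')⁻¹ =
        (D0 * D1)⁻¹ * ((D0 * w * D1 * w') * x * (D0 * w * D1 * w')⁻¹) * (D0 * D1) := by
      have e1 : D0 * w * D1 * w' = (D0 * D1) * (w * w') := by
        calc D0 * w * D1 * w' = D0 * (w * D1) * w' := by group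
          _ = D0 * (D1 * w) * w' := by rw [h2.eq]
          _ = _ := by group
      rw [e1]; group
    rw [h3]
    exact mul_mem (mul_mem (inv_mem (mul_mem hD0H hD1H)) h1) (mul_mem hD0H hD1H)
  have hV' : ∀ u ∈ SupG g 0 f, x * u = (V * u * V⁻¹) * x := fun u hu =>
    x_conj_V hV hW (by omega) hu
  have hW' : ∀ u ∈ SupG g p l', x * u = (W⁻¹ * u * W⁻¹⁻¹) * x := fun u hu => x_conj_W hV hW hu
  have hWm : W ∈ SupG g p l' := by
    have := inv_mem hW; rwa [inv_inv] at this
  -- recovery of the central piece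
  have r0 : ∀ s, s + 2 ≤ 2 * f → EE g s ∈ H := by
    rcases hL with h0 | hrec
    · intro s hs; omega
    · by_cases hf : f = 0
      · intro s hs; omega
      · refine hrec H x hx hV' (k0 hf) ?_
        intro v hv hvs
        have e1 : x * w⁻¹ * x⁻¹ = V * w⁻¹ * V⁻¹ := by
          rw [hV' _ (inv_mem hw)]; group
        have e2 : x * w'⁻¹ * x⁻¹ = W⁻¹ * w'⁻¹ * W⁻¹⁻¹ := by
          rw [hW' _ (inv_mem hw')]; group
        have s1 : x * w⁻¹ * x⁻¹ ∈ SupG g 0 f := by
          rw [e1]; exact mul_mem (mul_mem hV (inv_mem hw)) (inv_mem hV)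
        have s2 : w' * (x * w'⁻¹ * x⁻¹) ∈ SupG g p l' := by
          rw [e2]; exact mul_mem hw' (mul_mem (mul_mem hW (inv_mem hw')) (inv_mem hW))
        have hsp := K_split (y := x) (w := w) (w' := w') (SupG_commute s1 s2 (by omega)).symm
        have hK : (w * w') * (x * (w * w')⁻¹ * x⁻¹) ∈ H := by
          have : (w * w') * (x * (w * w')⁻¹ * x⁻¹) = ((w * w') * x * (w * w')⁻¹) * x⁻¹ := by group
          rw [this]; exact mul_mem hwx (inv_mem hx)
        have hcv : Commute (w' * (x * w'⁻¹ * x⁻¹)) v := (SupG_commute hvs s2 (by omega)).symm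
        have := conj_left (d := w * (x * w⁻¹ * x⁻¹)) hcv
        rw [← hsp] at this
        rw [← this]
        exact mul_mem (mul_mem hK hv) (inv_mem hK)
  -- recovery of the outer piece
  have r1 : ∀ s, 2 * p ≤ s → s + 2 ≤ 2 * (p + l') → EE g s ∈ H := by
    rcases hR with h0 | ⟨_, hrec⟩
    · intro s hs; omega
    · by_cases hl' : l' = 0
      · intro s hs; omega
      · have hVi : ∀ u ∈ SupG g 0 f, x⁻¹ * u = (V⁻¹ * u * V) * x⁻¹ := by
          intro u hu
          have := hV' (V⁻¹ * u * V) (mul_mem (mul_mem (inv_mem hV) hu) hV)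
          have h5 : x * (V⁻¹ * u * V) = u * x := by rw [this]; group
          calc x⁻¹ * u = x⁻¹ * (u * x) * x⁻¹ := by group
            _ = _ := by rw [← h5]; group
        have hWi : ∀ u ∈ SupG g p l', x⁻¹ * u = (W * u * W⁻¹) * x⁻¹ := by
          intro u hu
          have := hW' (W * u * W⁻¹) (mul_mem (mul_mem hWm hu) hW)
          have h5 : x * (W * u * W⁻¹) = u * x := by rw [this]; group
          calc x⁻¹ * u = x⁻¹ * (u * x) * x⁻¹ := by group
            _ = _ := by rw [← h5]; group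
        refine hrec H x⁻¹ (inv_mem hx) hWi (k1 hl') ?_
        intro v hv hvs
        have e1 : x⁻¹ * w⁻¹ * x⁻¹⁻¹ = V⁻¹ * w⁻¹ * V := by
          rw [hVi _ (inv_mem hw)]; group
        have e2 : x⁻¹ * w'⁻¹ * x⁻¹⁻¹ = W * w'⁻¹ * W⁻¹ := by
          rw [hWi _ (inv_mem hw')]; group
        have s1 : x⁻¹ * w⁻¹ * x⁻¹⁻¹ ∈ SupG g 0 f := by
          rw [e1]; exact mul_mem (mul_mem (inv_mem hV) (inv_mem hw)) hV
        have s2 : w' * (x⁻¹ * w'⁻¹ * x⁻¹⁻¹) ∈ SupG g p l' := by
          rw [e2]; exact mul_mem hw' (mul_mem (mul_mem hWm (inv_mem hw')) hW)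
        have hsp := K_split (y := x⁻¹) (w := w) (w' := w') (SupG_commute s1 s2 (by omega)).symm
        have hK : (w * w') * (x⁻¹ * (w * w')⁻¹ * x⁻¹⁻¹) ∈ H := by
          have : (w * w') * (x⁻¹ * (w * w')⁻¹ * x⁻¹⁻¹) = ((w * w') * x * (w * w')⁻¹)⁻¹ * x := by
            group
          rw [this]; exact mul_mem (inv_mem hwx) hx
        have hcv : Commute (w * (x⁻¹ * w⁻¹ * x⁻¹⁻¹)) v :=
          SupG_commute (mul_mem hw s1) hvs (by omega)
        have hcc : Commute (w * (x⁻¹ * w⁻¹ * x⁻¹⁻¹)) (w' * (x⁻¹ * w'⁻¹ * x⁻¹⁻¹)) :=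
          SupG_commute (mul_mem hw s1) s2 (by omega)
        have := conj_right (d := w' * (x⁻¹ * w'⁻¹ * x⁻¹⁻¹)) hcv hcc
        rw [← hsp] at this
        rw [← this]
        exact mul_mem (mul_mem hK hv) (inv_mem hK)
  have hEall : ∀ s, s < 2 * g - 1 → EE g s ∈ H := by
    intro s hs
    by_cases h1 : s + 2 ≤ 2 * f
    · exact r0 s h1
    · by_cases h2 : s < 2 * f
      · have h3 : s = 2 * f - 1 := by omega
        rw [h3]; exact k0 (by omega)
      · by_cases h5 : s + 2 ≤ 2 * p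
        · exact hall s (by omega) (by omega)
        · by_cases h6 : s < 2 * p
          · have h3 : s = 2 * p - 1 := by omega
            rw [h3]; exact k1 (by omega)
          · exact r1 s (by omega) (by omega)
  refine TwG_le H hEall (hum_all hc hEall (f + 2 * m + 1) (by omega) hA1 hA2)

end

end Pool.Agent.H808
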