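import Pool.Agent.H808.Final

namespace Pool.Agent.H808

variable {g : ℕ}

/-- a central piece of period `k` and genus `f` -/
structure PieceL (g k f : ℕ) (V w : MulAut (SurfaceGroup g)) : Prop where
  hV : V ∈ SupG g 0 f
  hw : w ∈ SupG g 0 f
  hVT : V ∈ TwG g
  hwT : w ∈ TwG g
  hL : f = 0 ∨ RecL g f V w
  hVk : ∀ s c, s < f → (V ^ k) (gn g s c) = (Zf (gn g) 0 f)⁻¹ * gn g s c * Zf (gn g) 0 f

/-- an outer piece of period `k` and genus `l` -/
structure PieceR (g k p l : ℕ) (W w : MulAut (SurfaceGroup g)) : Prop where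
  hW : W ∈ SupG g p l
  hw : w ∈ SupG g p l
  hWT : W ∈ TwG g
  hwT : w ∈ TwG g
  hR : l = 0 ∨ (5 ≤ k ∧ RecR g p l W w)
  hWk : ∀ s c, p ≤ s → s < g →
    (W ^ k) (gn g s c) = (Zf (gn g) p l)⁻¹ * gn g s c * Zf (gn g) p l

theorem pieceR_triv (k : ℕ) : PieceR g k g 0 1 1 where
  hW := one_mem _
  hw := one_mem _
  hWT := one_mem _
  hwT := one_mem _
  hR := Or.inl rfl
  hWk := fun s c h1 h2 => absurd h2 (by omega)

theorem pieceL_triv (k : ℕ) : PieceL g k 0 1 1 where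
  hV := one_mem _
  hw := one_mem _
  hVT := one_mem _
  hwT := one_mem _
  hL := Or.inl rfl
  hVk := fun s c h1 => absurd h1 (by omega)

theorem pieceL_of_word (k f : ℕ) (U : TWord) (w : MulAut (SurfaceGroup g)) (hU : validW f U)
    (hUk : validW f (wpow U k)) (hchk : checkTw f (wpow U k) = true) (hf : f + 1 ≤ g)
    (hw : w ∈ SupG g 0 f) (hwT : w ∈ TwG g) (hrec : RecL g f (prodW g 0 U) w) :
    PieceL g k f (prodW g 0 U) w where
  hV := prodW_mem_SupG _ _ _ hU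
  hw := hw
  hVT := prodW_mem_TwG _ _
  hwT := hwT
  hL := Or.inr hrec
  hVk := by
    intro s c hs
    rw [← prodW_wpow]
    exact tw_of_check f _ hUk hchk 0 (by omega) s c (by omega) (by omega)

theorem pieceL_T (hg : 2 ≤ g) : PieceL g 4 1 (prodW g 0 VT) (tw g (.B 0)) :=
  pieceL_of_word 4 1 VT _ VT_valid VT_val4 VT_chk (by omega)
    (tw_mem_of _ (by simp [Tw.lo]) (by simp [Tw.lo, Tw.len])) (tw_mem_TwG _) (rec_T hg)

theorem pieceL_B (hg : 3 ≤ g) : PieceL g 4 2 (prodW g 0 VB) (tw g (.B 1) * tw g (.A 0)) :=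
  pieceL_of_word 4 2 VB _ VB_valid VB_val4 VB_chk (by omega)
    (mul_mem (tw_mem_of _ (by simp [Tw.lo]) (by simp [Tw.lo, Tw.len]))
      (tw_mem_of _ (by simp [Tw.lo]) (by simp [Tw.lo, Tw.len])))
    (mul_mem (tw_mem_TwG _) (tw_mem_TwG _)) (rec_B hg)

theorem pieceL_ch3 (hg : 4 ≤ g) :
    PieceL g 4 3 (prodW g 0 (cV ch3)) (tw g (.B 2) * tw g (.C 0)) :=
  pieceL_of_word 4 3 (cV ch3) _ (by decide) (by decide) ch3_tw (by omega)
    (mul_mem (tw_mem_of _ (by simp [Tw.lo]) (by simp [Tw.lo, Tw.len]))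
      (tw_mem_of _ (by simp [Tw.lo]) (by simp [Tw.lo, Tw.len])))
    (mul_mem (tw_mem_TwG _) (tw_mem_TwG _)) (rec_ch3 hg)

theorem pieceL_ch2 (hg : 3 ≤ g) : PieceL g 5 2 (prodW g 0 (cV ch2)) (tw g (.B 1)) :=
  pieceL_of_word 5 2 (cV ch2) _ (by decide) (by decide) ch2_tw (by omega)
    (tw_mem_of _ (by simp [Tw.lo]) (by simp [Tw.lo, Tw.len])) (tw_mem_TwG _) (rec_ch2 hg)

theorem pieceL_ch4 (hg : 5 ≤ g) :
    PieceL g 5 4 (prodW g 0 (cV ch4)) (tw g (.B 3) * tw g (.C 1)) :=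
  pieceL_of_word 5 4 (cV ch4) _ (by decide) (by decide) ch4_tw (by omega)
    (mul_mem (tw_mem_of _ (by simp [Tw.lo]) (by simp [Tw.lo, Tw.len]))
      (tw_mem_of _ (by simp [Tw.lo]) (by simp [Tw.lo, Tw.len])))
    (mul_mem (tw_mem_TwG _) (tw_mem_TwG _)) (rec_ch4 hg)

theorem pieceR_ch4 (p : ℕ) (hp : 1 ≤ p) (hg : p + 4 = g) :
    PieceR g 5 p 4 (prodW g p (cV ch4R)) (tw g (.B p) * tw g (.C (p + 1))) where
  hW := prodW_mem_SupG _ _ _ (by decide)
  hw := mul_mem (tw_mem_of _ (by simp [Tw.lo]) (by simp [Tw.lo, Tw.len]))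
      (tw_mem_of _ (by simp [Tw.lo]) (by simp [Tw.lo, Tw.len]))
  hWT := prodW_mem_TwG _ _
  hwT := mul_mem (tw_mem_TwG _) (tw_mem_TwG _)
  hR := Or.inr ⟨le_rfl, rec_ch4R p hp (by omega)⟩
  hWk := by
    intro s c h1 h2
    rw [← prodW_wpow]
    exact tw_of_check 4 _ (by decide) ch4R_tw p (by omega) s c (by omega) (by omega)

theorem gen_of_pieces {k m f l' : ℕ} {V W w w' : MulAut (SurfaceGroup g)} (hk : k = 4 ∨ k = 5)
    (hm : 6 ≤ m) (hg : f + m * k + l' = g) (hL : PieceL g k f V w)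
    (hR : PieceR g k (f + m * k) l' W w') : GenByThree (MCG g) k := by
  obtain ⟨n', hn⟩ : ∃ n', m * k = n' + 1 := by
    refine ⟨m * k - 1, ?_⟩
    have : 0 < m * k := Nat.mul_pos (by omega) (by omega)
    omega
  have e : f + m * k = f + n' + 1 := by omega
  rw [e] at hR
  have hg' : f + n' + 1 + l' = g := by omega
  obtain ⟨x, y, z, a, b, hy, hz, h1, h2, h3, h4⟩ := main_general (by omega) hm hn hg' hL.hV hL.hw
    hR.hW hR.hw hL.hVT hL.hwT hR.hWT hR.hwT hL.hL hR.hR hL.hVk hR.hWk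
  have hx : orderOf x = k := by
    rcases hk with rfl | rfl
    · exact order4 h1 h3
    · exact order5 h1 h2
  exact ⟨x, y, z, hx, by rw [hy, order_conj, hx], by rw [hz, order_conj, hx], h4⟩

/-- Three elements of order four. -/
theorem gen4 (g : ℕ) (hg : 24 ≤ g) : GenByThree (MCG g) 4 := by
  have hR := pieceR_triv (g := g) 4
  have hm : g % 4 + g / 4 * 4 + 0 = g := by omega
  have hp : g % 4 + g / 4 * 4 = g := by omega
  have hcase : g % 4 = 0 ∨ g % 4 = 1 ∨ g % 4 = 2 ∨ g % 4 = 3 := by omega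
  rcases hcase with h | h | h | h <;> rw [h] at hm hp
  · exact gen_of_pieces (Or.inl rfl) (by omega) hm (pieceL_triv 4) (by rw [hp]; exact hR)
  · exact gen_of_pieces (Or.inl rfl) (by omega) hm (pieceL_T (by omega)) (by rw [hp]; exact hR)
  · exact gen_of_pieces (Or.inl rfl) (by omega) hm (pieceL_B (by omega)) (by rw [hp]; exact hR)
  · exact gen_of_pieces (Or.inl rfl) (by omega) hm (pieceL_ch3 (by omega)) (by rw [hp]; exact hR)

/-- Three elements of order five. -/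
theorem gen5 (g : ℕ) (hg : 34 ≤ g) : GenByThree (MCG g) 5 := by
  have hR := pieceR_triv (g := g) 5
  have hcase : g % 5 = 0 ∨ g % 5 = 1 ∨ g % 5 = 2 ∨ g % 5 = 3 ∨ g % 5 = 4 := by omega
  rcases hcase with h | h | h | h | h
  · have hp : 0 + g / 5 * 5 = g := by omega
    exact gen_of_pieces (Or.inr rfl) (by omega) (show 0 + g / 5 * 5 + 0 = g by omega)
      (pieceL_triv 5) (by rw [hp]; exact hR)
  · exact gen_of_pieces (m := (g - 6) / 5) (Or.inr rfl) (by omega)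
      (show 2 + (g - 6) / 5 * 5 + 4 = g by omega) (pieceL_ch2 (by omega))
      (pieceR_ch4 _ (by omega) (by omega))
  · have hp : 2 + g / 5 * 5 = g := by omega
    exact gen_of_pieces (Or.inr rfl) (by omega) (show 2 + g / 5 * 5 + 0 = g by omega)
      (pieceL_ch2 (by omega)) (by rw [hp]; exact hR)
  · exact gen_of_pieces (m := (g - 8) / 5) (Or.inr rfl) (by omega)
      (show 4 + (g - 8) / 5 * 5 + 4 = g by omega) (pieceL_ch4 (by omega))
      (pieceR_ch4 _ (by omega) (by omega))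
  · have hp : 4 + g / 5 * 5 = g := by omega
    exact gen_of_pieces (Or.inr rfl) (by omega) (show 4 + g / 5 * 5 + 0 = g by omega)
      (pieceL_ch4 (by omega)) (by rw [hp]; exact hR)

end Pool.Agent.H808
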