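import Pool.Agent.H808.Rot

namespace Pool.Agent.H808

variable {g : ℕ}

theorem rot_pow_lo (f n' j u : ℕ) (c : Bool) (h : u + j < n' + 1) (hg : f + n' + 1 ≤ g) :
    (rot g f n' ^ j) (gn g (f + u) c) = gn g (f + u + j) c := by
  induction j with
  | zero => rfl
  | succ j ih =>
    rw [pow_succ', MulAut.mul_apply, ih (by omega), rot_mid _ _ _ _ (by omega) (by omega) hg,
      add_assoc (f + u)]

theorem rot_fix_zeta (f n' : ℕ) :
    rot g f n' (Zf (gn g) 0 (f + n' + 1)) = Zf (gn g) 0 (f + n' + 1) :=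
  SupG_fix_Zf (rot_mem f n') (Or.inr ⟨le_rfl, le_rfl⟩)

theorem rot_pow_hi (f n' j u : ℕ) (c : Bool) (hu : u < n' + 1) (h : n' + 1 ≤ u + j)
    (hj : j ≤ n' + 1) (hg : f + n' + 1 ≤ g) :
    (rot g f n' ^ j) (gn g (f + u) c) =
      (Zf (gn g) 0 (f + n' + 1))⁻¹ * gn g (f + (u + j - (n' + 1))) c *
        Zf (gn g) 0 (f + n' + 1) := by
  induction j with
  | zero => omega
  | succ j ih =>
    rw [pow_succ', MulAut.mul_apply]
    by_cases h2 : n' + 1 ≤ u + j
    · rw [ih h2 (by omega), map_mul, map_mul, map_inv, rot_fix_zeta,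
        rot_mid _ _ _ _ (by omega) (by omega) hg]
      congr 3
      omega
    · have h3 : u + j = n' := by omega
      rw [rot_pow_lo _ _ _ _ _ (by omega) hg, show f + u + j = f + n' by omega,
        rot_last _ _ _ hg, show u + (j + 1) - (n' + 1) = 0 by omega, add_zero]

theorem rot_pow_lt (f n' j r : ℕ) (c : Bool) (hr : r < f) (hj : j ≤ n' + 1)
    (hg : f + n' + 1 ≤ g) :
    (rot g f n' ^ j) (gn g r c) = (Zf (gn g) f j)⁻¹ * gn g r c * Zf (gn g) f j := by
  induction j with
  | zero => simp [Zf]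
  | succ j ih =>
    have h1 : rot g f n' (Zf (gn g) f j) = Zf (gn g) (f + 1) j := by
      have := aut_Zf_conj (rot g f n') 1 f (f + 1) j (by
        intro r c hr'
        rw [rot_mid _ _ _ _ (by omega) (by omega) hg, inv_one, one_mul, mul_one,
          show f + r + 1 = f + 1 + r by omega])
      simpa using this
    rw [pow_succ', MulAut.mul_apply, ih (by omega), map_mul, map_mul, map_inv, h1,
      rot_lt _ _ _ _ hr hg, show j + 1 = 1 + j by omega, Zf_add, Zf_one]
    group

theorem rot_pow_Blk (f n' j : ℕ) (hj : j ≤ n' + 1) (hg : f + n' + 1 ≤ g) {y : SurfaceGroup g}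
    (hy : y ∈ Blk g 0 f) :
    (rot g f n' ^ j) y = (Zf (gn g) f j)⁻¹ * y * Zf (gn g) f j := by
  have h := Blk_le_Fix (i := 0) (l := f) (MulAut.conj (Zf (gn g) f j) * rot g f n' ^ j) (by
    intro s c _ hs
    rw [MulAut.mul_apply, rot_pow_lt _ _ _ _ _ (by omega) hj hg, MulAut.conj_apply]
    group) hy
  rw [mem_Fix, MulAut.mul_apply, MulAut.conj_apply] at h
  have h2 : (rot g f n' ^ j) y = (Zf (gn g) f j)⁻¹ *
      (Zf (gn g) f j * (rot g f n' ^ j) y * (Zf (gn g) f j)⁻¹) * Zf (gn g) f j := by group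
  rw [h2, h]

/-- The basic element. -/
def xel (g f n' m : ℕ) (V W : MulAut (SurfaceGroup g)) : MulAut (SurfaceGroup g) :=
  rot g f n' ^ m * V * W

section

variable {f n' m l' : ℕ} {V W : MulAut (SurfaceGroup g)}

theorem x_mid (hV : V ∈ SupG g 0 f) (hW : W ∈ SupG g (f + n' + 1) l')
    (hg : f + n' + 1 ≤ g) (s : ℕ) (c : Bool) (h1 : f ≤ s) (h2 : s + m < f + n' + 1) :
    xel g f n' m V W (gn g s c) = gn g (s + m) c := by
  obtain ⟨u, rfl⟩ : ∃ u, s = f + u := ⟨s - f, by omega⟩
  rw [xel, MulAut.mul_apply, MulAut.mul_apply, SupG_fix_gn hW c (by omega),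
    SupG_fix_gn hV c (by omega), rot_pow_lo _ _ _ _ _ (by omega) hg]

theorem x_wrap (hV : V ∈ SupG g 0 f) (hW : W ∈ SupG g (f + n' + 1) l')
    (hg : f + n' + 1 ≤ g) (hm : m ≤ n' + 1) (u : ℕ) (c : Bool) (h1 : u < m) :
    xel g f n' m V W (gn g (f + (n' + 1 - m) + u) c) =
      (Zf (gn g) 0 (f + n' + 1))⁻¹ * gn g (f + u) c * Zf (gn g) 0 (f + n' + 1) := by
  rw [xel, MulAut.mul_apply, MulAut.mul_apply, SupG_fix_gn hW c (by omega),
    SupG_fix_gn hV c (by omega), show f + (n' + 1 - m) + u = f + (n' + 1 - m + u) by omega,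
    rot_pow_hi _ _ _ _ _ (by omega) (by omega) hm hg,
    show n' + 1 - m + u + m - (n' + 1) = u by omega]

theorem x_lt (hV : V ∈ SupG g 0 f) (hW : W ∈ SupG g (f + n' + 1) l')
    (hg : f + n' + 1 ≤ g) (hm : m ≤ n' + 1) (s : ℕ) (c : Bool) (h1 : s < f) :
    xel g f n' m V W (gn g s c) = (Zf (gn g) f m)⁻¹ * V (gn g s c) * Zf (gn g) f m := by
  rw [xel, MulAut.mul_apply, MulAut.mul_apply, SupG_fix_gn hW c (by omega),
    rot_pow_Blk _ _ _ hm hg (hV.2.1 _ (gn_mem_Blk c (by omega) (by omega)))]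

theorem x_gt (hV : V ∈ SupG g 0 f) (hW : W ∈ SupG g (f + n' + 1) l')
    (s : ℕ) (c : Bool) (h1 : f + n' + 1 ≤ s) :
    xel g f n' m V W (gn g s c) = W (gn g s c) := by
  have hr : rot g f n' ^ m ∈ SupG g 0 (f + n' + 1) := pow_mem (rot_mem f n') m
  rw [xel, MulAut.mul_apply, MulAut.mul_apply]
  have h2 : W (gn g s c) ∈ Blk g (f + n' + 1) (l' + s) := by
    by_cases h : s < f + n' + 1 + l'
    · exact Blk_mono le_rfl (by omega) (hW.2.1 _ (gn_mem_Blk c h1 h))
    · rw [SupG_fix_gn hW c (by omega)]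
      exact gn_mem_Blk c h1 (by omega)
  rw [SupG_fix_Blk hV (by omega) h2, SupG_fix_Blk hr (by omega) h2]

theorem comm_V_rot (hV : V ∈ SupG g 0 f) (hg : f + n' + 1 ≤ g) : Commute V (rot g f n') := by
  apply aut_ext_gn
  intro s c _
  rw [MulAut.mul_apply, MulAut.mul_apply]
  rcases lt_or_ge s f with h1 | h1
  · have h3 := rot_pow_Blk (g := g) f n' 1 (by omega) hg
      (hV.2.1 _ (gn_mem_Blk c (Nat.zero_le s) (by omega : s < 0 + f)))
    rw [pow_one, Zf_one] at h3
    rw [rot_lt _ _ _ _ h1 hg, h3, map_mul, map_mul, map_inv]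
    have : V (wc g f) = wc g f := by
      rw [← Zf_one]; exact SupG_fix_Blk hV (by omega) (Zf_mem_Blk le_rfl le_rfl)
    rw [this]
  · rw [SupG_fix_gn hV c (by omega)]
    rcases lt_or_ge s (f + n') with h2 | h2
    · rw [rot_mid _ _ _ _ h1 h2 hg, SupG_fix_gn hV c (by omega)]
    · rcases h2.eq_or_lt with h3 | h3
      · subst h3
        rw [rot_last _ _ _ hg, map_mul, map_mul, map_inv, SupG_fix_gn hV c (by omega),
          SupG_fix_Zf hV (Or.inr ⟨by omega, by omega⟩)]
      · rw [rot_out _ _ _ _ (by omega), SupG_fix_gn hV c (by omega)]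

theorem comm_rot_W (hW : W ∈ SupG g (f + n' + 1) l') : Commute (rot g f n') W :=
  SupG_commute (rot_mem f n') hW (by omega)

theorem comm_V_W (hV : V ∈ SupG g 0 f) (hW : W ∈ SupG g (f + n' + 1) l') : Commute V W :=
  SupG_commute hV hW (by omega)

/-- `x ^ k` is inner. -/
theorem x_pow (hV : V ∈ SupG g 0 f) (hW : W ∈ SupG g (f + n' + 1) l')
    (hg : f + n' + 1 + l' = g) (k : ℕ) (hk : m * k = n' + 1)
    (hVk : ∀ s c, s < f → (V ^ k) (gn g s c) = (Zf (gn g) 0 f)⁻¹ * gn g s c * Zf (gn g) 0 f)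
    (hWk : ∀ s c, f + n' + 1 ≤ s → s < g → (W ^ k) (gn g s c) =
      Zf (gn g) (f + n' + 1) l' * gn g s c * (Zf (gn g) (f + n' + 1) l')⁻¹) :
    xel g f n' m V W ^ k = MulAut.conj (Zf (gn g) 0 (f + n' + 1))⁻¹ := by
  have hVr : Commute V (rot g f n') := comm_V_rot hV (by omega)
  have hrW : Commute (rot g f n') W := comm_rot_W hW
  have hVW : Commute V W := comm_V_W hV hW
  have e1 : xel g f n' m V W ^ k = rot g f n' ^ (n' + 1) * V ^ k * W ^ k := by
    rw [xel, Commute.mul_pow, Commute.mul_pow, ← pow_mul, hk]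
    · exact (hVr.pow_right m).symm
    · exact (hrW.pow_left m).mul_left hVW
  have hVk' : V ^ k ∈ SupG g 0 f := pow_mem hV k
  have hWk' : W ^ k ∈ SupG g (f + n' + 1) l' := pow_mem hW k
  have e2 : xel g f n' m V W ^ k = xel g f n' (n' + 1) (V ^ k) (W ^ k) := e1
  have hZ : Zf (gn g) (f + n' + 1) l' = (Zf (gn g) 0 (f + n' + 1))⁻¹ := by
    have h1 : Zf (gn g) 0 (f + n' + 1 + l') = 1 := by
      have := Zf_gn g
      have h2 : ∀ N, N = g → Zf (gn g) 0 N = 1 := by rintro N rfl; exact this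
      exact h2 _ hg
    rw [Zf_add, zero_add] at h1
    exact eq_inv_of_mul_eq_one_right h1
  rw [e2]
  apply aut_ext_gn
  intro s c hs
  rw [MulAut.conj_apply, inv_inv]
  rcases lt_or_ge s f with h1 | h1
  · rw [x_lt hVk' hWk' (by omega) le_rfl s c h1, hVk s c h1, add_assoc,
      Zf_add (gn g) 0 f (n' + 1), zero_add]
    group
  · rcases lt_or_ge s (f + n' + 1) with h2 | h2
    · obtain ⟨u, rfl⟩ : ∃ u, s = f + u := ⟨s - f, by omega⟩
      have := x_wrap (m := n' + 1) hVk' hWk' (by omega) le_rfl u c (by omega)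
      rw [Nat.sub_self, add_zero] at this
      exact this
    · rw [x_gt hVk' hWk' s c h2, hWk s c h2 hs, hZ, inv_inv]

end

theorem sub_transport (x : MulAut (SurfaceGroup g)) (T : Tw) (d d' : ℕ) (v : SurfaceGroup g)
    (hin : d + T.lo + T.len ≤ g) (hin' : d' + T.lo + T.len ≤ g)
    (h1 : ∀ s c, T.lo ≤ s → s < T.lo + T.len →
      x (gn g (d + s) c) = v⁻¹ * gn g (d' + s) c * v) (r : ℕ) (c : Bool)
    (hr1 : T.lo ≤ r) (hr2 : r < T.lo + T.len) :
    x (sub g (T.shift d) false (d + r) c) = v⁻¹ * sub g (T.shift d') false (d' + r) c * v := by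
  cases T with
  | A t =>
    simp only [Tw.lo, Tw.len] at *
    obtain rfl : r = t := by omega
    have ha := fun c => h1 r c le_rfl (by omega)
    cases c
    · simp [Tw.shift, sub, ha]
    · simp [Tw.shift, sub, ha]; group
  | B t =>
    simp only [Tw.lo, Tw.len] at *
    obtain rfl : r = t := by omega
    have ha := fun c => h1 r c le_rfl (by omega)
    cases c
    · simp [Tw.shift, sub, ha]; group
    · simp [Tw.shift, sub, ha]
  | C t =>
    simp only [Tw.lo, Tw.len] at *
    have ha := fun c => h1 t c le_rfl (by omega)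
    have hb := fun c => h1 (t + 1) c (by omega) (by omega)
    have hd1 : d + t + 1 < g := by omega
    have hd2 : d' + t + 1 < g := by omega
    have hdc : x (dc g (d + t)) = v⁻¹ * dc g (d' + t) * v := by
      simp only [dc, map_mul, map_inv, ha, add_assoc d t 1, add_assoc d' t 1, hb]
      group
    obtain rfl | rfl : r = t ∨ r = t + 1 := by omega
    · cases c
      · simp [Tw.shift, sub, hd1, hd2, ha]
      · simp [Tw.shift, sub, hd1, hd2, ha, hdc]; group
    · cases c
      · simp only [Tw.shift, sub, hd1, hd2, ← add_assoc, if_true]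
        rw [if_neg (by simp), if_pos (by simp), if_neg (by simp), if_pos (by simp)]
        simp only [map_mul, map_inv, hdc, add_assoc d t 1, add_assoc d' t 1, hb]
        group
      · simp only [Tw.shift, sub, hd1, hd2, ← add_assoc, if_true]
        rw [if_neg (by simp), if_neg (by simp), if_pos (by simp), if_neg (by simp),
          if_neg (by simp), if_pos (by simp)]
        simp only [map_mul, hdc, add_assoc d t 1, add_assoc d' t 1, hb]
        group

theorem transport (x : MulAut (SurfaceGroup g)) (T : Tw) (d d' : ℕ) (v : SurfaceGroup g)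
    (hv : tw g (T.shift d') v = v)
    (hin : d + T.lo + T.len ≤ g) (hin' : d' + T.lo + T.len ≤ g)
    (h1 : ∀ s c, T.lo ≤ s → s < T.lo + T.len → x (gn g (d + s) c) = v⁻¹ * gn g (d' + s) c * v)
    (h2 : ∀ s c, s < d + T.lo ∨ d + T.lo + T.len ≤ s →
      tw g (T.shift d') (x (gn g s c)) = x (gn g s c)) :
    x * tw g (T.shift d) = tw g (T.shift d') * x := by
  apply aut_ext_gn
  intro s c _
  rw [MulAut.mul_apply, MulAut.mul_apply]
  by_cases h : s < d + T.lo ∨ d + T.lo + T.len ≤ s
  · rw [h2 s c h, SupG_fix_gn (tw_mem_SupG (T.shift d)) c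
      (by rw [Tw.shift_lo, Tw.shift_len]; exact h)]
  · obtain ⟨r, rfl⟩ : ∃ r, s = d + r := ⟨s - d, by omega⟩
    rw [tw_gn, sub_transport x T d d' v hin hin' h1 r c (by omega) (by omega),
      h1 r c (by omega) (by omega), map_mul, map_mul, map_inv, hv, tw_gn]

section

variable {f n' m l' : ℕ} {V W : MulAut (SurfaceGroup g)}

/-- twists of the first arms are shifted by `x` -/
theorem x_conj_mid (hV : V ∈ SupG g 0 f) (hW : W ∈ SupG g (f + n' + 1) l')
    (hg : f + n' + 1 ≤ g) (hm : m ≤ n' + 1) (T : Tw) (h1 : f ≤ T.lo)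
    (h2 : T.lo + T.len + m ≤ f + n' + 1) :
    xel g f n' m V W * tw g T = tw g (T.shift m) * xel g f n' m V W := by
  have hT0 : T.shift 0 = T := by cases T <;> simp [Tw.shift]
  have hS : tw g (T.shift m) ∈ SupG g (m + T.lo) T.len := by
    have := tw_mem_SupG (g := g) (T.shift m)
    rwa [Tw.shift_lo, Tw.shift_len] at this
  have key := transport (xel g f n' m V W) T 0 m 1 (map_one _) (by omega) (by omega)
    (by
      intro s c h3 h4
      rw [zero_add, x_mid hV hW hg s c (by omega) (by omega), inv_one, one_mul, mul_one,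
        add_comm m s])
    (by
      intro s c h3
      rw [zero_add] at h3
      rcases lt_or_ge s f with h5 | h5
      · rw [x_lt hV hW hg hm s c h5, map_mul, map_mul, map_inv]
        have e1 : tw g (T.shift m) (Zf (gn g) f m) = Zf (gn g) f m :=
          SupG_fix_Zf hS (Or.inl (by omega))
        have e2 : tw g (T.shift m) (V (gn g s c)) = V (gn g s c) :=
          SupG_fix_Blk hS (i' := 0) (l' := f) (by omega)
            (hV.2.1 _ (gn_mem_Blk c (by omega) (by omega)))
        rw [e1, e2]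
      · rcases lt_or_ge s (f + n' + 1) with h6 | h6
        · rcases lt_or_ge (s + m) (f + n' + 1) with h7 | h7
          · rw [x_mid hV hW hg s c h5 h7, SupG_fix_gn hS c (by omega)]
          · obtain ⟨u, rfl⟩ : ∃ u, s = f + (n' + 1 - m) + u := ⟨s - (f + (n' + 1 - m)), by omega⟩
            rw [x_wrap hV hW hg hm u c (by omega), map_mul, map_mul, map_inv,
              SupG_fix_gn hS c (by omega), SupG_fix_Zf hS (Or.inr ⟨by omega, by omega⟩)]
        · rw [x_gt hV hW s c h6]
          have e2 : W (gn g s c) ∈ Blk g (f + n' + 1) (l' + s) := by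
            by_cases h : s < f + n' + 1 + l'
            · exact Blk_mono le_rfl (by omega) (hW.2.1 _ (gn_mem_Blk c h6 h))
            · rw [SupG_fix_gn hW c (by omega)]
              exact gn_mem_Blk c h6 (by omega)
          exact SupG_fix_Blk hS (by omega) e2)
  rw [hT0] at key
  exact key

/-- twists of the last arm are shifted by `x` to the first arm -/
theorem x_conj_wrap (hV : V ∈ SupG g 0 f) (hW : W ∈ SupG g (f + n' + 1) l')
    (hg : f + n' + 1 ≤ g) (hm : m ≤ n' + 1) (T : Tw) (h1 : f ≤ T.lo)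
    (h2 : T.lo + T.len ≤ f + m) :
    xel g f n' m V W * tw g (T.shift (n' + 1 - m)) = tw g T * xel g f n' m V W := by
  have hT0 : T.shift 0 = T := by cases T <;> simp [Tw.shift]
  have hS : tw g (T.shift 0) ∈ SupG g T.lo T.len := by
    rw [hT0]; exact tw_mem_SupG (g := g) T
  have key := transport (xel g f n' m V W) T (n' + 1 - m) 0 (Zf (gn g) 0 (f + n' + 1))
    (SupG_fix_Zf hS (Or.inr ⟨by omega, by omega⟩)) (by omega) (by omega)
    (by
      intro s c h3 h4
      have := x_wrap (V := V) (W := W) hV hW hg hm (s - f) c (by omega)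
      rw [show f + (n' + 1 - m) + (s - f) = n' + 1 - m + s by omega,
        show f + (s - f) = s by omega] at this
      rw [this, zero_add])
    (by
      intro s c h3
      rcases lt_or_ge s f with h5 | h5
      · rw [x_lt hV hW hg hm s c h5, map_mul, map_mul, map_inv]
        have e1 : tw g (T.shift 0) (Zf (gn g) f m) = Zf (gn g) f m :=
          SupG_fix_Zf hS (Or.inr ⟨by omega, by omega⟩)
        have e2 : tw g (T.shift 0) (V (gn g s c)) = V (gn g s c) :=
          SupG_fix_Blk hS (i' := 0) (l' := f) (by omega)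
            (hV.2.1 _ (gn_mem_Blk c (by omega) (by omega)))
        rw [e1, e2]
      · rcases lt_or_ge s (f + n' + 1) with h6 | h6
        · rcases lt_or_ge (s + m) (f + n' + 1) with h7 | h7
          · rw [x_mid hV hW hg s c h5 h7, SupG_fix_gn hS c (by omega)]
          · obtain ⟨u, rfl⟩ : ∃ u, s = f + (n' + 1 - m) + u := ⟨s - (f + (n' + 1 - m)), by omega⟩
            rw [x_wrap hV hW hg hm u c (by omega), map_mul, map_mul, map_inv,
              SupG_fix_gn hS c (by omega), SupG_fix_Zf hS (Or.inr ⟨by omega, by omega⟩)]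
        · rw [x_gt hV hW s c h6]
          have e2 : W (gn g s c) ∈ Blk g (f + n' + 1) (l' + s) := by
            by_cases h : s < f + n' + 1 + l'
            · exact Blk_mono le_rfl (by omega) (hW.2.1 _ (gn_mem_Blk c h6 h))
            · rw [SupG_fix_gn hW c (by omega)]
              exact gn_mem_Blk c h6 (by omega)
          exact SupG_fix_Blk hS (by omega) e2)
  rw [hT0] at key
  exact key

/-- `x` acts on the central piece as `V` -/
theorem x_conj_V (hV : V ∈ SupG g 0 f) (hW : W ∈ SupG g (f + n' + 1) l')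
    (hg : f + n' + 1 ≤ g) {u : MulAut (SurfaceGroup g)} (hu : u ∈ SupG g 0 f) :
    xel g f n' m V W * u = (V * u * V⁻¹) * xel g f n' m V W := by
  have h1 : Commute W u := (comm_V_W hu hW).symm
  have h3 : Commute (V * u * V⁻¹) (rot g f n' ^ m) :=
    (comm_V_rot (mul_mem (mul_mem hV hu) (inv_mem hV)) hg).pow_right m
  rw [xel]
  calc rot g f n' ^ m * V * W * u = rot g f n' ^ m * V * (W * u) := by group
    _ = rot g f n' ^ m * V * (u * W) := by rw [h1.eq]
    _ = (rot g f n' ^ m * (V * u * V⁻¹)) * V * W := by group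
    _ = ((V * u * V⁻¹) * rot g f n' ^ m) * V * W := by rw [h3.eq]
    _ = _ := by group

/-- `x` acts on the outer piece as `W` -/
theorem x_conj_W (hV : V ∈ SupG g 0 f) (hW : W ∈ SupG g (f + n' + 1) l')
    {u : MulAut (SurfaceGroup g)} (hu : u ∈ SupG g (f + n' + 1) l') :
    xel g f n' m V W * u = (W * u * W⁻¹) * xel g f n' m V W := by
  have hw : W * u * W⁻¹ ∈ SupG g (f + n' + 1) l' := mul_mem (mul_mem hW hu) (inv_mem hW)
  have h1 : Commute V (W * u * W⁻¹) := comm_V_W hV hw
  have h3 : Commute (rot g f n' ^ m) (W * u * W⁻¹) := (comm_rot_W hw).pow_left m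
  rw [xel]
  calc rot g f n' ^ m * V * W * u = rot g f n' ^ m * (V * (W * u * W⁻¹)) * W := by group
    _ = (rot g f n' ^ m * (W * u * W⁻¹)) * V * W := by rw [h1.eq]; group
    _ = ((W * u * W⁻¹) * rot g f n' ^ m) * V * W := by rw [h3.eq]
    _ = _ := by group

end

end Pool.Agent.H808
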