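import Pool.Agent.H808.Core
import Pool.Agent.H808.Xel

namespace Pool.Agent.H808

variable {g : ℕ}

theorem tw_out (T : Tw) (h : g < T.lo + T.len) : tw g T = 1 := by
  apply aut_ext_gn
  intro s c _
  rw [tw_gn, sub_of_out _ _ _ _ h]
  rfl

/-- the chain of twists `B_0, C_0, B_1, C_1, …` -/
def EE (g s : ℕ) : MulAut (SurfaceGroup g) := if s % 2 = 0 then tw g (.B (s / 2)) else tw g (.C (s / 2))

/-- the twists `A_t` -/
def AA (g t : ℕ) : MulAut (SurfaceGroup g) := tw g (.A t)

theorem EE_even (t : ℕ) : EE g (2 * t) = tw g (.B t) := by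
  rw [EE, if_pos (by omega), show 2 * t / 2 = t by omega]

theorem EE_odd (t : ℕ) : EE g (2 * t + 1) = tw g (.C t) := by
  rw [EE, if_neg (by omega), show (2 * t + 1) / 2 = t by omega]

theorem twe_false (T : Tw) : twe g (T, false) = tw g T := rfl
theorem twe_true (T : Tw) : twe g (T, true) = (tw g T)⁻¹ := rfl

theorem tw_comm_disj (T T' : Tw) (h : T.lo + T.len ≤ T'.lo ∨ T'.lo + T'.len ≤ T.lo) :
    Commute (tw g T) (tw g T') := by
  rcases h with h | h
  · exact SupG_commute (tw_mem_SupG T) (tw_mem_SupG T') h
  · exact (SupG_commute (tw_mem_SupG T') (tw_mem_SupG T) h).symm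

theorem comm_AC (t : ℕ) : Commute (tw g (.A t)) (tw g (.C t)) := by
  by_cases h : t + 2 ≤ g
  · have := rel_of_check 2 _ _ (by decide) (by decide) chk_AC t h
    simp only [prodW_cons, prodW_nil, mul_one, Tw.shift, add_zero, twe_false] at this
    exact this
  · rw [tw_out (.C t) (by simp only [Tw.lo, Tw.len]; omega)]
    exact Commute.one_right _

theorem comm_AC' (t : ℕ) : Commute (tw g (.A (t + 1))) (tw g (.C t)) := by
  by_cases h : t + 2 ≤ g
  · have := rel_of_check 2 _ _ (by decide) (by decide) chk_AC' t h
    simp only [prodW_cons, prodW_nil, mul_one, Tw.shift, add_zero, twe_false] at this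
    exact this
  · rw [tw_out (.C t) (by simp only [Tw.lo, Tw.len]; omega)]
    exact Commute.one_right _

theorem comm_CC (t : ℕ) : Commute (tw g (.C t)) (tw g (.C (t + 1))) := by
  by_cases h : t + 3 ≤ g
  · have := rel_of_check 3 _ _ (by decide) (by decide) chk_CC t h
    simp only [prodW_cons, prodW_nil, mul_one, Tw.shift, add_zero, twe_false] at this
    exact this
  · rw [tw_out (.C (t + 1)) (by simp only [Tw.lo, Tw.len]; omega)]
    exact Commute.one_right _

theorem chainEA (hg : 1 ≤ g) : Chain (EE g) (AA g) (2 * g - 1) where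
  br := by
    intro s hs
    rcases Nat.even_or_odd' s with ⟨t, rfl | rfl⟩
    · have := rel_of_check 2 _ _ (by decide) (by decide) chk_BC t (show t + 2 ≤ g by omega)
      simp only [prodW_cons, prodW_nil, mul_one, Tw.shift, add_zero, twe_false] at this
      rw [EE_even, EE_odd, mul_assoc, this, mul_assoc]
    · have := rel_of_check 2 _ _ (by decide) (by decide) chk_CB t (show t + 2 ≤ g by omega)
      simp only [prodW_cons, prodW_nil, mul_one, Tw.shift, add_zero, twe_false] at this
      rw [show 2 * t + 1 + 1 = 2 * (t + 1) by ring, EE_even, EE_odd, mul_assoc, this, mul_assoc]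
  cm := by
    intro s t hst
    rcases Nat.even_or_odd' s with ⟨i, rfl | rfl⟩ <;> rcases Nat.even_or_odd' t with ⟨j, rfl | rfl⟩
    · rw [EE_even, EE_even]
      exact tw_comm_disj _ _ (by simp only [Tw.lo, Tw.len]; omega)
    · rw [EE_even, EE_odd]
      exact tw_comm_disj _ _ (by simp only [Tw.lo, Tw.len]; omega)
    · rw [EE_odd, EE_even]
      exact tw_comm_disj _ _ (by simp only [Tw.lo, Tw.len]; omega)
    · rw [EE_odd, EE_odd]
      by_cases h : j = i + 1
      · rw [h]; exact comm_CC i
      · exact tw_comm_disj _ _ (by simp only [Tw.lo, Tw.len]; omega)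
  abr := by
    intro t ht
    have := rel_of_check 1 _ _ (by decide) (by decide) chk_AB t (show t + 1 ≤ g by omega)
    simp only [prodW_cons, prodW_nil, mul_one, Tw.shift, add_zero, twe_false] at this
    rw [EE_even, AA, mul_assoc, this, mul_assoc]
  acm := by
    intro t s hst
    rcases Nat.even_or_odd' s with ⟨i, rfl | rfl⟩
    · rw [EE_even, AA]
      exact tw_comm_disj _ _ (by simp only [Tw.lo, Tw.len]; omega)
    · rw [EE_odd, AA]
      by_cases h : t = i
      · rw [h]; exact comm_AC i
      · by_cases h' : t = i + 1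
        · rw [h']; exact comm_AC' i
        · exact tw_comm_disj _ _ (by simp only [Tw.lo, Tw.len]; omega)
  aa := by
    intro s t
    by_cases h : s = t
    · rw [h]
    · exact tw_comm_disj _ _ (by simp only [Tw.lo, Tw.len]; omega)
  ra := by
    intro t ht
    have := rel_of_check 2 _ _ (by decide) (by decide) chk_a t (show t + 2 ≤ g by omega)
    simp only [prodW_wpow, prodW_cons, prodW_nil, mul_one, Tw.shift, add_zero, twe_false] at this
    rw [show 2 * t + 2 = 2 * (t + 1) by ring]
    simp only [EE_even, EE_odd, AA, mul_assoc]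
    exact this
  rb := by
    intro t ht
    have := rel_of_check 3 _ _ (by decide) (by decide) chk_b t (show t + 3 ≤ g by omega)
    simp only [prodW_wpow, prodW_cons, prodW_nil, mul_one, Tw.shift, add_zero, twe_false] at this
    rw [show 2 * t + 2 = 2 * (t + 1) by ring, show 2 * t + 3 = 2 * (t + 1) + 1 by ring,
      show 2 * t + 4 = 2 * (t + 2) by ring]
    simp only [EE_even, EE_odd, AA, mul_assoc]
    exact this
  hum := by
    intro t ht
    have := rel_of_check 3 _ _ (by decide) (by decide) chk_hum t (show t + 3 ≤ g by omega)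
    simp only [prodW_append, humW, prodW_cons, prodW_nil, mul_one, Tw.shift, add_zero,
      twe_false] at this
    rw [show 2 * t + 2 = 2 * (t + 1) by ring, show 2 * t + 3 = 2 * (t + 1) + 1 by ring,
      show 2 * t + 4 = 2 * (t + 2) by ring]
    simp only [EE_even, EE_odd, AA, mul_assoc] at this ⊢
    exact this

end Pool.Agent.H808
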