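import Pool.Agent.H808.Gen

namespace Pool.Agent.H808

variable {G : Type*} [Group G] {E A : ℕ → G} {L : ℕ}

/-- the element moving the chain of an arm -/
def cc (E A : ℕ → G) (m F : ℕ) : G :=
  Dp E (2 * (F + m)) (2 * m - 1) * E (2 * (F + m) - 1) * (A (F + 1) * A (F + 2))

theorem cc_comm {m F : ℕ} (u : G)
    (hE : ∀ t, 2 * (F + m) ≤ t + 1 → t + 2 ≤ 2 * (F + 2 * m) → Commute u (E t))
    (hm : 1 ≤ m) (h1 : Commute u (A (F + 1))) (h2 : Commute u (A (F + 2))) :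
    Commute u (cc E A m F) :=
  ((Dp_comm E u _ _ (fun t h3 h4 => hE t (by omega) (by omega))).mul_right
    (hE _ (by omega) (by omega))).mul_right (h1.mul_right h2)

theorem cc_comm_E (hc : Chain E A L) {m F s : ℕ} (hm : 5 ≤ m)
    (hs : 2 * (F + 2 * m) ≤ s ∨ (s + 3 ≤ 2 * (F + m) ∧ s ≠ 2 * (F + 1) ∧ s ≠ 2 * (F + 2))) :
    Commute (E s) (cc E A m F) := by
  apply cc_comm
  · intro t h1 h2
    rcases hs with hs | hs
    · exact (hc.cm _ _ (by omega)).symm
    · exact hc.cm _ _ (by omega)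
  · omega
  · exact (hc.acm _ _ (by omega)).symm
  · exact (hc.acm _ _ (by omega)).symm

theorem cc_shift (hc : Chain E A L) {m F s : ℕ} (hm : 5 ≤ m)
    (h1 : 2 * (F + m) + 1 ≤ s) (h2 : s + 3 ≤ 2 * (F + 2 * m)) (hL : 2 * (F + 2 * m) ≤ L + 1) :
    cc E A m F * E s = E (s + 1) * cc E A m F := by
  have e1 : Commute (A (F + 1) * A (F + 2)) (E s) :=
    (hc.acm _ _ (by omega)).mul_left (hc.acm _ _ (by omega))
  have e2 : Commute (E (2 * (F + m) - 1)) (E s) := hc.cm _ _ (by omega)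
  have e3 := Dp_shift hc (2 * (F + m)) (2 * m - 1) s (by omega) (by omega) (by omega)
  calc cc E A m F * E s
      = Dp E (2 * (F + m)) (2 * m - 1) * E (2 * (F + m) - 1) *
        ((A (F + 1) * A (F + 2)) * E s) := by rw [cc, mul_assoc]
    _ = Dp E (2 * (F + m)) (2 * m - 1) * (E (2 * (F + m) - 1) * E s) *
        (A (F + 1) * A (F + 2)) := by rw [e1.eq]; simp only [mul_assoc]
    _ = (Dp E (2 * (F + m)) (2 * m - 1) * E s) * E (2 * (F + m) - 1) *
        (A (F + 1) * A (F + 2)) := by rw [e2.eq]; simp only [mul_assoc]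
    _ = _ := by rw [e3, cc]; simp only [mul_assoc]

theorem comm_lemma (a b c d : G) (hbc : Commute b c) (hbd : Commute b d) (had : Commute a d) :
    (a * b⁻¹) * (c * d⁻¹) * (a * b⁻¹)⁻¹ * (c * d⁻¹)⁻¹ = a * c * a⁻¹ * c⁻¹ := by
  have h1 : Commute b (c * d⁻¹) := hbc.mul_right hbd.inv_right
  calc (a * b⁻¹) * (c * d⁻¹) * (a * b⁻¹)⁻¹ * (c * d⁻¹)⁻¹
      = a * b⁻¹ * ((c * d⁻¹) * b) * a⁻¹ * d * c⁻¹ := by group
    _ = a * b⁻¹ * (b * (c * d⁻¹)) * a⁻¹ * d * c⁻¹ := by rw [h1.eq]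
    _ = a * c * d⁻¹ * (a⁻¹ * d) * c⁻¹ := by group
    _ = a * c * d⁻¹ * (d * a⁻¹) * c⁻¹ := by rw [had.inv_left.eq]
    _ = _ := by group

/-- Hypotheses of the core of the generation argument. -/
structure Core (E A : ℕ → G) (L : ℕ) (x Θ : G) (f m n : ℕ) : Prop where
  hc : Chain E A L
  hm : 6 ≤ m
  hn : 4 * m ≤ n
  hL : 2 * (f + n) ≤ L + 1
  xE : ∀ s, 2 * f ≤ s → s + 2 * m + 2 ≤ 2 * (f + n) → x * E s = E (s + 2 * m) * x
  xA : ∀ t, f ≤ t → t + m < f + n → x * A t = A (t + m) * x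
  hT : ∀ s, 2 * f + 1 ≤ s → s + 2 ≤ 2 * (f + 4 * m) → Commute Θ (E s)
  hTA : ∀ t, f ≤ t → t < f + 4 * m → Commute Θ (A t)

variable {x Θ : G} {f m n : ℕ}

theorem Core.x_cc (h : Core E A L x Θ f m n) (F : ℕ) (h1 : f ≤ F) (h2 : F + 3 * m ≤ f + n) :
    x * cc E A m F = cc E A m (F + m) * x := by
  have hm := h.hm
  have e1 := Dp_conj E x (2 * m) (2 * (F + m)) (2 * m - 1)
    (fun t h3 h4 => h.xE t (by omega) (by omega))
  have e2 := h.xE (2 * (F + m) - 1) (by omega) (by omega)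
  have e3 := h.xA (F + 1) (by omega) (by omega)
  have e4 := h.xA (F + 2) (by omega) (by omega)
  rw [show 2 * (F + m) + 2 * m = 2 * (F + m + m) by ring] at e1
  rw [show 2 * (F + m) - 1 + 2 * m = 2 * (F + m + m) - 1 by omega] at e2
  rw [show F + 1 + m = F + m + 1 by omega] at e3
  rw [show F + 2 + m = F + m + 2 by omega] at e4
  calc x * cc E A m F = (x * Dp E (2 * (F + m)) (2 * m - 1)) * E (2 * (F + m) - 1) *
        (A (F + 1) * A (F + 2)) := by rw [cc]; simp only [mul_assoc]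
    _ = Dp E (2 * (F + m + m)) (2 * m - 1) * (x * E (2 * (F + m) - 1)) *
        (A (F + 1) * A (F + 2)) := by rw [e1]; simp only [mul_assoc]
    _ = Dp E (2 * (F + m + m)) (2 * m - 1) * E (2 * (F + m + m) - 1) * ((x * A (F + 1)) *
        A (F + 2)) := by rw [e2]; simp only [mul_assoc]
    _ = Dp E (2 * (F + m + m)) (2 * m - 1) * E (2 * (F + m + m) - 1) * (A (F + m + 1) *
        (x * A (F + 2))) := by rw [e3]; simp only [mul_assoc]
    _ = _ := by rw [e4, cc]; simp only [mul_assoc]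

/-- `Θ` commutes with the elements `cc`. -/
theorem Core.T_cc (h : Core E A L x Θ f m n) (F : ℕ) (h1 : f ≤ F) (h2 : F + 2 * m ≤ f + 4 * m) :
    Commute Θ (cc E A m F) := by
  have hm := h.hm
  apply cc_comm
  · intro t h3 h4
    exact h.hT t (by omega) (by omega)
  · omega
  · exact h.hTA _ (by omega) (by omega)
  · exact h.hTA _ (by omega) (by omega)

/-- the first auxiliary element -/
def ya (E : ℕ → G) (x Θ : G) (f m : ℕ) : G := E (2 * (f + 2 * m) + 1) * (x⁻¹ * Θ * x)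

theorem conj_comm {x u v w : G} (h : x * v = w * x) (hc : Commute u w) :
    Commute (x⁻¹ * u * x) v := by
  have hv : v = x⁻¹ * w * x := by rw [mul_assoc, ← h]; group
  have hcw := hc.eq
  rw [hv]
  show x⁻¹ * u * x * (x⁻¹ * w * x) = x⁻¹ * w * x * (x⁻¹ * u * x)
  calc x⁻¹ * u * x * (x⁻¹ * w * x) = x⁻¹ * (u * w) * x := by group
    _ = x⁻¹ * (w * u) * x := by rw [hcw]
    _ = _ := by group

section

variable {H : Subgroup G}

theorem Core.step1 (h : Core E A L x Θ f m n) (hx : x ∈ H)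
    (hy : ya E x Θ f m * x * (ya E x Θ f m)⁻¹ ∈ H)
    (hz : cc E A m (f + m) * x * (cc E A m (f + m))⁻¹ ∈ H) :
    cc E A m (f + m) * (cc E A m f)⁻¹ ∈ H ∧
    ya E x Θ f m * (E (2 * (f + 3 * m) + 1) * Θ)⁻¹ ∈ H ∧
    E (2 * (f + 2 * m) + 1) * (E (2 * (f + 2 * m) + 2))⁻¹ ∈ H := by
  have hm := h.hm
  have hn := h.hn
  have hL := h.hL
  have hc := h.hc
  set c := cc E A m (f + m) with hcdef
  set d := cc E A m f with hddef
  set a := ya E x Θ f m with hadef
  set b := E (2 * (f + 3 * m) + 1) * Θ with hbdef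
  have hd : x * d = c * x := h.x_cc f le_rfl (by omega)
  have hc' : x * c = cc E A m (f + 2 * m) * x := by
    have := h.x_cc (f + m) (by omega) (by omega)
    rwa [show f + m + m = f + 2 * m by ring] at this
  have hxa : x * a = b * x := by
    have := h.xE (2 * (f + 2 * m) + 1) (by omega) (by omega)
    rw [show 2 * (f + 2 * m) + 1 + 2 * m = 2 * (f + 3 * m) + 1 by ring] at this
    rw [hadef, hbdef, ya, ← mul_assoc, this]
    group
  have hQ : c * d⁻¹ ∈ H := by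
    have : c * d⁻¹ = (c * x * c⁻¹)⁻¹ * x := by
      have : d⁻¹ = x⁻¹ * c⁻¹ * x := by
        have h1 : d = x⁻¹ * c * x := by rw [mul_assoc, ← hd]; group
        rw [h1]; group
      rw [this]; group
    rw [this]
    exact mul_mem (inv_mem hz) hx
  have hP : a * b⁻¹ ∈ H := by
    have : a * b⁻¹ = (a * x * a⁻¹) * x⁻¹ := by
      have h1 : b = x * a * x⁻¹ := by rw [hxa]; group
      rw [h1]; group
    rw [this]
    exact mul_mem hy (inv_mem hx)
  refine ⟨hQ, hP, ?_⟩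
  -- commutations
  have hbc : Commute b c := by
    refine Commute.mul_left (cc_comm_E hc (by omega) (by omega)) (h.T_cc _ (by omega) (by omega))
  have hbd : Commute b d := by
    refine Commute.mul_left (cc_comm_E hc (by omega) (by omega)) (h.T_cc _ (by omega) (by omega))
  have had : Commute a d := by
    refine Commute.mul_left (cc_comm_E hc (by omega) (by omega)) ?_
    exact conj_comm hd (h.T_cc _ (by omega) (by omega))
  have hXc : Commute (x⁻¹ * Θ * x) c := conj_comm hc' (h.T_cc _ (by omega) (by omega))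
  have hsh : c * E (2 * (f + 2 * m) + 1) = E (2 * (f + 2 * m) + 2) * c := by
    have := cc_shift hc (m := m) (F := f + m) (s := 2 * (f + 2 * m) + 1) (by omega) (by omega)
      (by omega) (by omega)
    exact this
  have key : E (2 * (f + 2 * m) + 1) * (E (2 * (f + 2 * m) + 2))⁻¹ = a * c * a⁻¹ * c⁻¹ := by
    rw [hadef, ya]
    have h1 : E (2 * (f + 2 * m) + 2) = c * E (2 * (f + 2 * m) + 1) * c⁻¹ := by rw [hsh]; group
    rw [h1]
    calc E (2 * (f + 2 * m) + 1) * (c * E (2 * (f + 2 * m) + 1) * c⁻¹)⁻¹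
        = E (2 * (f + 2 * m) + 1) * c * (x⁻¹ * Θ * x) * (x⁻¹ * Θ * x)⁻¹ *
          (E (2 * (f + 2 * m) + 1))⁻¹ * c⁻¹ := by group
      _ = E (2 * (f + 2 * m) + 1) * (c * (x⁻¹ * Θ * x)) * (x⁻¹ * Θ * x)⁻¹ *
          (E (2 * (f + 2 * m) + 1))⁻¹ * c⁻¹ := by group
      _ = E (2 * (f + 2 * m) + 1) * ((x⁻¹ * Θ * x) * c) * (x⁻¹ * Θ * x)⁻¹ *
          (E (2 * (f + 2 * m) + 1))⁻¹ * c⁻¹ := by rw [hXc.eq]
      _ = _ := by group
  rw [key, ← comm_lemma a b c d hbc hbd had]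
  exact mul_mem (mul_mem (mul_mem hP hQ) (inv_mem hP)) (inv_mem hQ)

/-- differences of twists of the arm `2` -/
theorem Core.step2 (h : Core E A L x Θ f m n)
    (hQ : cc E A m (f + m) * (cc E A m f)⁻¹ ∈ H)
    (h1 : E (2 * (f + 2 * m) + 1) * (E (2 * (f + 2 * m) + 2))⁻¹ ∈ H) (j : ℕ)
    (hj : j + 4 ≤ 2 * m) :
    E (2 * (f + 2 * m) + 1 + j) * (E (2 * (f + 2 * m) + 2 + j))⁻¹ ∈ H := by
  have hm := h.hm
  have hn := h.hn
  have hL := h.hL
  have hc := h.hc
  induction j with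
  | zero => exact h1
  | succ j ih =>
    have ih := ih (by omega)
    set Q := cc E A m (f + m) * (cc E A m f)⁻¹ with hQdef
    have key : ∀ s, 2 * (f + 2 * m) + 1 ≤ s → s + 3 ≤ 2 * (f + 3 * m) →
        Q * E s * Q⁻¹ = E (s + 1) := by
      intro s h2 h3
      have e1 : Commute (E s) (cc E A m f) := cc_comm_E hc (by omega) (by omega)
      have e2 := cc_shift hc (m := m) (F := f + m) (s := s) (by omega) (by omega)
        (by omega) (by omega)
      calc Q * E s * Q⁻¹ = cc E A m (f + m) * (cc E A m f)⁻¹ * (E s * cc E A m f) *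
            (cc E A m (f + m))⁻¹ := by rw [hQdef]; group
        _ = cc E A m (f + m) * (cc E A m f)⁻¹ * (cc E A m f * E s) *
            (cc E A m (f + m))⁻¹ := by rw [e1.eq]
        _ = (cc E A m (f + m) * E s) * (cc E A m (f + m))⁻¹ := by group
        _ = E (s + 1) := by rw [e2]; group
    have e3 := key (2 * (f + 2 * m) + 1 + j) (by omega) (by omega)
    have e4 := key (2 * (f + 2 * m) + 2 + j) (by omega) (by omega)
    have : E (2 * (f + 2 * m) + 1 + (j + 1)) * (E (2 * (f + 2 * m) + 2 + (j + 1)))⁻¹ =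
        Q * (E (2 * (f + 2 * m) + 1 + j) * (E (2 * (f + 2 * m) + 2 + j))⁻¹) * Q⁻¹ := by
      rw [← add_assoc, ← add_assoc, ← e3, ← e4]; group
    rw [this]
    exact mul_mem (mul_mem hQ ih) (inv_mem hQ)

theorem Core.step2' (h : Core E A L x Θ f m n)
    (hQ : cc E A m (f + m) * (cc E A m f)⁻¹ ∈ H)
    (h1 : E (2 * (f + 2 * m) + 1) * (E (2 * (f + 2 * m) + 2))⁻¹ ∈ H) (i j : ℕ)
    (hj : i + j + 3 ≤ 2 * m) :
    E (2 * (f + 2 * m) + 1 + i) * (E (2 * (f + 2 * m) + 1 + i + j))⁻¹ ∈ H := by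
  induction j with
  | zero => simp
  | succ j ih =>
    have e1 := ih (by omega)
    have e2 := h.step2 hQ h1 (i + j) (by omega)
    have : E (2 * (f + 2 * m) + 1 + i) * (E (2 * (f + 2 * m) + 1 + i + (j + 1)))⁻¹ =
        (E (2 * (f + 2 * m) + 1 + i) * (E (2 * (f + 2 * m) + 1 + i + j))⁻¹) *
        (E (2 * (f + 2 * m) + 1 + (i + j)) * (E (2 * (f + 2 * m) + 2 + (i + j)))⁻¹) := by
      rw [show 2 * (f + 2 * m) + 1 + (i + j) = 2 * (f + 2 * m) + 1 + i + j by ring,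
        show 2 * (f + 2 * m) + 2 + (i + j) = 2 * (f + 2 * m) + 1 + i + (j + 1) by ring]
      group
    rw [this]
    exact mul_mem e1 e2

theorem cc_A (hc : Chain E A L) {m F t : ℕ} (hm : 6 ≤ m) (ht : t = F + 1 ∨ t = F + 2) :
    cc E A m F * E (2 * t) * (cc E A m F)⁻¹ = A t * E (2 * t) * (A t)⁻¹ := by
  obtain ⟨t', ht', hne⟩ : ∃ t', (A (F + 1) * A (F + 2) = A t' * A t) ∧ t' ≠ t := by
    rcases ht with rfl | rfl
    · exact ⟨F + 2, (hc.aa _ _).eq, by omega⟩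
    · exact ⟨F + 1, rfl, by omega⟩
  set W := Dp E (2 * (F + m)) (2 * m - 1) * E (2 * (F + m) - 1) * A t' with hW
  have hcc : cc E A m F = W * A t := by rw [cc, ht', hW]; simp only [mul_assoc]
  have e1 : Commute (E (2 * t)) W := by
    refine ((Dp_comm E _ _ _ (fun s h1 h2 => hc.cm _ _ (by omega))).mul_right
      (hc.cm _ _ (by omega))).mul_right (hc.acm _ _ (by omega)).symm
  have e2 : Commute (A t) W := by
    refine ((Dp_comm E _ _ _ (fun s h1 h2 => hc.acm _ _ (by omega))).mul_right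
      (hc.acm _ _ (by omega))).mul_right (hc.aa _ _)
  have e3 : Commute (A t * E (2 * t) * (A t)⁻¹) W := (e2.mul_left e1).mul_left e2.inv_left
  rw [hcc]
  calc W * A t * E (2 * t) * (W * A t)⁻¹ = W * (A t * E (2 * t) * (A t)⁻¹) * W⁻¹ := by group
    _ = (A t * E (2 * t) * (A t)⁻¹) * W * W⁻¹ := by rw [← e3.eq]
    _ = _ := by group

theorem Core.step3 (h : Core E A L x Θ f m n) (hx : x ∈ H)
    (hQ : cc E A m (f + m) * (cc E A m f)⁻¹ ∈ H) (t : ℕ)
    (ht : t = f + 2 * m + 1 ∨ t = f + 2 * m + 2)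
    (h1 : E (2 * (f + 2 * m) + 1) * (E (2 * t))⁻¹ ∈ H) :
    (E (2 * t))⁻¹ * A t ∈ H := by
  have hm := h.hm
  have hn := h.hn
  have hL := h.hL
  have hc := h.hc
  set c := cc E A m (f + m) with hcdef
  set d := cc E A m f with hddef
  set c' := cc E A m (f + 2 * m) with hc'def
  have hd : x * d = c * x := h.x_cc f le_rfl (by omega)
  have hc' : x * c = c' * x := by
    have := h.x_cc (f + m) (by omega) (by omega)
    rwa [show f + m + m = f + 2 * m by ring] at this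
  have hS : c' * d⁻¹ ∈ H := by
    have : c' * d⁻¹ = (x * (c * d⁻¹) * x⁻¹) * (c * d⁻¹) := by
      have h2 : c' = x * c * x⁻¹ := by rw [hc']; group
      have h3 : x * d⁻¹ * x⁻¹ = c⁻¹ := by
        have : c = x * d * x⁻¹ := by rw [hd]; group
        rw [this]; group
      calc c' * d⁻¹ = (x * c * x⁻¹) * c⁻¹ * (c * d⁻¹) := by rw [h2]; group
        _ = (x * c * x⁻¹) * (x * d⁻¹ * x⁻¹) * (c * d⁻¹) := by rw [h3]
        _ = _ := by group
    rw [this]
    exact mul_mem (mul_mem (mul_mem hx hQ) (inv_mem hx)) hQ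
  have hdE : ∀ s, 2 * (f + 2 * m) ≤ s → Commute (E s) d :=
    fun s hs => cc_comm_E hc (by omega) (by omega)
  have h2 : (c' * d⁻¹) * E (2 * t) * (c' * d⁻¹)⁻¹ = A t * E (2 * t) * (A t)⁻¹ := by
    have e1 := hdE (2 * t) (by omega)
    have e2 := cc_A hc (m := m) (F := f + 2 * m) (t := t) hm ht
    calc (c' * d⁻¹) * E (2 * t) * (c' * d⁻¹)⁻¹ = c' * d⁻¹ * (E (2 * t) * d) * c'⁻¹ := by group
      _ = c' * d⁻¹ * (d * E (2 * t)) * c'⁻¹ := by rw [e1.eq]
      _ = c' * E (2 * t) * c'⁻¹ := by group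
      _ = _ := e2
  have h3 : (c' * d⁻¹) * E (2 * (f + 2 * m) + 1) * (c' * d⁻¹)⁻¹ = E (2 * (f + 2 * m) + 1) := by
    have e1 := hdE (2 * (f + 2 * m) + 1) (by omega)
    have e2 : Commute (E (2 * (f + 2 * m) + 1)) c' := cc_comm_E hc (by omega) (by omega)
    have e3 : Commute (E (2 * (f + 2 * m) + 1)) (c' * d⁻¹) := e2.mul_right e1.inv_right
    rw [← e3.eq]; group
  have h4 : A t * E (2 * t) * (A t)⁻¹ = (E (2 * t))⁻¹ * A t * E (2 * t) :=
    braid_conj (hc.abr t (by omega))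
  have key : (E (2 * t))⁻¹ * A t =
      (c' * d⁻¹) * (E (2 * (f + 2 * m) + 1) * (E (2 * t))⁻¹)⁻¹ * (c' * d⁻¹)⁻¹ *
      (E (2 * (f + 2 * m) + 1) * (E (2 * t))⁻¹) := by
    calc (E (2 * t))⁻¹ * A t = ((E (2 * t))⁻¹ * A t * E (2 * t)) * (E (2 * t))⁻¹ := by group
      _ = ((c' * d⁻¹) * E (2 * t) * (c' * d⁻¹)⁻¹) * (E (2 * t))⁻¹ := by rw [h2, h4]
      _ = ((c' * d⁻¹) * E (2 * t) * (c' * d⁻¹)⁻¹) * (E (2 * (f + 2 * m) + 1))⁻¹ *
          E (2 * (f + 2 * m) + 1) * (E (2 * t))⁻¹ := by group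
      _ = ((c' * d⁻¹) * E (2 * t) * (c' * d⁻¹)⁻¹) *
          ((c' * d⁻¹) * E (2 * (f + 2 * m) + 1) * (c' * d⁻¹)⁻¹)⁻¹ *
          E (2 * (f + 2 * m) + 1) * (E (2 * t))⁻¹ := by rw [h3]
      _ = _ := by group
  rw [key]
  exact mul_mem (mul_mem (mul_mem hS (inv_mem h1)) (inv_mem hS)) h1

/-- all the differences are known, so one gets the twists themselves -/
theorem Core.step4 (h : Core E A L x Θ f m n) (hx : x ∈ H)
    (hQ : cc E A m (f + m) * (cc E A m f)⁻¹ ∈ H)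
    (h1 : E (2 * (f + 2 * m) + 1) * (E (2 * (f + 2 * m) + 2))⁻¹ ∈ H) :
    (∀ s, 2 * (f + 2 * m) + 1 ≤ s → s + 2 ≤ 2 * (f + 3 * m) → E s ∈ H) ∧
    A (f + 2 * m + 1) ∈ H ∧ A (f + 2 * m + 2) ∈ H := by
  have hm := h.hm
  have hn := h.hn
  have hL := h.hL
  have hc := h.hc
  obtain ⟨p, hp⟩ : ∃ p, p = f + 2 * m := ⟨_, rfl⟩
  rw [← hp] at h1 ⊢
  have hdiff : ∀ i j, i + j + 3 ≤ 2 * m → E (2 * p + 1 + i) * (E (2 * p + 1 + i + j))⁻¹ ∈ H := by
    intro i j hij
    have := h.step2' hQ (by rw [← hp]; exact h1) i j hij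
    rwa [← hp] at this
  have hA : ∀ t, t = p + 1 ∨ t = p + 2 → (E (2 * t))⁻¹ * A t ∈ H := by
    intro t ht
    apply h.step3 hx hQ t (by omega)
    rw [← hp]
    rcases ht with rfl | rfl
    · exact hdiff 0 1 (by omega)
    · exact hdiff 0 3 (by omega)
  set e := E (2 * p + 8) with he
  have rE : ∀ s, 2 * p + 2 ≤ s → s ≤ 2 * p + 6 → RelExp H e (E s) 1 := by
    intro s h2 h3
    refine ⟨?_, hc.cm _ _ (by omega)⟩
    have := hdiff (s - (2 * p + 1)) (2 * p + 8 - s) (by omega)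
    rw [show 2 * p + 1 + (s - (2 * p + 1)) = s by omega, show s + (2 * p + 8 - s) = 2 * p + 8 by
      omega] at this
    rw [pow_one]; exact this
  have rA : ∀ t, t = p + 1 ∨ t = p + 2 → RelExp H e (A t) 1 := by
    intro t ht
    refine ⟨?_, hc.acm _ _ (by omega)⟩
    have e1 := (rE (2 * t) (by omega) (by omega)).1
    have e2 := hA t ht
    have e3 : Commute (A t) e := hc.acm _ _ (by omega)
    have e4 : Commute (E (2 * t)) e := hc.cm _ _ (by omega)
    rw [pow_one] at e1 ⊢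
    have : A t * e⁻¹ = (E (2 * t) * e⁻¹) * ((E (2 * t))⁻¹ * A t) := by
      rw [(e3.inv_right).eq, (e4.inv_right).eq]; group
    rw [this]
    exact mul_mem e1 e2
  have ra1 := rA (p + 1) (Or.inl rfl)
  have ra2 := rA (p + 2) (Or.inr rfl)
  have r2 := rE (2 * (p + 1)) (by omega) (by omega)
  have r3 := rE (2 * (p + 1) + 1) (by omega) (by omega)
  have r4 := rE (2 * (p + 1) + 2) (by omega) (by omega)
  have r5 := rE (2 * (p + 1) + 3) (by omega) (by omega)
  have r6 := rE (2 * (p + 1) + 4) (by omega) (by omega)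
  have heH : e ∈ H := by
    have w1 := (((ra1.mul r2).mul r3).mul r4).pow 10
    have w2 := ((((ra1.mul r2).mul r3).mul r4).mul ra2).pow 6
    have w3 := ((((((ra2.mul ra1).mul r2).mul r3).mul r4).mul r5).mul r6).pow 9
    have w4 := (((((ra2.mul r2).mul r3).mul r4).mul r5).mul r6).pow 12
    have relA := hc.ra (p + 1) (by omega)
    have relB := hc.rb (p + 1) (by omega)
    rw [relA] at w1
    rw [← relB] at w4
    have z1 : e ^ 10 ∈ H := RelExp.diff (n := 10) (m := 30) w1 w2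
    have z2 : e ^ 9 ∈ H := RelExp.diff (n := 9) (m := 63) w4 w3
    exact mem_of_pows z1 z2
  have hE1 : E (2 * p + 1) ∈ H := by
    have := hdiff 0 7 (by omega)
    simp only [add_zero] at this
    have h2 : E (2 * p + 1) = (E (2 * p + 1) * (E (2 * p + 1 + 7))⁻¹) * e := by
      rw [he]; group
    rw [h2]
    exact mul_mem this heH
  have hE : ∀ s, 2 * p + 1 ≤ s → s + 2 ≤ 2 * (f + 3 * m) → E s ∈ H := by
    intro s h2 h3
    have := hdiff 0 (s - (2 * p + 1)) (by omega)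
    rw [add_zero, show 2 * p + 1 + (s - (2 * p + 1)) = s by omega] at this
    have h4 : E s = (E (2 * p + 1) * (E s)⁻¹)⁻¹ * E (2 * p + 1) := by group
    rw [h4]
    exact mul_mem (inv_mem this) hE1
  refine ⟨hE, ?_, ?_⟩
  · have h2 : A (p + 1) = E (2 * (p + 1)) * ((E (2 * (p + 1)))⁻¹ * A (p + 1)) := by group
    rw [h2]
    exact mul_mem (hE _ (by omega) (by omega)) (hA _ (Or.inl rfl))
  · have h2 : A (p + 2) = E (2 * (p + 2)) * ((E (2 * (p + 2)))⁻¹ * A (p + 2)) := by group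
    rw [h2]
    exact mul_mem (hE _ (by omega) (by omega)) (hA _ (Or.inr rfl))

theorem Core.step5 (h : Core E A L x Θ f m n)
    (hQ : cc E A m (f + m) * (cc E A m f)⁻¹ ∈ H)
    (hE : ∀ s, 2 * (f + 2 * m) + 1 ≤ s → s + 2 ≤ 2 * (f + 3 * m) → E s ∈ H) :
    E (2 * (f + 2 * m)) ∈ H := by
  have hm := h.hm
  have hn := h.hn
  have hL := h.hL
  have hc := h.hc
  set c := cc E A m (f + m) with hcdef
  set d := cc E A m f with hddef
  set p := 2 * (f + 2 * m) with hp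
  set D := Dp E (p + 1) (2 * m - 2) with hD
  have hDH : D ∈ H := Dp_mem E H _ _ (fun t h1 h2 => hE t h1 (by omega))
  set w := D⁻¹ * E (p + 1) * D with hw
  have hwH : w ∈ H := mul_mem (mul_mem (inv_mem hDH) (hE _ (by omega) (by omega))) hDH
  have hcomm : ∀ u : G, (∀ s, p + 1 ≤ s → s + 2 ≤ 2 * (f + 3 * m) → Commute u (E s)) →
      Commute u w := by
    intro u hu
    have e1 : Commute u D := Dp_comm E u _ _ (fun t h1 h2 => hu t h1 (by omega))
    exact (e1.inv_right.mul_right (hu _ (by omega) (by omega))).mul_right e1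
  have hdw : Commute d w := hcomm d (fun s h1 h2 => (cc_comm_E hc (by omega) (by omega)).symm)
  have hlw : Commute (E (p - 1) * (A (f + m + 1) * A (f + m + 2))) w := by
    refine (hcomm _ (fun s h1 h2 => hc.cm _ _ (by omega))).mul_left
      ((hcomm _ (fun s h1 h2 => hc.acm _ _ (by omega))).mul_left
      (hcomm _ (fun s h1 h2 => hc.acm _ _ (by omega))))
  have hc2 : c = E p * D * (E (p - 1) * (A (f + m + 1) * A (f + m + 2))) := by
    have e1 : Dp E p (2 * m - 1) = E p * D := by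
      rw [hD, ← Dp_succ', show 2 * m - 2 + 1 = 2 * m - 1 by omega]
    rw [hcdef, cc, show 2 * (f + m + m) = p by omega, e1]
    simp only [mul_assoc]
  have e1 : (c * d⁻¹) * w * (c * d⁻¹)⁻¹ = (E (p + 1))⁻¹ * E p * E (p + 1) := by
    calc (c * d⁻¹) * w * (c * d⁻¹)⁻¹ = c * d⁻¹ * (w * d) * c⁻¹ := by group
      _ = c * d⁻¹ * (d * w) * c⁻¹ := by rw [hdw.eq]
      _ = c * w * c⁻¹ := by group
      _ = E p * D * ((E (p - 1) * (A (f + m + 1) * A (f + m + 2))) * w) *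
          (E (p - 1) * (A (f + m + 1) * A (f + m + 2)))⁻¹ * (E p * D)⁻¹ := by
          rw [hc2]; group
      _ = E p * D * (w * (E (p - 1) * (A (f + m + 1) * A (f + m + 2)))) *
          (E (p - 1) * (A (f + m + 1) * A (f + m + 2)))⁻¹ * (E p * D)⁻¹ := by
          rw [hlw.eq]
      _ = E p * D * w * (E p * D)⁻¹ := by group
      _ = E p * E (p + 1) * (E p)⁻¹ := by rw [hw]; group
      _ = _ := braid_conj (hc.br p (by omega))
  have e2 : (E (p + 1))⁻¹ * E p * E (p + 1) ∈ H := by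
    rw [← e1]; exact mul_mem (mul_mem hQ hwH) (inv_mem hQ)
  have e3 : E p = E (p + 1) * ((E (p + 1))⁻¹ * E p * E (p + 1)) * (E (p + 1))⁻¹ := by group
  have e4 : E (p + 1) ∈ H := hE _ (by omega) (by omega)
  rw [e3]
  exact mul_mem (mul_mem e4 e2) (inv_mem e4)

theorem mem_of_conj_eq {u v x : G} (hx : x ∈ H) (h : x * u = v * x) (hv : v ∈ H) : u ∈ H := by
  have : u = x⁻¹ * v * x := by rw [mul_assoc, ← h]; group
  rw [this]; exact mul_mem (mul_mem (inv_mem hx) hv) hx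

theorem mem_of_conj_eq' {u v x : G} (hx : x ∈ H) (h : x * u = v * x) (hu : u ∈ H) : v ∈ H := by
  have : v = x * u * x⁻¹ := by rw [h]; group
  rw [this]; exact mul_mem (mul_mem hx hu) (inv_mem hx)

/-- if `u` and `e` braid, `e ∈ H` and `u e u⁻¹ ∈ H` then `u ∈ H` -/
theorem mem_of_braid {u e : G} (hb : u * e * u = e * u * e) (he : e ∈ H)
    (h : u * e * u⁻¹ ∈ H) : u ∈ H := by
  rw [braid_conj hb] at h
  have : u = e * (e⁻¹ * u * e) * e⁻¹ := by group
  rw [this]; exact mul_mem (mul_mem he h) (inv_mem he)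

theorem Core.step6 (h : Core E A L x Θ f m n) (hx : x ∈ H)
    (hQ : cc E A m (f + m) * (cc E A m f)⁻¹ ∈ H)
    (hE : ∀ s, 2 * (f + 2 * m) ≤ s → s + 2 ≤ 2 * (f + 3 * m) → E s ∈ H)
    (hA1 : A (f + 2 * m + 1) ∈ H) (hA2 : A (f + 2 * m + 2) ∈ H) :
    E (2 * (f + 2 * m) - 1) ∈ H := by
  have hm := h.hm
  have hn := h.hn
  have hL := h.hL
  have hc := h.hc
  have hE1 : ∀ s, 2 * (f + m) ≤ s → s + 2 ≤ 2 * (f + 2 * m) → E s ∈ H := by
    intro s h1 h2
    exact mem_of_conj_eq hx (h.xE s (by omega) (by omega)) (hE _ (by omega) (by omega))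
  have hA11 : A (f + m + 1) ∈ H := by
    refine mem_of_conj_eq hx (h.xA _ (by omega) (by omega)) ?_
    rwa [show f + m + 1 + m = f + 2 * m + 1 by ring]
  have hA12 : A (f + m + 2) ∈ H := by
    refine mem_of_conj_eq hx (h.xA _ (by omega) (by omega)) ?_
    rwa [show f + m + 2 + m = f + 2 * m + 2 by ring]
  have hA01 : A (f + 1) ∈ H := by
    refine mem_of_conj_eq hx (h.xA _ (by omega) (by omega)) ?_
    rwa [show f + 1 + m = f + m + 1 by ring]
  have hA02 : A (f + 2) ∈ H := by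
    refine mem_of_conj_eq hx (h.xA _ (by omega) (by omega)) ?_
    rwa [show f + 2 + m = f + m + 2 by ring]
  have hD2 : Dp E (2 * (f + m + m)) (2 * m - 1) ∈ H :=
    Dp_mem E H _ _ (fun t h1 h2 => hE t (by omega) (by omega))
  have hD1 : Dp E (2 * (f + m)) (2 * m - 1) ∈ H :=
    Dp_mem E H _ _ (fun t h1 h2 => hE1 t (by omega) (by omega))
  rw [cc, cc] at hQ
  set l2 := E (2 * (f + m + m) - 1) with hl2
  set l1 := E (2 * (f + m) - 1) with hl1
  have hc1 : Commute (A (f + 1) * A (f + 2)) l1 :=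
    (hc.acm _ _ (by omega)).mul_left (hc.acm _ _ (by omega))
  have hc2 : Commute (A (f + m + 1) * A (f + m + 2)) l1 :=
    (hc.acm _ _ (by omega)).mul_left (hc.acm _ _ (by omega))
  -- l2 * l1⁻¹ ∈ H
  have k1 : l2 * l1⁻¹ ∈ H := by
    have hh : Commute ((A (f + m + 1) * A (f + m + 2)) * (A (f + 1) * A (f + 2))⁻¹) l1 :=
      hc2.mul_left hc1.inv_left
    have : l2 * l1⁻¹ = (Dp E (2 * (f + m + m)) (2 * m - 1))⁻¹ *
        (Dp E (2 * (f + m + m)) (2 * m - 1) * l2 * (A (f + m + 1) * A (f + m + 2)) *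
        (Dp E (2 * (f + m)) (2 * m - 1) * l1 * (A (f + 1) * A (f + 2)))⁻¹) *
        Dp E (2 * (f + m)) (2 * m - 1) *
        ((A (f + m + 1) * A (f + m + 2)) * (A (f + 1) * A (f + 2))⁻¹)⁻¹ := by
      have e1 : l1⁻¹ * ((A (f + m + 1) * A (f + m + 2)) * (A (f + 1) * A (f + 2))⁻¹)⁻¹ =
        ((A (f + m + 1) * A (f + m + 2)) * (A (f + 1) * A (f + 2))⁻¹)⁻¹ * l1⁻¹ :=
        (hh.inv_inv.eq).symm
      calc l2 * l1⁻¹ = l2 * ((A (f + m + 1) * A (f + m + 2)) * (A (f + 1) * A (f + 2))⁻¹) *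
            (((A (f + m + 1) * A (f + m + 2)) * (A (f + 1) * A (f + 2))⁻¹)⁻¹ * l1⁻¹) := by group
        _ = l2 * ((A (f + m + 1) * A (f + m + 2)) * (A (f + 1) * A (f + 2))⁻¹) *
            (l1⁻¹ * ((A (f + m + 1) * A (f + m + 2)) * (A (f + 1) * A (f + 2))⁻¹)⁻¹) := by
            rw [e1]
        _ = _ := by group
    rw [this]
    exact mul_mem (mul_mem (mul_mem (inv_mem hD2) hQ) hD1)
      (inv_mem (mul_mem (mul_mem hA11 hA12) (inv_mem (mul_mem hA01 hA02))))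
  have he : E (2 * (f + 2 * m)) ∈ H := hE _ (by omega) (by omega)
  set e := E (2 * (f + 2 * m)) with hedef
  have hl2' : l2 = E (2 * (f + 2 * m) - 1) := by rw [hl2]; congr 1; omega
  rw [← hl2']
  have hb : l2 * e * l2 = e * l2 * e := by
    have := hc.br (2 * (f + 2 * m) - 1) (by omega)
    rw [show 2 * (f + 2 * m) - 1 + 1 = 2 * (f + 2 * m) by omega, ← hl2'] at this
    exact this
  have he1 : Commute e l1 := (hc.cm _ _ (by omega)).symm
  have k2 : l2⁻¹ * e ∈ H := by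
    have : l2⁻¹ * e = e * (l2 * l1⁻¹) * e⁻¹ * (l2 * l1⁻¹)⁻¹ := by
      have e1 : l1⁻¹ * e⁻¹ = e⁻¹ * l1⁻¹ := he1.inv_inv.eq.symm
      have e2 : e * l2 * e⁻¹ = l2⁻¹ * e * l2 := braid_conj hb.symm
      calc l2⁻¹ * e = (l2⁻¹ * e * l2) * l2⁻¹ := by group
        _ = (e * l2 * e⁻¹) * l2⁻¹ := by rw [e2]
        _ = e * l2 * (e⁻¹ * l1⁻¹) * (l2 * l1⁻¹)⁻¹ := by group
        _ = e * l2 * (l1⁻¹ * e⁻¹) * (l2 * l1⁻¹)⁻¹ := by rw [e1]
        _ = _ := by group
    rw [this]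
    exact mul_mem (mul_mem (mul_mem he k1) (inv_mem he)) (inv_mem k1)
  have : l2 = e * (l2⁻¹ * e)⁻¹ := by group
  rw [this]
  exact mul_mem he (inv_mem k2)

/-- Conclusion of the core argument. -/
theorem Core.main (h : Core E A L x Θ f m n) (hx : x ∈ H)
    (hy : ya E x Θ f m * x * (ya E x Θ f m)⁻¹ ∈ H)
    (hz : cc E A m (f + m) * x * (cc E A m (f + m))⁻¹ ∈ H) :
    (∀ s, 2 * f ≤ s → s + 2 ≤ 2 * (f + n) → E s ∈ H) ∧
    A (f + 2 * m + 1) ∈ H ∧ A (f + 2 * m + 2) ∈ H ∧ (x⁻¹ * Θ * x) * Θ⁻¹ ∈ H := by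
  have hm := h.hm
  have hn := h.hn
  have hL := h.hL
  have hc := h.hc
  obtain ⟨hQ, hP, h1⟩ := h.step1 hx hy hz
  obtain ⟨hE, hA1, hA2⟩ := h.step4 hx hQ h1
  have hE0 := h.step5 hQ hE
  have hE' : ∀ s, 2 * (f + 2 * m) ≤ s → s + 2 ≤ 2 * (f + 3 * m) → E s ∈ H := by
    intro s h2 h3
    rcases h2.eq_or_lt with h4 | h4
    · rw [← h4]; exact hE0
    · exact hE s (by omega) h3
  have hl := h.step6 hx hQ hE' hA1 hA2
  have hlow : ∀ j s, s + j = 2 * (f + 3 * m) - 2 → 2 * f ≤ s → E s ∈ H := by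
    intro j
    induction j using Nat.strong_induction_on with
    | _ j ih =>
      intro s h2 h3
      by_cases h4 : 2 * (f + 2 * m) ≤ s
      · exact hE' s h4 (by omega)
      · by_cases h5 : s = 2 * (f + 2 * m) - 1
        · rw [h5]; exact hl
        · exact mem_of_conj_eq hx (h.xE s h3 (by omega))
            (ih (j - 2 * m) (by omega) (s + 2 * m) (by omega) (by omega))
  have hhigh : ∀ s, 2 * f ≤ s → s + 2 ≤ 2 * (f + n) → E s ∈ H := by
    intro s
    induction s using Nat.strong_induction_on with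
    | _ s ih =>
      intro h2 h3
      by_cases h4 : s ≤ 2 * (f + 3 * m) - 2
      · exact hlow (2 * (f + 3 * m) - 2 - s) s (by omega) h2
      · have h5 := ih (s - 2 * m) (by omega) (by omega) (by omega)
        have h6 := h.xE (s - 2 * m) (by omega) (by omega)
        rw [show s - 2 * m + 2 * m = s by omega] at h6
        exact mem_of_conj_eq' hx h6 h5
  refine ⟨hhigh, hA1, hA2, ?_⟩
  have h2 : (x⁻¹ * Θ * x) * Θ⁻¹ = (E (2 * (f + 2 * m) + 1))⁻¹ *
      (ya E x Θ f m * (E (2 * (f + 3 * m) + 1) * Θ)⁻¹) * E (2 * (f + 3 * m) + 1) := by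
    rw [ya]; group
  rw [h2]
  exact mul_mem (mul_mem (inv_mem (hhigh _ (by omega) (by omega))) hP)
    (hhigh _ (by omega) (by omega))

end

end Pool.Agent.H808
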