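import Pool.Agent.H808.Supp

namespace Pool.Agent.H808

variable {g : ℕ}

/-- Value of a letter: `4s ↦ a_{o+s}`, `4s+1 ↦ a_{o+s}⁻¹`, `4s+2 ↦ b_{o+s}`, `4s+3 ↦ b_{o+s}⁻¹`. -/
def ev1 (g o n : ℕ) : SurfaceGroup g :=
  if n % 2 = 0 then gn g (o + n / 4) (decide (2 ≤ n % 4))
  else (gn g (o + n / 4) (decide (2 ≤ n % 4)))⁻¹

/-- Value of a word. -/
def ev (g o : ℕ) (l : List ℕ) : SurfaceGroup g := (l.map (ev1 g o)).prod

theorem ev_nil (o : ℕ) : ev g o [] = 1 := rfl

theorem ev_cons (o n : ℕ) (l : List ℕ) : ev g o (n :: l) = ev1 g o n * ev g o l := by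
  simp [ev]

theorem ev_append (o : ℕ) (l l' : List ℕ) : ev g o (l ++ l') = ev g o l * ev g o l' := by
  simp [ev]

/-- inverse letter -/
def invL (n : ℕ) : ℕ := if n % 2 = 0 then n + 1 else n - 1

theorem ev1_invL (o n : ℕ) : ev1 g o (invL n) = (ev1 g o n)⁻¹ := by
  unfold ev1 invL
  by_cases h : n % 2 = 0
  · rw [if_pos h, if_pos h, if_neg (by omega), show (n + 1) / 4 = n / 4 by omega]
    congr 2
    simp only [decide_eq_decide]
    omega
  · rw [if_neg h, if_neg h, if_pos (by omega), show (n - 1) / 4 = n / 4 by omega, inv_inv]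
    congr 1
    simp only [decide_eq_decide]
    omega

/-- reduced cons -/
def cons1 (x : ℕ) : List ℕ → List ℕ
  | [] => [x]
  | y :: t => if Nat.beq y (invL x) then t else x :: y :: t

theorem ev_cons1 (o x : ℕ) (l : List ℕ) : ev g o (cons1 x l) = ev1 g o x * ev g o l := by
  cases l with
  | nil => simp [cons1, ev]
  | cons y t =>
    by_cases h : y = invL x
    · have : cons1 x (y :: t) = t := by simp [cons1, h]
      rw [this, ev_cons, h, ev1_invL, mul_inv_cancel_left]
    · have : cons1 x (y :: t) = x :: y :: t := by simp [cons1, h]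
      rw [this, ev_cons]

/-- product of words with cancellation -/
def mulW (u v : List ℕ) : List ℕ := u.foldr cons1 v

theorem ev_mulW (o : ℕ) (u v : List ℕ) : ev g o (mulW u v) = ev g o u * ev g o v := by
  induction u with
  | nil => simp [mulW, ev_nil]
  | cons x u ih =>
    have : mulW (x :: u) v = cons1 x (mulW u v) := rfl
    rw [this, ev_cons1, ih, ev_cons, mul_assoc]

/-- substitution on letters -/
def img : Tw → Bool → ℕ → List ℕ
  | .A i, false, n => if n = 4*i+2 then [4*i+2, 4*i] else if n = 4*i+3 then [4*i+1, 4*i+3] else [n]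
  | .A i, true, n => if n = 4*i+2 then [4*i+2, 4*i+1] else if n = 4*i+3 then [4*i, 4*i+3] else [n]
  | .B i, false, n => if n = 4*i then [4*i, 4*i+3] else if n = 4*i+1 then [4*i+2, 4*i+1] else [n]
  | .B i, true, n => if n = 4*i then [4*i, 4*i+2] else if n = 4*i+1 then [4*i+3, 4*i+1] else [n]
  | .C i, false, n =>
    if n = 4*i+2 then [4*i+5, 4*i+2, 4*i, 4*i+3, 4*i+2]
    else if n = 4*i+3 then [4*i+3, 4*i+2, 4*i+1, 4*i+3, 4*i+4]
    else if n = 4*i+4 then [4*i+5, 4*i+2, 4*i, 4*i+3, 4*i+4, 4*i+2, 4*i+1, 4*i+3, 4*i+4]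
    else if n = 4*i+5 then [4*i+5, 4*i+2, 4*i, 4*i+3, 4*i+5, 4*i+2, 4*i+1, 4*i+3, 4*i+4]
    else if n = 4*i+6 then [4*i+6, 4*i+2, 4*i+1, 4*i+3, 4*i+4]
    else if n = 4*i+7 then [4*i+5, 4*i+2, 4*i, 4*i+3, 4*i+7]
    else [n]
  | .C i, true, n =>
    if n = 4*i+2 then [4*i+2, 4*i+1, 4*i+3, 4*i+4, 4*i+2]
    else if n = 4*i+3 then [4*i+3, 4*i+5, 4*i+2, 4*i, 4*i+3]
    else if n = 4*i+4 then [4*i+2, 4*i+1, 4*i+3, 4*i+4, 4*i+4, 4*i+5, 4*i+2, 4*i, 4*i+3]
    else if n = 4*i+5 then [4*i+2, 4*i+1, 4*i+3, 4*i+4, 4*i+5, 4*i+5, 4*i+2, 4*i, 4*i+3]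
    else if n = 4*i+6 then [4*i+6, 4*i+5, 4*i+2, 4*i, 4*i+3]
    else if n = 4*i+7 then [4*i+2, 4*i+1, 4*i+3, 4*i+4, 4*i+7]
    else [n]

/-- shift of a twist name -/
def Tw.shift (o : ℕ) : Tw → Tw
  | .A t => .A (o + t)
  | .B t => .B (o + t)
  | .C t => .C (o + t)

theorem ev1_0 (o s : ℕ) : ev1 g o (4*s) = gn g (o+s) false := by
  unfold ev1
  rw [if_pos (by omega), show 4*s/4 = s by omega]
  congr 1
  simp

theorem ev1_1 (o s : ℕ) : ev1 g o (4*s+1) = (gn g (o+s) false)⁻¹ := by
  unfold ev1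
  rw [if_neg (by omega), show (4*s+1)/4 = s by omega]
  congr 2
  simp

theorem ev1_2 (o s : ℕ) : ev1 g o (4*s+2) = gn g (o+s) true := by
  unfold ev1
  rw [if_pos (by omega), show (4*s+2)/4 = s by omega]
  congr 1
  simp

theorem ev1_3 (o s : ℕ) : ev1 g o (4*s+3) = (gn g (o+s) true)⁻¹ := by
  unfold ev1
  rw [if_neg (by omega), show (4*s+3)/4 = s by omega]
  congr 2
  simp

theorem ev1_4 (o s : ℕ) : ev1 g o (4*s+4) = gn g (o+s+1) false := by
  rw [show 4*s+4 = 4*(s+1) by ring, ev1_0, add_assoc]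

theorem ev1_5 (o s : ℕ) : ev1 g o (4*s+5) = (gn g (o+s+1) false)⁻¹ := by
  rw [show 4*s+5 = 4*(s+1)+1 by ring, ev1_1, add_assoc]

theorem ev1_6 (o s : ℕ) : ev1 g o (4*s+6) = gn g (o+s+1) true := by
  rw [show 4*s+6 = 4*(s+1)+2 by ring, ev1_2, add_assoc]

theorem ev1_7 (o s : ℕ) : ev1 g o (4*s+7) = (gn g (o+s+1) true)⁻¹ := by
  rw [show 4*s+7 = 4*(s+1)+3 by ring, ev1_3, add_assoc]

theorem img_sound_A (i : ℕ) (e : Bool) (o n : ℕ) :
    twe g (.A (o + i), e) (ev1 g o n) = ev g o (img (.A i) e n) := by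
  obtain ⟨s, r, hr, rfl⟩ : ∃ s r, r < 4 ∧ n = 4 * s + r := ⟨n / 4, n % 4, by omega, by omega⟩
  by_cases hs : s = i
  · subst hs
    interval_cases r <;> cases e <;>
      simp [img, ev_cons, ev_nil, ev1_0, ev1_1, ev1_2, ev1_3, twe_gn, sub]
  · have h1 : ∀ a b, a < 4 → b < 4 → 4 * s + a ≠ 4 * i + b := by intro a b ha hb; omega
    have h2 : img (.A i) e (4*s+r) = [4*s+r] := by
      cases e <;> simp [img, h1 r 2 hr (by omega), h1 r 3 hr (by omega)]
    rw [h2, ev_cons, ev_nil, mul_one]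
    have h3 : ∀ c, twe g (.A (o + i), e) (gn g (o+s) c) = gn g (o+s) c := by
      intro c
      rw [twe_gn, sub_of_not]
      simp only [Tw.lo, Tw.len]; omega
    interval_cases r
    · rw [add_zero, ev1_0, h3]
    · rw [ev1_1, map_inv, h3]
    · rw [ev1_2, h3]
    · rw [ev1_3, map_inv, h3]

theorem img_sound_B (i : ℕ) (e : Bool) (o n : ℕ) :
    twe g (.B (o + i), e) (ev1 g o n) = ev g o (img (.B i) e n) := by
  obtain ⟨s, r, hr, rfl⟩ : ∃ s r, r < 4 ∧ n = 4 * s + r := ⟨n / 4, n % 4, by omega, by omega⟩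
  by_cases hs : s = i
  · subst hs
    interval_cases r <;> cases e <;>
      simp [img, ev_cons, ev_nil, ev1_0, ev1_1, ev1_2, ev1_3, twe_gn, sub]
  · have h1 : ∀ a b, a < 4 → b < 4 → 4 * s + a ≠ 4 * i + b := by intro a b ha hb; omega
    have h2 : img (.B i) e (4*s+r) = [4*s+r] := by
      cases e
      · rw [img, if_neg (by omega), if_neg (by omega)]
      · rw [img, if_neg (by omega), if_neg (by omega)]
    rw [h2, ev_cons, ev_nil, mul_one]
    have h3 : ∀ c, twe g (.B (o + i), e) (gn g (o+s) c) = gn g (o+s) c := by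
      intro c
      rw [twe_gn, sub_of_not]
      simp only [Tw.lo, Tw.len]; omega
    interval_cases r
    · rw [add_zero, ev1_0, h3]
    · rw [ev1_1, map_inv, h3]
    · rw [ev1_2, h3]
    · rw [ev1_3, map_inv, h3]

theorem img_sound_C (i : ℕ) (e : Bool) (o n : ℕ) (h : o + i + 1 < g) :
    twe g (.C (o + i), e) (ev1 g o n) = ev g o (img (.C i) e n) := by
  obtain ⟨s, r, hr, rfl⟩ : ∃ s r, r < 4 ∧ n = 4 * s + r := ⟨n / 4, n % 4, by omega, by omega⟩
  by_cases hs : s = i
  · subst hs
    interval_cases r <;> cases e <;>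
      simp [img, ev_cons, ev_nil, ev1_0, ev1_1, ev1_2, ev1_3, ev1_4, ev1_5, ev1_6, ev1_7,
        twe_gn, sub, h, dc, mul_assoc]
  · by_cases hs' : s = i + 1
    · subst hs'
      interval_cases r <;> cases e <;>
        simp [img, ev_cons, ev_nil, ev1_0, ev1_1, ev1_2, ev1_3, ev1_4, ev1_5, ev1_6, ev1_7,
          twe_gn, sub, h, dc, mul_assoc, mul_add, ← add_assoc]
    · have h2 : img (.C i) e (4*s+r) = [4*s+r] := by
        cases e
        · rw [img]
          rw [if_neg (by omega), if_neg (by omega), if_neg (by omega), if_neg (by omega),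
            if_neg (by omega), if_neg (by omega)]
        · rw [img]
          rw [if_neg (by omega), if_neg (by omega), if_neg (by omega), if_neg (by omega),
            if_neg (by omega), if_neg (by omega)]
      rw [h2, ev_cons, ev_nil, mul_one]
      have h3 : ∀ c, twe g (.C (o + i), e) (gn g (o+s) c) = gn g (o+s) c := by
        intro c
        rw [twe_gn, sub_of_not]
        simp only [Tw.lo, Tw.len]; omega
      interval_cases r
      · rw [add_zero, ev1_0, h3]
      · rw [ev1_1, map_inv, h3]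
      · rw [ev1_2, h3]
      · rw [ev1_3, map_inv, h3]

/-- Does the twist live on handles `[0, n)`? -/
def Tw.valid (n : ℕ) (T : Tw) : Prop := T.lo + T.len ≤ n

theorem img_sound (T : Tw) (e : Bool) (o k n : ℕ) (hT : T.valid n) (ho : o + n ≤ g) :
    twe g (T.shift o, e) (ev1 g o k) = ev g o (img T e k) := by
  cases T with
  | A i => exact img_sound_A i e o k
  | B i => exact img_sound_B i e o k
  | C i =>
    simp only [Tw.valid, Tw.lo, Tw.len] at hT
    exact img_sound_C i e o k (by omega)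

/-- substitution on words -/
def subW (T : Tw) (e : Bool) (l : List ℕ) : List ℕ :=
  l.foldr (fun k acc => mulW (img T e k) acc) []

theorem subW_sound (T : Tw) (e : Bool) (o n : ℕ) (hT : T.valid n) (ho : o + n ≤ g) (l : List ℕ) :
    twe g (T.shift o, e) (ev g o l) = ev g o (subW T e l) := by
  induction l with
  | nil => simp [ev_nil, subW]
  | cons k l ih =>
    have : subW T e (k :: l) = mulW (img T e k) (subW T e l) := rfl
    rw [this, ev_mulW, ev_cons, map_mul, ih, img_sound T e o k n hT ho]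

/-- words in the twists -/
abbrev TWord := List (Tw × Bool)

/-- action of a word of twists on a word -/
def act (W : TWord) (l : List ℕ) : List ℕ := W.foldr (fun p acc => subW p.1 p.2 acc) l

/-- the product of the twists of a word, shifted by `o` -/
def prodW (g o : ℕ) (W : TWord) : MulAut (SurfaceGroup g) :=
  (W.map fun p => twe g (p.1.shift o, p.2)).prod

theorem prodW_nil (o : ℕ) : prodW g o [] = 1 := rfl

theorem prodW_cons (o : ℕ) (p : Tw × Bool) (W : TWord) :
    prodW g o (p :: W) = twe g (p.1.shift o, p.2) * prodW g o W := by simp [prodW]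

theorem prodW_append (o : ℕ) (W W' : TWord) :
    prodW g o (W ++ W') = prodW g o W * prodW g o W' := by simp [prodW]

/-- all the twists of the word live on handles `[0, n)` -/
def validW (n : ℕ) (W : TWord) : Prop := ∀ p ∈ W, p.1.valid n

instance (n : ℕ) (T : Tw) : Decidable (T.valid n) := by unfold Tw.valid; infer_instance

instance (n : ℕ) (W : TWord) : Decidable (validW n W) := by unfold validW; infer_instance

theorem act_sound (W : TWord) (o n : ℕ) (hW : validW n W) (ho : o + n ≤ g) (l : List ℕ) :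
    prodW g o W (ev g o l) = ev g o (act W l) := by
  induction W with
  | nil => rfl
  | cons p W ih =>
    have : act (p :: W) l = subW p.1 p.2 (act W l) := rfl
    rw [this, prodW_cons, MulAut.mul_apply, ih (fun q hq => hW q (List.mem_cons_of_mem _ hq)),
      subW_sound p.1 p.2 o n (hW p List.mem_cons_self) ho]

theorem Tw.shift_lo (T : Tw) (o : ℕ) : (T.shift o).lo = o + T.lo := by cases T <;> rfl

theorem Tw.shift_len (T : Tw) (o : ℕ) : (T.shift o).len = T.len := by cases T <;> rfl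

theorem prodW_mem_SupG (W : TWord) (o n : ℕ) (hW : validW n W) : prodW g o W ∈ SupG g o n := by
  induction W with
  | nil => exact one_mem _
  | cons p W ih =>
    rw [prodW_cons]
    refine mul_mem ?_ (ih (fun q hq => hW q (List.mem_cons_of_mem _ hq)))
    have h1 : p.1.lo + p.1.len ≤ n := hW p List.mem_cons_self
    refine SupG_mono ?_ ?_ (twe_mem_SupG (p.1.shift o) p.2)
    · rw [Tw.shift_lo]; omega
    · rw [Tw.shift_lo, Tw.shift_len]; omega

theorem prodW_mem_TwG (W : TWord) (o : ℕ) : prodW g o W ∈ TwG g := by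
  induction W with
  | nil => exact one_mem _
  | cons p W ih =>
    rw [prodW_cons]
    exact mul_mem (twe_mem_TwG _) ih

/-- Comparison of two words of twists on the generators of the first `n` handles. -/
def checkRel (n : ℕ) (W W' : TWord) : Bool :=
  (List.range n).all fun s => (act W [4*s] == act W' [4*s]) && (act W [4*s+2] == act W' [4*s+2])

theorem rel_of_check (n : ℕ) (W W' : TWord) (hW : validW n W) (hW' : validW n W')
    (hc : checkRel n W W' = true) (o : ℕ) (ho : o + n ≤ g) : prodW g o W = prodW g o W' := by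
  apply aut_ext_gn
  intro s c hs
  by_cases h : o ≤ s ∧ s < o + n
  · obtain ⟨t, rfl⟩ : ∃ t, s = o + t := ⟨s - o, by omega⟩
    have ht : t < n := by omega
    simp only [checkRel, List.all_eq_true, List.mem_range, Bool.and_eq_true, beq_iff_eq] at hc
    have h1 := hc t ht
    cases c
    · have e1 : gn g (o + t) false = ev g o [4*t] := by rw [ev_cons, ev_nil, ev1_0, mul_one]
      rw [e1, act_sound W o n hW ho, act_sound W' o n hW' ho, h1.1]
    · have e1 : gn g (o + t) true = ev g o [4*t+2] := by rw [ev_cons, ev_nil, ev1_2, mul_one]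
      rw [e1, act_sound W o n hW ho, act_sound W' o n hW' ho, h1.2]
  · rw [SupG_fix_gn (prodW_mem_SupG W o n hW) c (by omega),
      SupG_fix_gn (prodW_mem_SupG W' o n hW') c (by omega)]

/-- the boundary word of the first `n` handles -/
def zetaW (n : ℕ) : List ℕ := (List.range n).flatMap fun s => [4*s, 4*s+2, 4*s+1, 4*s+3]

/-- the inverse of the boundary word -/
def zetaWi (n : ℕ) : List ℕ := (zetaW n).reverse.map invL

theorem ev_reverse_invL (o : ℕ) (l : List ℕ) : ev g o (l.reverse.map invL) = (ev g o l)⁻¹ := by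
  induction l with
  | nil => simp [ev_nil]
  | cons x l ih =>
    rw [List.reverse_cons, List.map_append, ev_append, ih, ev_cons, mul_inv_rev, List.map_cons,
      List.map_nil, ev_cons, ev_nil, mul_one, ev1_invL]

theorem ev_zetaW (o n : ℕ) : ev g o (zetaW n) = Zf (gn g) o n := by
  induction n with
  | zero => rfl
  | succ n ih =>
    have : zetaW (n + 1) = zetaW n ++ [4*n, 4*n+2, 4*n+1, 4*n+3] := by
      simp [zetaW, List.range_succ]
    rw [this, ev_append, ih, Zf]
    simp [ev_cons, ev_nil, ev1_0, ev1_1, ev1_2, ev1_3, cmt, mul_assoc]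

theorem ev_zetaWi (o n : ℕ) : ev g o (zetaWi n) = (Zf (gn g) o n)⁻¹ := by
  rw [zetaWi, ev_reverse_invL, ev_zetaW]

/-- check that `W` acts on the first `n` handles as `y ↦ ζ⁻¹ y ζ` -/
def checkTw (n : ℕ) (W : TWord) : Bool :=
  (List.range n).all fun s =>
    (act W [4*s] == mulW (zetaWi n) (mulW [4*s] (zetaW n))) &&
    (act W [4*s+2] == mulW (zetaWi n) (mulW [4*s+2] (zetaW n)))

theorem tw_of_check (n : ℕ) (W : TWord) (hW : validW n W) (hc : checkTw n W = true)
    (o : ℕ) (ho : o + n ≤ g) (s : ℕ) (c : Bool) (h1 : o ≤ s) (h2 : s < o + n) :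
    prodW g o W (gn g s c) = (Zf (gn g) o n)⁻¹ * gn g s c * Zf (gn g) o n := by
  obtain ⟨t, rfl⟩ : ∃ t, s = o + t := ⟨s - o, by omega⟩
  have ht : t < n := by omega
  simp only [checkTw, List.all_eq_true, List.mem_range, Bool.and_eq_true, beq_iff_eq] at hc
  have h3 := hc t ht
  cases c
  · have e1 : gn g (o + t) false = ev g o [4*t] := by rw [ev_cons, ev_nil, ev1_0, mul_one]
    rw [e1, act_sound W o n hW ho, h3.1, ev_mulW, ev_mulW, ev_zetaW, ev_zetaWi, mul_assoc]
  · have e1 : gn g (o + t) true = ev g o [4*t+2] := by rw [ev_cons, ev_nil, ev1_2, mul_one]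
    rw [e1, act_sound W o n hW ho, h3.2, ev_mulW, ev_mulW, ev_zetaW, ev_zetaWi, mul_assoc]

end Pool.Agent.H808
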