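import Pool.Agent.H808.Assembly

namespace Pool.Agent.H808

variable {g : ℕ}

theorem gn_false (i : Fin g) : gn g i false = ga i := by
  rw [gn_of_lt i.2]; rfl

theorem gn_true (i : Fin g) : gn g i true = gb i := by
  rw [gn_of_lt i.2]; rfl

theorem isTwistA_tw (i : Fin g) : IsTwistA i (tw g (.A i)) := by
  refine ⟨?_, fun l => ?_, fun l hl => ?_⟩
  · rw [← gn_true, tw_gn, ← gn_false]; simp [sub]
  · rw [← gn_false, tw_gn]; simp [sub]
  · rw [← gn_true, tw_gn]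
    have : (l : ℕ) ≠ i := fun h => hl (Fin.ext h)
    simp [sub, this]

theorem isTwistB_tw (i : Fin g) : IsTwistB i (tw g (.B i)) := by
  refine ⟨?_, fun l => ?_, fun l hl => ?_⟩
  · rw [← gn_false, tw_gn, ← gn_true]; simp [sub]
  · rw [← gn_true, tw_gn]; simp [sub]
  · rw [← gn_false, tw_gn]
    have : (l : ℕ) ≠ i := fun h => hl (Fin.ext h)
    simp [sub, this]

theorem isTwistC_tw (i j : Fin g) (hij : (j : ℕ) = i + 1) : IsTwistC i j (tw g (.C i)) := by
  have hdc : gd i j = dc g i := by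
    rw [gd, dc, ← gn_false, ← gn_false, ← gn_true, hij]
  have hlt : (i : ℕ) + 1 < g := by rw [← hij]; exact j.2
  refine ⟨?_, ?_, ?_, fun l hl => ?_, fun l hl hl' => ?_⟩
  · rw [hdc, ← gn_true, tw_gn]; simp [sub, hlt]
  · rw [hdc, ← gn_false, tw_gn, hij]; simp [sub, hlt]
  · rw [hdc, ← gn_true, tw_gn, hij]; simp [sub, hlt]
  · rw [← gn_false, tw_gn]
    have : (l : ℕ) ≠ i + 1 := fun h => hl (Fin.ext (by rw [h, hij]))
    simp [sub, hlt, this]
  · rw [← gn_true, tw_gn]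
    have h1 : (l : ℕ) ≠ i := fun h => hl (Fin.ext h)
    have h2 : (l : ℕ) ≠ i + 1 := fun h => hl' (Fin.ext (by rw [h, hij]))
    simp [sub, hlt, h1, h2]

theorem aut_ext_ab {φ ψ : MulAut (SurfaceGroup g)} (ha : ∀ l, φ (ga l) = ψ (ga l))
    (hb : ∀ l, φ (gb l) = ψ (gb l)) : φ = ψ := by
  apply aut_ext_gn
  intro s c hs
  cases c
  · rw [show gn g s false = ga ⟨s, hs⟩ from gn_false ⟨s, hs⟩]; exact ha _
  · rw [show gn g s true = gb ⟨s, hs⟩ from gn_true ⟨s, hs⟩]; exact hb _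

theorem isTwistA_unique {i : Fin g} {φ ψ : MulAut (SurfaceGroup g)} (h : IsTwistA i φ)
    (h' : IsTwistA i ψ) : φ = ψ := by
  apply aut_ext_ab
  · intro l; rw [h.2.1, h'.2.1]
  · intro l
    by_cases hl : l = i
    · rw [hl, h.1, h'.1]
    · rw [h.2.2 l hl, h'.2.2 l hl]

theorem isTwistB_unique {i : Fin g} {φ ψ : MulAut (SurfaceGroup g)} (h : IsTwistB i φ)
    (h' : IsTwistB i ψ) : φ = ψ := by
  apply aut_ext_ab
  · intro l
    by_cases hl : l = i
    · rw [hl, h.1, h'.1]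
    · rw [h.2.2 l hl, h'.2.2 l hl]
  · intro l; rw [h.2.1, h'.2.1]

theorem isTwistC_unique {i j : Fin g} {φ ψ : MulAut (SurfaceGroup g)} (h : IsTwistC i j φ)
    (h' : IsTwistC i j ψ) : φ = ψ := by
  apply aut_ext_ab
  · intro l
    by_cases hl : l = j
    · rw [hl, h.2.1, h'.2.1]
    · rw [h.2.2.2.1 l hl, h'.2.2.2.1 l hl]
  · intro l
    by_cases hl : l = i
    · rw [hl, h.1, h'.1]
    · by_cases hl' : l = j
      · rw [hl', h.2.2.1, h'.2.2.1]
      · rw [h.2.2.2.2 l hl hl', h'.2.2.2.2 l hl hl']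

theorem lickorish_sub : lickorishTwists g ⊆ (TwG g : Set (MulAut (SurfaceGroup g))) := by
  rintro φ (⟨i, h⟩ | ⟨i, h⟩ | ⟨i, j, hij, h⟩)
  · rw [isTwistA_unique h (isTwistA_tw i)]; exact tw_mem_TwG _
  · rw [isTwistB_unique h (isTwistB_tw i)]; exact tw_mem_TwG _
  · rw [isTwistC_unique h (isTwistC_tw i j hij)]; exact tw_mem_TwG _

theorem TwG_le_closure : TwG g ≤ Subgroup.closure (lickorishTwists g) := by
  rw [TwG, Subgroup.closure_le]
  rintro _ ⟨T, rfl⟩
  cases T with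
  | A t =>
    by_cases h : t < g
    · exact Subgroup.subset_closure (Or.inl ⟨⟨t, h⟩, isTwistA_tw ⟨t, h⟩⟩)
    · rw [tw_out _ (by simp only [Tw.lo, Tw.len]; omega)]; exact one_mem _
  | B t =>
    by_cases h : t < g
    · exact Subgroup.subset_closure (Or.inr (Or.inl ⟨⟨t, h⟩, isTwistB_tw ⟨t, h⟩⟩))
    · rw [tw_out _ (by simp only [Tw.lo, Tw.len]; omega)]; exact one_mem _
  | C t =>
    by_cases h : t + 1 < g
    · exact Subgroup.subset_closure (Or.inr (Or.inr ⟨⟨t, by omega⟩, ⟨t + 1, h⟩, rfl,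
        isTwistC_tw ⟨t, by omega⟩ ⟨t + 1, h⟩ rfl⟩))
    · rw [tw_out _ (by simp only [Tw.lo, Tw.len]; omega)]; exact one_mem _

theorem TwG_eq : TwG g = Subgroup.closure (lickorishTwists g) :=
  le_antisymm TwG_le_closure ((Subgroup.closure_le _).2 lickorish_sub)

theorem MCG_eq : MCG g = (TwG g).map (toOut (SurfaceGroup g)) := by
  rw [TwG_eq, MonoidHom.map_closure]; rfl

theorem Zf_comm {G : Type*} [CommGroup G] (φ : ℕ → Bool → G) (i n : ℕ) : Zf φ i n = 1 := by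
  induction n with
  | zero => rfl
  | succ n ih =>
    rw [Zf, ih, one_mul, cmt, mul_comm (φ (i + n) false)]
    group

/-- the functional reading the exponent sum of `a_t` -/
def lam (g t : ℕ) : SurfaceGroup g →* Multiplicative ℤ :=
  endo (fun s c => if s = t ∧ c = false then Multiplicative.ofAdd 1 else 1) (Zf_comm _ _ _)

theorem lam_same (t : ℕ) (ht : t < g) : lam g t (gn g t false) = Multiplicative.ofAdd 1 := by
  rw [lam, endo_gn _ _ ht]; simp

theorem lam_ne (t s : ℕ) (hs : s < g) (h : s ≠ t) : lam g t (gn g s false) = 1 := by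
  rw [lam, endo_gn _ _ hs]; simp [h]

theorem not_inner {φ : MulAut (SurfaceGroup g)} (t s : ℕ) (ht : t < g) (hs : s < g) (h : s ≠ t)
    (hφ : φ (gn g t false) = gn g s false) : toOut (SurfaceGroup g) φ ≠ 1 := by
  intro h1
  have h2 : φ ∈ Inn (SurfaceGroup g) := (QuotientGroup.eq_one_iff φ).1 h1
  obtain ⟨u, rfl⟩ := h2
  rw [MulAut.conj_apply] at hφ
  have h3 := congrArg (lam g t) hφ
  rw [lam_ne t s hs h, map_mul, map_mul, map_inv, lam_same t ht, mul_comm, ← mul_assoc,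
    inv_mul_cancel, one_mul] at h3
  exact absurd (Multiplicative.ofAdd.injective h3) (by norm_num)

/-- Passing to the mapping class group. -/
theorem main_general {k m f n' l' : ℕ} {V W w w' : MulAut (SurfaceGroup g)}
    (hk : 4 ≤ k) (hm : 6 ≤ m) (hn : m * k = n' + 1) (hg : f + n' + 1 + l' = g)
    (hV : V ∈ SupG g 0 f) (hw : w ∈ SupG g 0 f) (hW : W ∈ SupG g (f + n' + 1) l')
    (hw' : w' ∈ SupG g (f + n' + 1) l')
    (hVT : V ∈ TwG g) (hwT : w ∈ TwG g) (hWT : W ∈ TwG g) (hwT' : w' ∈ TwG g)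
    (hL : f = 0 ∨ RecL g f V w) (hR : l' = 0 ∨ (5 ≤ k ∧ RecR g (f + n' + 1) l' W w'))
    (hVk : ∀ s c, s < f → (V ^ k) (gn g s c) = (Zf (gn g) 0 f)⁻¹ * gn g s c * Zf (gn g) 0 f)
    (hWk : ∀ s c, f + n' + 1 ≤ s → s < g → (W ^ k) (gn g s c) =
      (Zf (gn g) (f + n' + 1) l')⁻¹ * gn g s c * Zf (gn g) (f + n' + 1) l') :
    ∃ x y z a b : MCG g, y = a * x * a⁻¹ ∧ z = b * x * b⁻¹ ∧ x ^ k = 1 ∧ x ≠ 1 ∧ x ^ 2 ≠ 1 ∧
      Subgroup.closure {x, y, z} = ⊤ := by
  have h4 := arms_le hk hn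
  have hWi : W⁻¹ ∈ SupG g (f + n' + 1) l' := inv_mem hW
  set x := xel g f n' m V W⁻¹ with hxdef
  set T := d0 g f * w * d1 g (f + n' + 1) l' * w' with hTdef
  set a := ya (EE g) x T f m with hadef
  set b := cc (EE g) (AA g) m (f + m) with hbdef
  have hd0 : d0 g f ∈ TwG g := by
    unfold d0; split_ifs
    · exact one_mem _
    · exact EE_TwG _
  have hd1 : d1 g (f + n' + 1) l' ∈ TwG g := by
    unfold d1; split_ifs
    · exact one_mem _
    · exact EE_TwG _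
  have hxT : x ∈ TwG g := mul_mem (mul_mem (pow_mem (rot_TwG _ _) _) hVT) (inv_mem hWT)
  have hTT : T ∈ TwG g := mul_mem (mul_mem (mul_mem hd0 hwT) hd1) hwT'
  have haT : a ∈ TwG g := mul_mem (EE_TwG _) (mul_mem (mul_mem (inv_mem hxT) hTT) hxT)
  have hbT : b ∈ TwG g := mul_mem (mul_mem (Dp_mem _ _ _ _ (fun _ _ _ => EE_TwG _)) (EE_TwG _))
    (mul_mem (tw_mem_TwG _) (tw_mem_TwG _))
  have hmem : ∀ φ ∈ TwG g, toOut (SurfaceGroup g) φ ∈ MCG g := by
    intro φ hφ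
    rw [MCG_eq]; exact Subgroup.mem_map_of_mem _ hφ
  -- powers
  have hWk' : ∀ s c, f + n' + 1 ≤ s → s < g → (W⁻¹ ^ k) (gn g s c) =
      Zf (gn g) (f + n' + 1) l' * gn g s c * (Zf (gn g) (f + n' + 1) l')⁻¹ := by
    intro s c h1 h2
    have e1 := hWk s c h1 h2
    have hWkm : W ^ k ∈ SupG g (f + n' + 1) l' := pow_mem hW k
    have e2 : (W ^ k) (Zf (gn g) (f + n' + 1) l') = Zf (gn g) (f + n' + 1) l' :=
      SupG_fix_Zf hWkm (Or.inr ⟨le_rfl, le_rfl⟩)
    have e3 : (W ^ k) (Zf (gn g) (f + n' + 1) l' * gn g s c * (Zf (gn g) (f + n' + 1) l')⁻¹) =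
        gn g s c := by
      rw [map_mul, map_mul, map_inv, e1, e2]; group
    rw [inv_pow]
    conv_lhs => rw [← e3]
    exact MulAut.inv_apply_self _ _ _
  have hpow : x ^ k = MulAut.conj (Zf (gn g) 0 (f + n' + 1))⁻¹ :=
    x_pow hV hWi hg k hn hVk hWk'
  have hxk : toOut (SurfaceGroup g) x ^ k = 1 := by
    rw [← map_pow, hpow]
    exact (QuotientGroup.eq_one_iff _).2 ⟨_, rfl⟩
  have hx1 : x (gn g f false) = gn g (f + m) false := x_mid hV hWi (by omega) f false le_rfl (by omega)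
  have hx2 : (x ^ 2) (gn g f false) = gn g (f + m + m) false := by
    rw [pow_two, MulAut.mul_apply, hx1, x_mid hV hWi (by omega) _ _ (by omega) (by omega)]
  have hne1 : toOut (SurfaceGroup g) x ≠ 1 := not_inner f (f + m) (by omega) (by omega) (by omega) hx1
  have hne2 : toOut (SurfaceGroup g) x ^ 2 ≠ 1 := by
    rw [← map_pow]
    exact not_inner f (f + m + m) (by omega) (by omega) (by omega) hx2
  -- elements
  let X : MCG g := ⟨toOut (SurfaceGroup g) x, hmem x hxT⟩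
  let Am : MCG g := ⟨toOut (SurfaceGroup g) a, hmem a haT⟩
  let Bm : MCG g := ⟨toOut (SurfaceGroup g) b, hmem b hbT⟩
  refine ⟨X, Am * X * Am⁻¹, Bm * X * Bm⁻¹, Am, Bm, rfl, rfl, ?_, ?_, ?_, ?_⟩
  · apply Subtype.ext; exact hxk
  · intro h; exact hne1 (congrArg Subtype.val h)
  · intro h; exact hne2 (congrArg Subtype.val h)
  · set H : Subgroup (MCG g) := Subgroup.closure {X, Am * X * Am⁻¹, Bm * X * Bm⁻¹} with hH
    set H' : Subgroup (MulAut (SurfaceGroup g)) :=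
      (H.map (MCG g).subtype).comap (toOut (SurfaceGroup g)) with hH'
    have m1 : x ∈ H' := ⟨X, Subgroup.subset_closure (by simp), rfl⟩
    have m2 : a * x * a⁻¹ ∈ H' :=
      ⟨Am * X * Am⁻¹, Subgroup.subset_closure (by simp), by
        simp only [map_mul, map_inv]; rfl⟩
    have m3 : b * x * b⁻¹ ∈ H' :=
      ⟨Bm * X * Bm⁻¹, Subgroup.subset_closure (by simp), by
        simp only [map_mul, map_inv]; rfl⟩
    have hgen : TwG g ≤ H' := generation hk hm hn hg hV hw hWi hw' hL hR H' m1 m2 m3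
    rw [eq_top_iff]
    rintro ⟨q, hq⟩ -
    rw [MCG_eq] at hq
    obtain ⟨φ, hφ, hφq⟩ := hq
    obtain ⟨r, hr, hrq⟩ := hgen hφ
    have : r = ⟨q, by rw [MCG_eq]; exact ⟨φ, hφ, hφq⟩⟩ := Subtype.ext (hrq.trans hφq)
    rw [← this]; exact hr

theorem order4 {x : MCG g} (h : x ^ 4 = 1) (h2 : x ^ 2 ≠ 1) : orderOf x = 4 := by
  have := orderOf_eq_prime_pow (x := x) (p := 2) (n := 1) (by simpa using h2) (by simpa using h)
  simpa using this

theorem order5 {x : MCG g} (h : x ^ 5 = 1) (h2 : x ≠ 1) : orderOf x = 5 :=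
  haveI : Fact (Nat.Prime 5) := ⟨by norm_num⟩
  orderOf_eq_prime h h2

theorem order_conj {G : Type*} [Group G] (a x : G) : orderOf (a * x * a⁻¹) = orderOf x := by
  have := (MulAut.conj a).orderOf_eq x
  rwa [MulAut.conj_apply] at this

end Pool.Agent.H808
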