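import Mathlib

namespace Pool.Agent.H808

variable {G : Type*} [Group G]

/-- conjugation form of the braid relation -/
theorem braid_conj {a b : G} (h : a * b * a = b * a * b) : a * b * a⁻¹ = b⁻¹ * a * b := by
  calc a * b * a⁻¹ = b⁻¹ * (b * a * b) * a⁻¹ := by group
    _ = b⁻¹ * (a * b * a) * a⁻¹ := by rw [h]
    _ = _ := by group

/-- The relations between the twists used in the generation argument. -/
structure Chain (E A : ℕ → G) (L : ℕ) : Prop where
  br : ∀ s, s + 1 < L → E s * E (s + 1) * E s = E (s + 1) * E s * E (s + 1)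
  cm : ∀ s t, s + 2 ≤ t → Commute (E s) (E t)
  abr : ∀ t, 2 * t < L → A t * E (2 * t) * A t = E (2 * t) * A t * E (2 * t)
  acm : ∀ t s, s ≠ 2 * t → Commute (A t) (E s)
  aa : ∀ s t, Commute (A s) (A t)
  ra : ∀ t, 2 * t + 2 < L → (A t * E (2*t) * E (2*t+1) * E (2*t+2)) ^ 10 =
    (A t * E (2*t) * E (2*t+1) * E (2*t+2) * A (t+1)) ^ 6
  rb : ∀ t, 2 * t + 4 < L →
    (A (t+1) * A t * E (2*t) * E (2*t+1) * E (2*t+2) * E (2*t+3) * E (2*t+4)) ^ 9 =
    (A (t+1) * E (2*t) * E (2*t+1) * E (2*t+2) * E (2*t+3) * E (2*t+4)) ^ 12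
  hum : ∀ t, 2 * t + 4 < L →
    (E (2*t+4) * E (2*t+3) * E (2*t+2) * A (t+1) * E (2*t+1) * E (2*t) * E (2*t+2) * E (2*t+1) *
      E (2*t+3) * E (2*t+4) * E (2*t+2) * E (2*t+3) * A (t+1) * E (2*t+2) * E (2*t+1) * E (2*t))
      * A t = A (t+2) *
    (E (2*t+4) * E (2*t+3) * E (2*t+2) * A (t+1) * E (2*t+1) * E (2*t) * E (2*t+2) * E (2*t+1) *
      E (2*t+3) * E (2*t+4) * E (2*t+2) * E (2*t+3) * A (t+1) * E (2*t+2) * E (2*t+1) * E (2*t))

/-- consecutive products -/
def Dp (E : ℕ → G) (s : ℕ) : ℕ → G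
  | 0 => 1
  | l + 1 => Dp E s l * E (s + l)

theorem Dp_succ' (E : ℕ → G) (s l : ℕ) : Dp E s (l + 1) = E s * Dp E (s + 1) l := by
  induction l with
  | zero => simp [Dp]
  | succ l ih => rw [Dp, ih, Dp, mul_assoc, show s + 1 + l = s + (l + 1) by omega]

theorem Dp_comm (E : ℕ → G) (u : G) (s l : ℕ) (h : ∀ t, s ≤ t → t < s + l → Commute u (E t)) :
    Commute u (Dp E s l) := by
  induction l with
  | zero => exact Commute.one_right _
  | succ l ih => exact (ih (fun t h1 h2 => h t h1 (by omega))).mul_right (h _ (by omega) (by omega))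

theorem Dp_mem (E : ℕ → G) (H : Subgroup G) (s l : ℕ) (h : ∀ t, s ≤ t → t < s + l → E t ∈ H) :
    Dp E s l ∈ H := by
  induction l with
  | zero => exact one_mem _
  | succ l ih => exact mul_mem (ih (fun t h1 h2 => h t h1 (by omega))) (h _ (by omega) (by omega))

theorem Dp_conj (E : ℕ → G) (x : G) (d s l : ℕ)
    (h : ∀ t, s ≤ t → t < s + l → x * E t = E (t + d) * x) :
    x * Dp E s l = Dp E (s + d) l * x := by
  induction l with
  | zero => simp [Dp]
  | succ l ih =>
    rw [Dp, Dp, ← mul_assoc, ih (fun t h1 h2 => h t h1 (by omega)), mul_assoc,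
      h (s + l) (by omega) (by omega), show s + l + d = s + d + l by omega, mul_assoc]

variable {E A : ℕ → G} {L : ℕ}

theorem Dp_shift (hc : Chain E A L) (s l t : ℕ) (h1 : s ≤ t) (h2 : t + 1 < s + l)
    (h3 : s + l ≤ L) : Dp E s l * E t = E (t + 1) * Dp E s l := by
  induction l with
  | zero => omega
  | succ l ih =>
    by_cases h : t + 1 < s + l
    · have h4 : Commute (E t) (E (s + l)) := hc.cm _ _ (by omega)
      calc Dp E s (l + 1) * E t = Dp E s l * (E (s + l) * E t) := by rw [Dp, mul_assoc]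
        _ = (Dp E s l * E t) * E (s + l) := by rw [h4.eq.symm, mul_assoc]
        _ = E (t + 1) * Dp E s l * E (s + l) := by rw [ih h (by omega)]
        _ = _ := by rw [Dp, mul_assoc]
    · obtain ⟨r, rfl⟩ : ∃ r, l = r + 1 := ⟨l - 1, by omega⟩
      have ht : t = s + r := by omega
      subst ht
      have h4 : Commute (E (s + r + 1)) (Dp E s r) :=
        Dp_comm E _ s r (fun t' h5 h6 => (hc.cm _ _ (by omega)).symm)
      have hb := hc.br (s + r) (by omega)
      calc Dp E s (r + 1 + 1) * E (s + r)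
          = Dp E s r * (E (s + r) * E (s + r + 1) * E (s + r)) := by
            simp only [Dp, mul_assoc, add_assoc]
        _ = (Dp E s r * E (s + r + 1)) * E (s + r) * E (s + r + 1) := by
            rw [hb]; simp only [mul_assoc]
        _ = (E (s + r + 1) * Dp E s r) * E (s + r) * E (s + r + 1) := by rw [h4.eq]
        _ = _ := by simp only [Dp, mul_assoc, add_assoc]

/-- Relative exponent sum. -/
def RelExp (H : Subgroup G) (e u : G) (n : ℕ) : Prop := u * (e ^ n)⁻¹ ∈ H ∧ Commute u e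

theorem RelExp.mul {H : Subgroup G} {e u v : G} {n m : ℕ} (h1 : RelExp H e u n)
    (h2 : RelExp H e v m) : RelExp H e (u * v) (n + m) := by
  refine ⟨?_, h1.2.mul_left h2.2⟩
  have : u * v * (e ^ (n + m))⁻¹ = (u * (e ^ n)⁻¹) * (v * (e ^ m)⁻¹) := by
    have h3 : Commute v ((e ^ n)⁻¹) := (h2.2.pow_right n).inv_right
    calc u * v * (e ^ (n + m))⁻¹ = u * (v * (e ^ n)⁻¹) * (e ^ m)⁻¹ := by
          rw [add_comm n m, pow_add]; group
      _ = u * ((e ^ n)⁻¹ * v) * (e ^ m)⁻¹ := by rw [h3.eq]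
      _ = _ := by group
  rw [this]
  exact mul_mem h1.1 h2.1

theorem RelExp.pow {H : Subgroup G} {e u : G} {n : ℕ} (h1 : RelExp H e u n) (k : ℕ) :
    RelExp H e (u ^ k) (n * k) := by
  induction k with
  | zero => exact ⟨by simp, by simp⟩
  | succ k ih => rw [pow_succ, Nat.mul_succ]; exact ih.mul h1

theorem RelExp.diff {H : Subgroup G} {e u : G} {n m : ℕ} (h1 : RelExp H e u (n + m))
    (h2 : RelExp H e u m) : e ^ n ∈ H := by
  have : e ^ n = (u * (e ^ (n + m))⁻¹)⁻¹ * (u * (e ^ m)⁻¹) := by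
    rw [pow_add]; group
  rw [this]
  exact mul_mem (inv_mem h1.1) h2.1

theorem mem_of_pows {H : Subgroup G} {e : G} (h1 : e ^ 10 ∈ H) (h2 : e ^ 9 ∈ H) : e ∈ H := by
  have : e = e ^ 10 * (e ^ 9)⁻¹ := by group
  rw [this]
  exact mul_mem h1 (inv_mem h2)

end Pool.Agent.H808
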