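import Pool.Agent.H808.Eval

namespace Pool.Agent.H808

variable {g : ℕ}

/-- letters -/
abbrev lA (i : ℕ) : Tw × Bool := (.A i, false)
abbrev lB (i : ℕ) : Tw × Bool := (.B i, false)
abbrev lC (i : ℕ) : Tw × Bool := (.C i, false)
abbrev lA' (i : ℕ) : Tw × Bool := (.A i, true)
abbrev lB' (i : ℕ) : Tw × Bool := (.B i, true)
abbrev lC' (i : ℕ) : Tw × Bool := (.C i, true)

/-- powers of words -/
def wpow (W : TWord) : ℕ → TWord
  | 0 => []
  | n + 1 => W ++ wpow W n

theorem prodW_wpow (o : ℕ) (W : TWord) (n : ℕ) : prodW g o (wpow W n) = prodW g o W ^ n := by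
  induction n with
  | zero => rfl
  | succ n ih => rw [wpow, prodW_append, ih, pow_succ']

set_option maxRecDepth 100000

theorem chk_AB : checkRel 1 [lA 0, lB 0, lA 0] [lB 0, lA 0, lB 0] = true := by decide +kernel
theorem chk_BC : checkRel 2 [lB 0, lC 0, lB 0] [lC 0, lB 0, lC 0] = true := by decide +kernel
theorem chk_CB : checkRel 2 [lC 0, lB 1, lC 0] [lB 1, lC 0, lB 1] = true := by decide +kernel
theorem chk_AC : checkRel 2 [lA 0, lC 0] [lC 0, lA 0] = true := by decide +kernel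
theorem chk_AC' : checkRel 2 [lA 1, lC 0] [lC 0, lA 1] = true := by decide +kernel
theorem chk_CC : checkRel 3 [lC 0, lC 1] [lC 1, lC 0] = true := by decide +kernel

theorem chk_a : checkRel 2 (wpow [lA 0, lB 0, lC 0, lB 1] 10)
    (wpow [lA 0, lB 0, lC 0, lB 1, lA 1] 6) = true := by decide +kernel

theorem chk_b : checkRel 3 (wpow [lA 1, lA 0, lB 0, lC 0, lB 1, lC 1, lB 2] 9)
    (wpow [lA 1, lB 0, lC 0, lB 1, lC 1, lB 2] 12) = true := by decide +kernel

/-- Humphries' word -/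
def humW : TWord := [lB 2, lC 1, lB 1, lA 1, lC 0, lB 0, lB 1, lC 0, lC 1, lB 2, lB 1, lC 1, lA 1,
  lB 1, lC 0, lB 0]

theorem chk_hum : checkRel 3 (humW ++ [lA 0]) (lA 2 :: humW) = true := by decide +kernel

end Pool.Agent.H808
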