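import Pool.Agent.H808.Conc

namespace Pool.Agent.H808

section abstract

variable {G : Type*} [Group G] {E A : ℕ → G} {L : ℕ} {H : Subgroup G}

theorem hum_up (hc : Chain E A L) (hE : ∀ s, s < L → E s ∈ H) (t : ℕ) (ht : 2 * t + 4 < L)
    (h0 : A t ∈ H) (h1 : A (t + 1) ∈ H) : A (t + 2) ∈ H := by
  have h := hc.hum t ht
  have e0 := hE (2 * t) (by omega)
  have e1 := hE (2 * t + 1) (by omega)
  have e2 := hE (2 * t + 2) (by omega)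
  have e3 := hE (2 * t + 3) (by omega)
  have e4 := hE (2 * t + 4) (by omega)
  set W := (E (2*t+4) * E (2*t+3) * E (2*t+2) * A (t+1) * E (2*t+1) * E (2*t) * E (2*t+2) * E (2*t+1) *
      E (2*t+3) * E (2*t+4) * E (2*t+2) * E (2*t+3) * A (t+1) * E (2*t+2) * E (2*t+1) * E (2*t))
    with hW
  have hWH : W ∈ H := by
    rw [hW]
    repeat' first | assumption | apply mul_mem
  exact mem_of_conj_eq' hWH h h0

theorem hum_down (hc : Chain E A L) (hE : ∀ s, s < L → E s ∈ H) (t : ℕ) (ht : 2 * t + 4 < L)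
    (h1 : A (t + 1) ∈ H) (h2 : A (t + 2) ∈ H) : A t ∈ H := by
  have h := hc.hum t ht
  have e0 := hE (2 * t) (by omega)
  have e1 := hE (2 * t + 1) (by omega)
  have e2 := hE (2 * t + 2) (by omega)
  have e3 := hE (2 * t + 3) (by omega)
  have e4 := hE (2 * t + 4) (by omega)
  set W := (E (2*t+4) * E (2*t+3) * E (2*t+2) * A (t+1) * E (2*t+1) * E (2*t) * E (2*t+2) * E (2*t+1) *
      E (2*t+3) * E (2*t+4) * E (2*t+2) * E (2*t+3) * A (t+1) * E (2*t+2) * E (2*t+1) * E (2*t))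
    with hW
  have hWH : W ∈ H := by
    rw [hW]
    repeat' first | assumption | apply mul_mem
  exact mem_of_conj_eq hWH h h2

theorem hum_all (hc : Chain E A L) (hE : ∀ s, s < L → E s ∈ H) (p : ℕ) (hp : 2 * (p + 1) < L)
    (h0 : A p ∈ H) (h1 : A (p + 1) ∈ H) : ∀ t, 2 * t < L → A t ∈ H := by
  have up : ∀ j, 2 * (p + j + 1) < L → A (p + j) ∈ H ∧ A (p + j + 1) ∈ H := by
    intro j
    induction j with
    | zero => intro _; exact ⟨h0, h1⟩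
    | succ j ih =>
      intro hj
      have := ih (by omega)
      exact ⟨this.2, hum_up hc hE (p + j) (by omega) this.1 this.2⟩
  have down : ∀ j, j ≤ p → A (p - j) ∈ H ∧ A (p - j + 1) ∈ H := by
    intro j
    induction j with
    | zero => intro _; exact ⟨h0, h1⟩
    | succ j ih =>
      intro hj
      have := ih (by omega)
      have h2 : p - (j + 1) + 1 = p - j := by omega
      refine ⟨hum_down hc hE (p - (j + 1)) (by omega) ?_ ?_, ?_⟩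
      · rw [h2]; exact this.1
      · rw [show p - (j + 1) + 2 = p - j + 1 by omega]; exact this.2
      · rw [h2]; exact this.1
  intro t ht
  rcases lt_or_ge t p with h | h
  · have := (down (p - t) (by omega)).1
    rwa [show p - (p - t) = t by omega] at this
  · rcases h.eq_or_lt with h2 | h2
    · rw [← h2]; exact h0
    · have := (up (t - p - 1) (by omega)).2
      rwa [show p + (t - p - 1) + 1 = t by omega] at this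

/-- 4-chain piece -/
theorem piece4 {y δ u1 u2 u3 u4 : G} (hy : y ∈ H) (hδ : δ ∈ H)
    (r1 : y * u1 = u3 * y) (r2 : y * u2 = u4 * y) (r3 : y * (y * (y * u1)) = u2 * (y * (y * y)))
    (hb : u1 * δ * u1 = δ * u1 * δ) (hc3 : Commute u3 δ)
    (hK : (u1 * (y * u1⁻¹ * y⁻¹)) * δ * (u1 * (y * u1⁻¹ * y⁻¹))⁻¹ ∈ H) :
    u1 ∈ H ∧ u2 ∈ H ∧ u3 ∈ H ∧ u4 ∈ H := by
  have e1 : y * u1⁻¹ * y⁻¹ = u3⁻¹ := by
    have : u3 = y * u1 * y⁻¹ := by rw [r1]; group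
    rw [this]; group
  rw [e1] at hK
  have e2 : (u1 * u3⁻¹) * δ * (u1 * u3⁻¹)⁻¹ = u1 * δ * u1⁻¹ := by
    calc (u1 * u3⁻¹) * δ * (u1 * u3⁻¹)⁻¹ = u1 * (u3⁻¹ * δ) * u3 * u1⁻¹ := by group
      _ = u1 * (δ * u3⁻¹) * u3 * u1⁻¹ := by rw [hc3.inv_left.eq]
      _ = _ := by group
  rw [e2] at hK
  have h1 : u1 ∈ H := mem_of_braid hb hδ hK
  have h3 : u3 ∈ H := mem_of_conj_eq' hy r1 h1
  have h2 : u2 ∈ H := by
    refine mem_of_conj_eq' (x := y * (y * y)) (mul_mem hy (mul_mem hy hy)) ?_ h1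
    rw [← r3]; simp only [mul_assoc]
  exact ⟨h1, h2, h3, mem_of_conj_eq' hy r2 h2⟩

/-- odd chain piece -/
theorem pieceOdd {y δ : G} {u : ℕ → G} {N : ℕ} (hN : 7 ≤ N) (hy : y ∈ H) (hδ : δ ∈ H)
    (r : ∀ i, 1 ≤ i → i + 2 ≤ N → y * u i = u (i + 2) * y)
    (hb : u 2 * δ * u 2 = δ * u 2 * δ)
    (hcδ : ∀ i, 4 ≤ i → i ≤ 7 → Commute (u i) δ)
    (h45 : u 5 * u 4 * u 5 = u 4 * u 5 * u 4) (h47 : Commute (u 7) (u 4))
    (h24 : Commute (u 2) (u 4)) (h25 : Commute (u 2) (u 5))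
    (hK : ∀ v ∈ H, (v = δ ∨ v = u 4) →
      ((u 2 * u 5) * (y * (u 2 * u 5)⁻¹ * y⁻¹)) * v *
      ((u 2 * u 5) * (y * (u 2 * u 5)⁻¹ * y⁻¹))⁻¹ ∈ H) :
    ∀ i, 1 ≤ i → i ≤ N → u i ∈ H := by
  have e1 : y * (u 2 * u 5)⁻¹ * y⁻¹ = (u 7)⁻¹ * (u 4)⁻¹ := by
    have h1 : u 4 = y * u 2 * y⁻¹ := by rw [r 2 (by omega) (by omega)]; group
    have h2 : u 7 = y * u 5 * y⁻¹ := by rw [r 5 (by omega) (by omega)]; group
    rw [h1, h2]; group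
  rw [e1] at hK
  have k1 : u 2 ∈ H := by
    have h1 := hK δ hδ (Or.inl rfl)
    have e2 : (u 2 * u 5 * ((u 7)⁻¹ * (u 4)⁻¹)) * δ * (u 2 * u 5 * ((u 7)⁻¹ * (u 4)⁻¹))⁻¹ =
        u 2 * δ * (u 2)⁻¹ := by
      have hc : Commute (u 5 * ((u 7)⁻¹ * (u 4)⁻¹)) δ :=
        (hcδ 5 (by omega) (by omega)).mul_left
          ((hcδ 7 (by omega) (by omega)).inv_left.mul_left (hcδ 4 (by omega) (by omega)).inv_left)
      calc (u 2 * u 5 * ((u 7)⁻¹ * (u 4)⁻¹)) * δ * (u 2 * u 5 * ((u 7)⁻¹ * (u 4)⁻¹))⁻¹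
          = u 2 * ((u 5 * ((u 7)⁻¹ * (u 4)⁻¹)) * δ) * (u 5 * ((u 7)⁻¹ * (u 4)⁻¹))⁻¹ * (u 2)⁻¹ := by
            group
        _ = u 2 * (δ * (u 5 * ((u 7)⁻¹ * (u 4)⁻¹))) * (u 5 * ((u 7)⁻¹ * (u 4)⁻¹))⁻¹ * (u 2)⁻¹ := by
            rw [hc.eq]
        _ = _ := by group
    rw [e2] at h1
    exact mem_of_braid hb hδ h1
  have k2 : u 4 ∈ H := mem_of_conj_eq' hy (r 2 (by omega) (by omega)) k1
  have k3 : u 5 ∈ H := by
    have h1 := hK (u 4) k2 (Or.inr rfl)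
    have e2 : (u 2 * u 5 * ((u 7)⁻¹ * (u 4)⁻¹)) * u 4 * (u 2 * u 5 * ((u 7)⁻¹ * (u 4)⁻¹))⁻¹ =
        u 5 * u 4 * (u 5)⁻¹ := by
      have hc : Commute (u 2) (u 5 * u 4 * (u 5)⁻¹) := (h25.mul_right h24).mul_right h25.inv_right
      calc (u 2 * u 5 * ((u 7)⁻¹ * (u 4)⁻¹)) * u 4 * (u 2 * u 5 * ((u 7)⁻¹ * (u 4)⁻¹))⁻¹
          = u 2 * u 5 * ((u 7)⁻¹ * u 4) * u 7 * (u 5)⁻¹ * (u 2)⁻¹ := by group
        _ = u 2 * u 5 * (u 4 * (u 7)⁻¹) * u 7 * (u 5)⁻¹ * (u 2)⁻¹ := by rw [h47.inv_left.eq]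
        _ = (u 2 * (u 5 * u 4 * (u 5)⁻¹)) * (u 2)⁻¹ := by group
        _ = ((u 5 * u 4 * (u 5)⁻¹) * u 2) * (u 2)⁻¹ := by rw [hc.eq]
        _ = _ := by group
    rw [e2] at h1
    exact mem_of_braid h45 k2 h1
  have k4 : u 3 ∈ H := mem_of_conj_eq hy (r 3 (by omega) (by omega)) k3
  have k5 : u 1 ∈ H := mem_of_conj_eq hy (r 1 (by omega) (by omega)) k4
  have k6 : ∀ i, 1 ≤ i → i ≤ N → u i ∈ H := by
    intro i
    induction i using Nat.strong_induction_on with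
    | _ i ih =>
      intro h1 h2
      by_cases h3 : i ≤ 2
      · interval_cases i
        · exact k5
        · exact k1
      · have h4 := ih (i - 2) (by omega) (by omega) (by omega)
        have h5 := r (i - 2) (by omega) (by omega)
        rw [show i - 2 + 2 = i by omega] at h5
        exact mem_of_conj_eq' hy h5 h4
  exact k6

/-- type B piece of genus 2 -/
theorem pieceB {y δ u1 u2 u3 u4 u4' : G} (hy : y ∈ H) (hδ : δ ∈ H)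
    (r1 : y * u1 = u3 * y) (r4 : y * u4 = u4' * y)
    (r2 : u4'⁻¹ * (u3 * u4 * u3⁻¹) * u4' = u2)
    (hb : u1 * δ * u1 = δ * u1 * δ) (hc3 : Commute u3 δ) (hc4 : Commute u4 δ)
    (hc4' : Commute u4' δ) (h43 : u4 * u3 * u4 = u3 * u4 * u3) (h4'3 : Commute u4' u3)
    (h13 : Commute u1 u3) (h14 : Commute u1 u4)
    (hK : ∀ v ∈ H, (v = δ ∨ v = u3) →
      ((u1 * u4) * (y * (u1 * u4)⁻¹ * y⁻¹)) * v *
      ((u1 * u4) * (y * (u1 * u4)⁻¹ * y⁻¹))⁻¹ ∈ H) :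
    u1 ∈ H ∧ u2 ∈ H ∧ u3 ∈ H := by
  have e1 : y * (u1 * u4)⁻¹ * y⁻¹ = u4'⁻¹ * u3⁻¹ := by
    have h1 : u3 = y * u1 * y⁻¹ := by rw [r1]; group
    have h2 : u4' = y * u4 * y⁻¹ := by rw [r4]; group
    rw [h1, h2]; group
  rw [e1] at hK
  have k1 : u1 ∈ H := by
    have h1 := hK δ hδ (Or.inl rfl)
    have hc : Commute (u4 * (u4'⁻¹ * u3⁻¹)) δ :=
      hc4.mul_left (hc4'.inv_left.mul_left hc3.inv_left)
    have e2 : (u1 * u4 * (u4'⁻¹ * u3⁻¹)) * δ * (u1 * u4 * (u4'⁻¹ * u3⁻¹))⁻¹ =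
        u1 * δ * u1⁻¹ := by
      calc (u1 * u4 * (u4'⁻¹ * u3⁻¹)) * δ * (u1 * u4 * (u4'⁻¹ * u3⁻¹))⁻¹
          = u1 * ((u4 * (u4'⁻¹ * u3⁻¹)) * δ) * (u4 * (u4'⁻¹ * u3⁻¹))⁻¹ * u1⁻¹ := by
            group
        _ = u1 * (δ * (u4 * (u4'⁻¹ * u3⁻¹))) * (u4 * (u4'⁻¹ * u3⁻¹))⁻¹ * u1⁻¹ := by
            rw [hc.eq]
        _ = _ := by group
    rw [e2] at h1
    exact mem_of_braid hb hδ h1
  have k3 : u3 ∈ H := mem_of_conj_eq' hy r1 k1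
  have k4 : u4 ∈ H := by
    have h1 := hK u3 k3 (Or.inr rfl)
    have hc : Commute u1 (u4 * u3 * u4⁻¹) := (h14.mul_right h13).mul_right h14.inv_right
    have e2 : (u1 * u4 * (u4'⁻¹ * u3⁻¹)) * u3 * (u1 * u4 * (u4'⁻¹ * u3⁻¹))⁻¹ =
        u4 * u3 * u4⁻¹ := by
      calc (u1 * u4 * (u4'⁻¹ * u3⁻¹)) * u3 * (u1 * u4 * (u4'⁻¹ * u3⁻¹))⁻¹
          = u1 * u4 * (u4'⁻¹ * u3) * u4' * u4⁻¹ * u1⁻¹ := by group
        _ = u1 * u4 * (u3 * u4'⁻¹) * u4' * u4⁻¹ * u1⁻¹ := by rw [h4'3.inv_left.eq]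
        _ = (u1 * (u4 * u3 * u4⁻¹)) * u1⁻¹ := by group
        _ = ((u4 * u3 * u4⁻¹) * u1) * u1⁻¹ := by rw [hc.eq]
        _ = _ := by group
    rw [e2] at h1
    exact mem_of_braid h43 k3 h1
  have k4' : u4' ∈ H := mem_of_conj_eq' hy r4 k4
  refine ⟨k1, ?_, k3⟩
  rw [← r2]
  exact mul_mem (mul_mem (inv_mem k4') (mul_mem (mul_mem k3 k4) (inv_mem k3))) k4'

/-- genus 1 piece -/
theorem pieceT {y δ u1 u2 : G} (hδ : δ ∈ H)
    (r1 : y * u1 = u2 * y)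
    (hb : u1 * δ * u1 = δ * u1 * δ) (hc2 : Commute u2 δ)
    (hK : (u1 * (y * u1⁻¹ * y⁻¹)) * δ * (u1 * (y * u1⁻¹ * y⁻¹))⁻¹ ∈ H) :
    u1 ∈ H := by
  have e1 : y * u1⁻¹ * y⁻¹ = u2⁻¹ := by
    have : u2 = y * u1 * y⁻¹ := by rw [r1]; group
    rw [this]; group
  rw [e1] at hK
  have e2 : (u1 * u2⁻¹) * δ * (u1 * u2⁻¹)⁻¹ = u1 * δ * u1⁻¹ := by
    calc (u1 * u2⁻¹) * δ * (u1 * u2⁻¹)⁻¹ = u1 * (u2⁻¹ * δ) * u2 * u1⁻¹ := by group
      _ = u1 * (δ * u2⁻¹) * u2 * u1⁻¹ := by rw [hc2.inv_left.eq]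
      _ = _ := by group
  rw [e2] at hK
  exact mem_of_braid hb hδ hK

end abstract

end Pool.Agent.H808
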