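import Pool.Agent.H808.PieceW

namespace Pool.Agent.H808

variable {g : ℕ}

/-- positive word of a list of twists -/
def cw (l : List Tw) : TWord := l.map fun T => (T, false)

/-- square of the product of a chain -/
def cV (l : List Tw) : TWord := wpow (cw l) 2

/-- `i`-th element of a chain -/
def uu (g o : ℕ) (l : List Tw) (i : ℕ) : MulAut (SurfaceGroup g) :=
  tw g ((l.getD (i - 1) (.A 0)).shift o)

/-- shift relations of a chain -/
def chkR (n : ℕ) (l : List Tw) : Bool :=
  (List.range (l.length - 2)).all fun i =>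
    checkRel n (cV l ++ [(l.getD i (.A 0), false)]) ((l.getD (i + 2) (.A 0), false) :: cV l)

theorem uu_r (n o : ℕ) (l : List Tw) (hv : ∀ T ∈ l, T.valid n) (hc : chkR n l = true)
    (ho : o + n ≤ g) (i : ℕ) (h1 : 1 ≤ i) (h2 : i + 2 ≤ l.length) :
    prodW g o (cV l) * uu g o l i = uu g o l (i + 2) * prodW g o (cV l) := by
  simp only [chkR, List.all_eq_true, List.mem_range] at hc
  have h3 := hc (i - 1) (by omega)
  have hVv : validW n (cV l) := by
    intro p hp
    simp only [cV, wpow, cw, List.append_nil, List.mem_append, List.mem_map, or_self] at hp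
    obtain ⟨T, hT, rfl⟩ := hp
    exact hv T hT
  have hg1 : (l.getD (i - 1) (.A 0)).valid n := by
    rw [List.getD_eq_getElem _ _ (by omega : i - 1 < l.length)]
    exact hv _ (List.getElem_mem _)
  have hg2 : (l.getD (i - 1 + 2) (.A 0)).valid n := by
    rw [List.getD_eq_getElem _ _ (by omega : i - 1 + 2 < l.length)]
    exact hv _ (List.getElem_mem _)
  have h4 := rel_of_check n _ _ (by
      intro p hp
      rcases List.mem_append.1 hp with hp | hp
      · exact hVv p hp
      · rw [List.mem_singleton] at hp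
        rw [hp]; exact hg1) (by
      intro p hp
      rcases List.mem_cons.1 hp with hp | hp
      · rw [hp]; exact hg2
      · exact hVv p hp) h3 o ho
  rw [prodW_append, prodW_cons, prodW_nil, prodW_cons, mul_one] at h4
  have h5 : i - 1 + 2 = i + 2 - 1 := by omega
  rw [h5] at h4
  exact h4

def ch2 : List Tw := [.B 1, .C 0, .B 0, .A 0]
def ch3 : List Tw := [.A 2, .B 2, .C 1, .B 1, .C 0, .B 0, .A 0]
def ch4 : List Tw := [.A 3, .B 3, .C 2, .B 2, .C 1, .B 1, .C 0, .B 0, .A 0]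
def ch4R : List Tw := [.A 0, .B 0, .C 0, .B 1, .C 1, .B 2, .C 2, .B 3, .A 3]

theorem ch2_r : chkR 2 ch2 = true := by decide +kernel
theorem ch2_r3 : checkRel 2 (wpow (cV ch2) 3 ++ [lB 1]) (lC 0 :: wpow (cV ch2) 3) = true := by
  decide +kernel
theorem ch3_r : chkR 3 ch3 = true := by decide +kernel
theorem ch4_r : chkR 4 ch4 = true := by decide +kernel
theorem ch4R_r : chkR 4 ch4R = true := by decide +kernel

theorem ch2_tw : checkTw 2 (wpow (cV ch2) 5) = true := by decide +kernel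
theorem ch3_tw : checkTw 3 (wpow (cV ch3) 4) = true := by decide +kernel
theorem ch4_tw : checkTw 4 (wpow (cV ch4) 5) = true := by decide +kernel
theorem ch4R_tw : checkTw 4 (wpow (cV ch4R) 5) = true := by decide +kernel

theorem cV_mem (n o : ℕ) (l : List Tw) (hv : validW n (cV l)) : prodW g o (cV l) ∈ SupG g o n :=
  prodW_mem_SupG _ _ _ hv

theorem rec_ch2 (hg : 3 ≤ g) : RecL g 2 (prodW g 0 (cV ch2)) (tw g (.B 1)) := by
  intro H y hy hyu hδ hK s hs
  have hc := chainEA (g := g) (by omega)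
  have hV : prodW g 0 (cV ch2) ∈ SupG g 0 2 := cV_mem 2 0 _ (by decide)
  have hur := uu_r (g := g) 2 0 ch2 (by decide) ch2_r (by omega)
  have e0 : EE g 0 = tw g (.B 0) := EE_even 0
  have e1 : EE g 1 = tw g (.C 0) := EE_odd 0
  have e2 : EE g 2 = tw g (.B 1) := EE_even 1
  have e3 : EE g 3 = tw g (.C 1) := EE_odd 1
  have r1 : y * tw g (.B 1) = tw g (.B 0) * y :=
    r_of_rel (hyu _ (tw_mem_of _ (by simp [Tw.lo]) (by simp [Tw.lo, Tw.len])))
      (hur 1 (by omega) (by decide))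
  have r2 : y * tw g (.C 0) = tw g (.A 0) * y :=
    r_of_rel (hyu _ (tw_mem_of _ (by simp [Tw.lo]) (by simp [Tw.lo, Tw.len])))
      (hur 2 (by omega) (by decide))
  have r3 : y * (y * (y * tw g (.B 1))) = tw g (.C 0) * (y * (y * y)) := by
    have h3 := rel_of_check 2 _ _ (by decide) (by decide) ch2_r3 0 (show 0 + 2 ≤ g by omega)
    rw [prodW_append, prodW_cons, prodW_nil, prodW_cons, mul_one, prodW_wpow] at h3
    set V := prodW g 0 (cV ch2) with hVdef
    have hB : tw g (.B 1) ∈ SupG g 0 2 := tw_mem_of _ (by simp [Tw.lo]) (by simp [Tw.lo, Tw.len])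
    have hB1 : V * tw g (.B 1) * V⁻¹ ∈ SupG g 0 2 := mul_mem (mul_mem hV hB) (inv_mem hV)
    have hB2 : V * (V * tw g (.B 1) * V⁻¹) * V⁻¹ ∈ SupG g 0 2 :=
      mul_mem (mul_mem hV hB1) (inv_mem hV)
    have k1 := hyu _ hB
    have k2 := hyu _ hB1
    have k3 := hyu _ hB2
    have h4 : V * (V * (V * tw g (.B 1) * V⁻¹) * V⁻¹) * V⁻¹ = tw g (.C 0) := by
      have h5 : V ^ 3 * tw g (.B 1) = tw g (.C 0) * V ^ 3 := h3
      calc V * (V * (V * tw g (.B 1) * V⁻¹) * V⁻¹) * V⁻¹
          = (V ^ 3 * tw g (.B 1)) * (V ^ 3)⁻¹ := by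
            rw [show V ^ 3 = V * V * V by rw [pow_succ, pow_two]]; group
        _ = _ := by rw [h5]; group
    calc y * (y * (y * tw g (.B 1))) = y * (y * ((V * tw g (.B 1) * V⁻¹) * y)) := by rw [k1]
      _ = y * ((y * (V * tw g (.B 1) * V⁻¹)) * y) := by simp only [mul_assoc]
      _ = y * (((V * (V * tw g (.B 1) * V⁻¹) * V⁻¹) * y) * y) := by rw [k2]
      _ = (y * (V * (V * tw g (.B 1) * V⁻¹) * V⁻¹)) * (y * y) := by simp only [mul_assoc]
      _ = _ := by rw [k3, h4, mul_assoc]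
  have hb := hc.br 2 (by omega)
  rw [show 2 + 1 = 3 by rfl, e2, e3] at hb
  have hδ' : tw g (.C 1) ∈ H := by rw [← e3]; exact hδ
  have key := piece4 (H := H) hy hδ' r1 r2 r3 hb (tw_comm_disj _ _ (by simp [Tw.lo, Tw.len]))
    (hK _ hδ' (tw_mem_of _ (by simp [Tw.lo]) (by simp [Tw.lo, Tw.len])))
  obtain rfl | rfl | rfl : s = 0 ∨ s = 1 ∨ s = 2 := by omega
  · rw [e0]; exact key.2.2.1
  · rw [e1]; exact key.2.1
  · rw [e2]; exact key.1

theorem rec_ch3 (hg : 4 ≤ g) :
    RecL g 3 (prodW g 0 (cV ch3)) (tw g (.B 2) * tw g (.C 0)) := by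
  intro H y hy hyu hδ hK s hs
  have hc := chainEA (g := g) (by omega)
  have hur := uu_r (g := g) 3 0 ch3 (by decide) ch3_r (by omega)
  have e1 : EE g 1 = tw g (.C 0) := EE_odd 0
  have e2 : EE g 2 = tw g (.B 1) := EE_even 1
  have e4 : EE g 4 = tw g (.B 2) := EE_even 2
  have e5 : EE g 5 = tw g (.C 2) := EE_odd 2
  have hδ' : tw g (.C 2) ∈ H := by rw [← e5]; exact hδ
  have hsup : ∀ i, 1 ≤ i → i ≤ 7 → uu g 0 ch3 i ∈ SupG g 0 3 := by
    intro i h1 h2
    interval_cases i <;>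
      exact tw_mem_of _ (by simp [Tw.lo, ch3, Tw.shift]) (by simp [Tw.lo, Tw.len, ch3, Tw.shift])
  have key := pieceOdd (H := H) (y := y) (δ := tw g (.C 2)) (u := uu g 0 ch3) (N := 7) le_rfl
    hy hδ'
    (by
      intro i h1 h2
      exact r_of_rel (hyu _ (hsup i h1 (by omega))) (hur i h1 (by simpa [ch3] using h2)))
    (by
      have hb := hc.br 4 (by omega)
      rw [show 4 + 1 = 5 by rfl, e4, e5] at hb
      exact hb)
    (by
      intro i h1 h2
      interval_cases i <;> exact tw_comm_disj _ _ (by simp [Tw.lo, Tw.len, Tw.shift, ch3]))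
    (by
      have hb := hc.br 1 (by omega)
      rw [show 1 + 1 = 2 by rfl, e1, e2] at hb
      exact hb)
    (tw_comm_disj _ _ (by simp [Tw.lo, Tw.len, Tw.shift, ch3]))
    (tw_comm_disj _ _ (by simp [Tw.lo, Tw.len, Tw.shift, ch3]))
    (tw_comm_disj _ _ (by simp [Tw.lo, Tw.len, Tw.shift, ch3]))
    (by
      intro v hv hv2
      refine hK v hv ?_
      rcases hv2 with rfl | rfl
      · exact tw_mem_of _ (by simp [Tw.lo]) (by simp [Tw.lo, Tw.len])
      · exact SupG_mono (by omega) (by omega) (hsup 4 (by omega) (by omega)))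
  obtain rfl | rfl | rfl | rfl | rfl : s = 0 ∨ s = 1 ∨ s = 2 ∨ s = 3 ∨ s = 4 := by omega
  · exact key 6 (by omega) (by omega)
  · exact key 5 (by omega) (by omega)
  · exact key 4 (by omega) (by omega)
  · exact key 3 (by omega) (by omega)
  · exact key 2 (by omega) (by omega)

theorem rec_ch4 (hg : 5 ≤ g) :
    RecL g 4 (prodW g 0 (cV ch4)) (tw g (.B 3) * tw g (.C 1)) := by
  intro H y hy hyu hδ hK s hs
  have hc := chainEA (g := g) (by omega)
  have hur := uu_r (g := g) 4 0 ch4 (by decide) ch4_r (by omega)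
  have e3 : EE g 3 = tw g (.C 1) := EE_odd 1
  have e4 : EE g 4 = tw g (.B 2) := EE_even 2
  have e6 : EE g 6 = tw g (.B 3) := EE_even 3
  have e7 : EE g 7 = tw g (.C 3) := EE_odd 3
  have hδ' : tw g (.C 3) ∈ H := by rw [← e7]; exact hδ
  have hsup : ∀ i, 1 ≤ i → i ≤ 9 → uu g 0 ch4 i ∈ SupG g 0 4 := by
    intro i h1 h2
    interval_cases i <;>
      exact tw_mem_of _ (by simp [Tw.lo, ch4, Tw.shift]) (by simp [Tw.lo, Tw.len, ch4, Tw.shift])
  have key := pieceOdd (H := H) (y := y) (δ := tw g (.C 3)) (u := uu g 0 ch4) (N := 9) (by omega)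
    hy hδ'
    (by
      intro i h1 h2
      exact r_of_rel (hyu _ (hsup i h1 (by omega))) (hur i h1 (by simpa [ch4] using h2)))
    (by
      have hb := hc.br 6 (by omega)
      rw [show 6 + 1 = 7 by rfl, e6, e7] at hb
      exact hb)
    (by
      intro i h1 h2
      interval_cases i <;> exact tw_comm_disj _ _ (by simp [Tw.lo, Tw.len, Tw.shift, ch4]))
    (by
      have hb := hc.br 3 (by omega)
      rw [show 3 + 1 = 4 by rfl, e3, e4] at hb
      exact hb)
    (tw_comm_disj _ _ (by simp [Tw.lo, Tw.len, Tw.shift, ch4]))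
    (tw_comm_disj _ _ (by simp [Tw.lo, Tw.len, Tw.shift, ch4]))
    (tw_comm_disj _ _ (by simp [Tw.lo, Tw.len, Tw.shift, ch4]))
    (by
      intro v hv hv2
      refine hK v hv ?_
      rcases hv2 with rfl | rfl
      · exact tw_mem_of _ (by simp [Tw.lo]) (by simp [Tw.lo, Tw.len])
      · exact SupG_mono (by omega) (by omega) (hsup 4 (by omega) (by omega)))
  obtain rfl | rfl | rfl | rfl | rfl | rfl | rfl :
    s = 0 ∨ s = 1 ∨ s = 2 ∨ s = 3 ∨ s = 4 ∨ s = 5 ∨ s = 6 := by omega
  · exact key 8 (by omega) (by omega)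
  · exact key 7 (by omega) (by omega)
  · exact key 6 (by omega) (by omega)
  · exact key 5 (by omega) (by omega)
  · exact key 4 (by omega) (by omega)
  · exact key 3 (by omega) (by omega)
  · exact key 2 (by omega) (by omega)

theorem rec_ch4R (p : ℕ) (hp : 1 ≤ p) (hg : p + 4 ≤ g) :
    RecR g p 4 (prodW g p (cV ch4R)) (tw g (.B p) * tw g (.C (p + 1))) := by
  intro H y hy hyu hδ hK s hs hs'
  have hc := chainEA (g := g) (by omega)
  have hur := uu_r (g := g) 4 p ch4R (by decide) ch4R_r (by omega)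
  have e0 : EE g (2 * p) = tw g (.B p) := EE_even p
  have e1 : EE g (2 * p + 2) = tw g (.B (p + 1)) := EE_even (p + 1)
  have e3 : EE g (2 * p + 3) = tw g (.C (p + 1)) := EE_odd (p + 1)
  obtain ⟨q, rfl⟩ : ∃ q, p = q + 1 := ⟨p - 1, by omega⟩
  have ed : EE g (2 * (q + 1) - 1) = tw g (.C q) := EE_odd q
  rw [ed] at hδ
  have hsup : ∀ i, 1 ≤ i → i ≤ 9 → uu g (q + 1) ch4R i ∈ SupG g (q + 1) 4 := by
    intro i h1 h2
    interval_cases i <;>
      exact tw_mem_of _ (by simp [Tw.lo, ch4R, Tw.shift]; try omega) (by simp [Tw.lo, Tw.len, ch4R, Tw.shift]; try omega)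
  have key := pieceOdd (H := H) (y := y) (δ := tw g (.C q)) (u := uu g (q + 1) ch4R) (N := 9)
    (by omega) hy hδ
    (by
      intro i h1 h2
      exact r_of_rel (hyu _ (hsup i h1 (by omega))) (hur i h1 (by simpa [ch4R] using h2)))
    (by
      have hb := hc.br (2 * q + 1) (by omega)
      rw [show 2 * q + 1 + 1 = 2 * (q + 1) by ring, e0, EE_odd] at hb
      exact hb.symm)
    (by
      intro i h1 h2
      interval_cases i <;>
        exact tw_comm_disj _ _ (by simp [Tw.lo, Tw.len, Tw.shift, ch4R]; try omega))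
    (by
      have hb := hc.br (2 * (q + 1) + 2) (by omega)
      rw [show 2 * (q + 1) + 2 + 1 = 2 * (q + 1) + 3 by ring, e1, e3] at hb
      exact hb.symm)
    (tw_comm_disj _ _ (by simp [Tw.lo, Tw.len, Tw.shift, ch4R]))
    (tw_comm_disj _ _ (by simp [Tw.lo, Tw.len, Tw.shift, ch4R]))
    (tw_comm_disj _ _ (by simp [Tw.lo, Tw.len, Tw.shift, ch4R]))
    (by
      intro v hv hv2
      refine hK v hv ?_
      rcases hv2 with rfl | rfl
      · exact tw_mem_of _ (by simp [Tw.lo]) (by simp [Tw.lo, Tw.len])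
      · exact SupG_mono (by omega) (by omega) (hsup 4 (by omega) (by omega)))
  obtain ⟨j, hj, rfl⟩ : ∃ j, j ≤ 6 ∧ s = 2 * (q + 1) + j := ⟨s - 2 * (q + 1), by omega, by omega⟩
  have k2 : EE g (2 * (q + 1)) ∈ H := by rw [EE_even]; exact key 2 (by omega) (by omega)
  have k3 : EE g (2 * (q + 1) + 1) ∈ H := by rw [EE_odd]; exact key 3 (by omega) (by omega)
  have k4 : EE g (2 * (q + 1 + 1)) ∈ H := by rw [EE_even]; exact key 4 (by omega) (by omega)
  have k5 : EE g (2 * (q + 1 + 1) + 1) ∈ H := by rw [EE_odd]; exact key 5 (by omega) (by omega)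
  have k6 : EE g (2 * (q + 1 + 2)) ∈ H := by rw [EE_even]; exact key 6 (by omega) (by omega)
  have k7 : EE g (2 * (q + 1 + 2) + 1) ∈ H := by rw [EE_odd]; exact key 7 (by omega) (by omega)
  have k8 : EE g (2 * (q + 1 + 3)) ∈ H := by rw [EE_even]; exact key 8 (by omega) (by omega)
  interval_cases j
  · exact k2
  · exact k3
  · exact k4
  · exact k5
  · exact k6
  · exact k7
  · exact k8

end Pool.Agent.H808
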