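import Pool.Agent.H808.Piece

namespace Pool.Agent.H808

variable {g : ℕ}

/-- inverse word -/
def iw (W : TWord) : TWord := (W.map fun p => (p.1, !p.2)).reverse

theorem twe_not (p : Tw × Bool) : twe g (p.1, !p.2) = (twe g p)⁻¹ := by
  rcases p with ⟨T, e⟩
  cases e <;> simp [twe]

theorem prodW_iw (o : ℕ) (W : TWord) : prodW g o (iw W) = (prodW g o W)⁻¹ := by
  induction W with
  | nil => simp [iw, prodW_nil]
  | cons p W ih =>
    have : iw (p :: W) = iw W ++ [(p.1, !p.2)] := by simp [iw]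
    rw [this, prodW_append, ih, prodW_cons, prodW_cons, prodW_nil, mul_one, mul_inv_rev]
    congr 1
    exact twe_not (p.1.shift o, p.2)

/-- recovery property of a central piece -/
def RecL (g f : ℕ) (V w : MulAut (SurfaceGroup g)) : Prop :=
  ∀ (H : Subgroup (MulAut (SurfaceGroup g))) (y : MulAut (SurfaceGroup g)), y ∈ H →
    (∀ u ∈ SupG g 0 f, y * u = (V * u * V⁻¹) * y) → EE g (2 * f - 1) ∈ H →
    (∀ v ∈ H, v ∈ SupG g 0 (f + 1) → (w * (y * w⁻¹ * y⁻¹)) * v * (w * (y * w⁻¹ * y⁻¹))⁻¹ ∈ H) →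
    ∀ s, s + 2 ≤ 2 * f → EE g s ∈ H

/-- recovery property of an outer piece -/
def RecR (g p l : ℕ) (V w : MulAut (SurfaceGroup g)) : Prop :=
  ∀ (H : Subgroup (MulAut (SurfaceGroup g))) (y : MulAut (SurfaceGroup g)), y ∈ H →
    (∀ u ∈ SupG g p l, y * u = (V * u * V⁻¹) * y) → EE g (2 * p - 1) ∈ H →
    (∀ v ∈ H, v ∈ SupG g (p - 1) (l + 1) →
      (w * (y * w⁻¹ * y⁻¹)) * v * (w * (y * w⁻¹ * y⁻¹))⁻¹ ∈ H) →
    ∀ s, 2 * p ≤ s → s + 2 ≤ 2 * (p + l) → EE g s ∈ H

theorem r_of_rel {G : Type*} [Group G] {y V u u' : G} (h : y * u = (V * u * V⁻¹) * y)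
    (hr : V * u = u' * V) : y * u = u' * y := by
  rw [h, hr]; group

theorem tw_mem_of (T : Tw) {i l : ℕ} (h1 : i ≤ T.lo) (h2 : T.lo + T.len ≤ i + l) :
    tw g T ∈ SupG g i l := SupG_mono h1 h2 (tw_mem_SupG T)

/-! ### genus one piece -/

def VT : TWord := [lB 0, lA 0, lB 0]
theorem VT_valid : validW 1 VT := by decide
theorem VT_chk : checkTw 1 (wpow VT 4) = true := by decide +kernel
theorem VT_val4 : validW 1 (wpow VT 4) := by decide
theorem VT_r : checkRel 1 (VT ++ [lB 0]) (lA 0 :: VT) = true := by decide +kernel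

theorem rec_T (hg : 2 ≤ g) : RecL g 1 (prodW g 0 VT) (tw g (.B 0)) := by
  intro H y hy hyu hδ hK s hs
  have hc := chainEA (g := g) (by omega)
  have hr := rel_of_check 1 _ _ (by decide) (by decide) VT_r 0 (show 0 + 1 ≤ g by omega)
  rw [prodW_append, prodW_cons, prodW_nil, prodW_cons, mul_one] at hr
  have r1 := r_of_rel (hyu (tw g (.B 0)) (tw_mem_of _ (by simp [Tw.lo]) (by simp [Tw.lo, Tw.len])))
    hr
  have e0 : EE g 0 = tw g (.B 0) := EE_even 0
  have e1 : EE g 1 = tw g (.C 0) := EE_odd 0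
  have hb := hc.br 0 (by omega)
  rw [zero_add, e0, e1] at hb
  have hδ' : tw g (.C 0) ∈ H := by rw [← e1]; exact hδ
  obtain rfl : s = 0 := by omega
  rw [e0]
  refine pieceT (y := y) hδ' r1 hb (comm_AC 0) ?_
  exact hK _ hδ' (tw_mem_of _ (by simp [Tw.lo]) (by simp [Tw.lo, Tw.len]))

/-! ### genus two piece of type B -/

def chB : TWord := [lB 1, lC 0, lB 0, lA 0, lA 0]
def VB : TWord := wpow chB 2
theorem VB_valid : validW 2 VB := by decide
theorem VB_chk : checkTw 2 (wpow VB 4) = true := by decide +kernel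
theorem VB_val4 : validW 2 (wpow VB 4) := by decide
def uB4' : TWord := VB ++ ([lA 0] ++ iw VB)
theorem VB_r1 : checkRel 2 (VB ++ [lB 1]) (lB 0 :: VB) = true := by decide +kernel
theorem VB_r2 : checkRel 2 ([lB 0, lA 0, lB' 0] ++ uB4') (uB4' ++ [lC 0]) = true := by
  decide +kernel
theorem VB_c3 : checkRel 2 (uB4' ++ [lB 0]) (lB 0 :: uB4') = true := by decide +kernel
theorem VB_cd : checkRel 3 (uB4' ++ [lC 1]) (lC 1 :: uB4') = true := by decide +kernel

theorem rec_B (hg : 3 ≤ g) : RecL g 2 (prodW g 0 VB) (tw g (.B 1) * tw g (.A 0)) := by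
  intro H y hy hyu hδ hK s hs
  have hc := chainEA (g := g) (by omega)
  have hu4' : prodW g 0 uB4' = prodW g 0 VB * tw g (.A 0) * (prodW g 0 VB)⁻¹ := by
    rw [uB4', prodW_append, prodW_append, prodW_iw, prodW_cons, prodW_nil, mul_one, ← mul_assoc]
    rfl
  have hr1 := rel_of_check 2 _ _ (by decide) (by decide) VB_r1 0 (show 0 + 2 ≤ g by omega)
  rw [prodW_append, prodW_cons, prodW_nil, prodW_cons, mul_one] at hr1
  have hr2 := rel_of_check 2 _ _ (by decide) (by decide) VB_r2 0 (show 0 + 2 ≤ g by omega)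
  rw [prodW_append, prodW_append] at hr2
  simp only [prodW_cons, prodW_nil, mul_one, Tw.shift, add_zero, twe_false, twe_true] at hr2
  have hc3 := rel_of_check 2 _ _ (by decide) (by decide) VB_c3 0 (show 0 + 2 ≤ g by omega)
  rw [prodW_append] at hc3
  simp only [prodW_cons, prodW_nil, mul_one, Tw.shift, add_zero, twe_false] at hc3
  have hcd := rel_of_check 3 _ _ (by decide) (by decide) VB_cd 0 (show 0 + 3 ≤ g by omega)
  rw [prodW_append] at hcd
  simp only [prodW_cons, prodW_nil, mul_one, Tw.shift, add_zero, twe_false, zero_add] at hcd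
  have r1 := r_of_rel (hyu (tw g (.B 1)) (tw_mem_of _ (by simp [Tw.lo]) (by simp [Tw.lo, Tw.len])))
    hr1
  have r4 : y * tw g (.A 0) = prodW g 0 uB4' * y := by
    rw [hu4']
    exact hyu (tw g (.A 0)) (tw_mem_of _ (by simp [Tw.lo]) (by simp [Tw.lo, Tw.len]))
  have e0 : EE g 0 = tw g (.B 0) := EE_even 0
  have e1 : EE g 1 = tw g (.C 0) := EE_odd 0
  have e2 : EE g 2 = tw g (.B 1) := EE_even 1
  have e3 : EE g 3 = tw g (.C 1) := EE_odd 1
  have hb := hc.br 2 (by omega)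
  rw [show 2 + 1 = 3 by rfl, e2, e3] at hb
  have hδ' : tw g (.C 1) ∈ H := by rw [← e3]; exact hδ
  have hab := hc.abr 0 (by omega)
  rw [mul_zero, e0] at hab
  have c03 : Commute (tw g (.B 0)) (tw g (.C 1)) := tw_comm_disj _ _ (by simp [Tw.lo, Tw.len])
  have hA01 : Commute (tw g (.A 0)) (tw g (.C 1)) := tw_comm_disj _ _ (by simp [Tw.lo, Tw.len])
  have c20 : Commute (tw g (.B 1)) (tw g (.B 0)) := tw_comm_disj _ _ (by simp [Tw.lo, Tw.len])
  have hA10 : Commute (tw g (.B 1)) (tw g (.A 0)) := tw_comm_disj _ _ (by simp [Tw.lo, Tw.len])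
  have hrr : (prodW g 0 uB4')⁻¹ * (tw g (.B 0) * tw g (.A 0) * (tw g (.B 0))⁻¹) * prodW g 0 uB4' =
      tw g (.C 0) := by
    have h5 : tw g (.B 0) * tw g (.A 0) * (tw g (.B 0))⁻¹ * prodW g 0 uB4' =
        prodW g 0 uB4' * tw g (.C 0) := by
      simpa only [mul_assoc, zero_add] using hr2
    rw [mul_assoc, h5]; group
  have key := pieceB (H := H) (y := y) (δ := tw g (.C 1)) (u1 := tw g (.B 1)) (u2 := tw g (.C 0))
    (u3 := tw g (.B 0)) (u4 := tw g (.A 0)) (u4' := prodW g 0 uB4') hy hδ' r1 r4 hrr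
    hb c03 hA01 hcd hab hc3 c20 hA10 (by
      intro v hv hv2
      apply hK v hv
      rcases hv2 with rfl | rfl
      · exact tw_mem_of _ (by simp [Tw.lo]) (by simp [Tw.lo, Tw.len])
      · exact tw_mem_of _ (by simp [Tw.lo]) (by simp [Tw.lo, Tw.len]))
  obtain rfl | rfl | rfl : s = 0 ∨ s = 1 ∨ s = 2 := by omega
  · rw [e0]; exact key.2.2
  · rw [e1]; exact key.2.1
  · rw [e2]; exact key.1

end Pool.Agent.H808
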