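import Pool.Agent.H808.Local

namespace Pool.Agent.H808

variable {g : ℕ}

/-- conj lemma for boundary words -/
theorem aut_Zf_conj (φ : MulAut (SurfaceGroup g)) (u : SurfaceGroup g) (i i' l : ℕ)
    (h : ∀ r c, r < l → φ (gn g (i + r) c) = u⁻¹ * gn g (i' + r) c * u) :
    φ (Zf (gn g) i l) = u⁻¹ * Zf (gn g) i' l * u := by
  induction l with
  | zero => simp [Zf]
  | succ l ih =>
    rw [Zf, Zf, map_mul, ih (fun r c hr => h r c (by omega)), cmt]
    simp only [map_mul, map_inv, h l _ (Nat.lt_succ_self l), cmt]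
    group

/-- the word of the handle swap -/
def swapW : TWord :=
  [lA 0, lB 0, lC 0, lB 1, lA 1, lA 0, lB 0, lC 0, lB 1, lA 0, lB 0, lC 0, lA 0, lB 0, lA 0] ++
  (wpow [lB' 0, lA' 0] 3 ++ wpow [lB' 1, lA' 1] 3)

theorem swapW_valid : validW 2 swapW := by decide

theorem swapW_act0 : act swapW [4 * 0] = [4 * 1] := by decide +kernel
theorem swapW_act2 : act swapW [4 * 0 + 2] = [4 * 1 + 2] := by decide +kernel
theorem swapW_act4 : act swapW [4 * 1] = [6, 4, 7, 5, 0, 4, 6, 5, 7] := by decide +kernel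
theorem swapW_act6 : act swapW [4 * 1 + 2] = [6, 4, 7, 5, 2, 4, 6, 5, 7] := by decide +kernel

/-- the handle swap -/
def sw (g t : ℕ) : MulAut (SurfaceGroup g) := prodW g t swapW

/-- commutator of the `t`-th handle -/
def wc (g t : ℕ) : SurfaceGroup g := cmt (gn g t false) (gn g t true)

theorem Zf_one (t : ℕ) : Zf (gn g) t 1 = wc g t := by simp [Zf, wc]

theorem sw_mem (t : ℕ) : sw g t ∈ SupG g t 2 := prodW_mem_SupG _ _ _ swapW_valid

theorem gn_eq_ev_false (t s : ℕ) : gn g (t + s) false = ev g t [4 * s] := by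
  rw [ev_cons, ev_nil, ev1_0, mul_one]

theorem gn_eq_ev_true (t s : ℕ) : gn g (t + s) true = ev g t [4 * s + 2] := by
  rw [ev_cons, ev_nil, ev1_2, mul_one]

theorem sw_lo (t : ℕ) (ht : t + 2 ≤ g) (c : Bool) : sw g t (gn g t c) = gn g (t + 1) c := by
  cases c
  · have h : sw g t (ev g t [4 * 0]) = ev g t [4 * 1] := by
      rw [sw, act_sound swapW t 2 swapW_valid ht [4 * 0], swapW_act0]
    have e0 : gn g t false = ev g t [4 * 0] := gn_eq_ev_false (g := g) t 0
    have e1 := gn_eq_ev_false (g := g) t 1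
    rw [e0, e1, h]
  · have h : sw g t (ev g t [4 * 0 + 2]) = ev g t [4 * 1 + 2] := by
      rw [sw, act_sound swapW t 2 swapW_valid ht [4 * 0 + 2], swapW_act2]
    have e0 : gn g t true = ev g t [4 * 0 + 2] := gn_eq_ev_true (g := g) t 0
    have e1 := gn_eq_ev_true (g := g) t 1
    rw [e0, e1, h]

theorem sw_hi (t : ℕ) (ht : t + 2 ≤ g) (c : Bool) :
    sw g t (gn g (t + 1) c) = (wc g (t + 1))⁻¹ * gn g t c * wc g (t + 1) := by
  have e0 : ev1 g t 0 = gn g t false := ev1_0 t 0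
  have e2 : ev1 g t 2 = gn g t true := ev1_2 t 0
  have e4 : ev1 g t 4 = gn g (t+1) false := ev1_0 t 1
  have e5 : ev1 g t 5 = (gn g (t+1) false)⁻¹ := ev1_1 t 1
  have e6 : ev1 g t 6 = gn g (t+1) true := ev1_2 t 1
  have e7 : ev1 g t 7 = (gn g (t+1) true)⁻¹ := ev1_3 t 1
  cases c
  · have h : sw g t (ev g t [4 * 1]) = ev g t [6, 4, 7, 5, 0, 4, 6, 5, 7] := by
      rw [sw, act_sound swapW t 2 swapW_valid ht [4 * 1], swapW_act4]
    have e1 := gn_eq_ev_false (g := g) t 1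
    rw [← e1] at h
    rw [h]
    simp only [ev_cons, ev_nil, e0, e4, e5, e6, e7, wc, cmt]
    group
  · have h : sw g t (ev g t [4 * 1 + 2]) = ev g t [6, 4, 7, 5, 2, 4, 6, 5, 7] := by
      rw [sw, act_sound swapW t 2 swapW_valid ht [4 * 1 + 2], swapW_act6]
    have e1 := gn_eq_ev_true (g := g) t 1
    rw [← e1] at h
    rw [h]
    simp only [ev_cons, ev_nil, e2, e4, e5, e6, e7, wc, cmt]
    group

theorem sw_out (t s : ℕ) (c : Bool) (h : s < t ∨ t + 2 ≤ s) : sw g t (gn g s c) = gn g s c :=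
  SupG_fix_gn (sw_mem t) c h

/-- the full twist of one handle -/
def ta (g t : ℕ) : MulAut (SurfaceGroup g) := prodW g t (wpow [lA 0, lB 0] 6)

theorem taW_valid : validW 1 (wpow [lA 0, lB 0] 6) := by decide

theorem ta_chk : checkTw 1 (wpow [lA 0, lB 0] 6) = true := by decide +kernel

theorem ta_mem (t : ℕ) : ta g t ∈ SupG g t 1 := prodW_mem_SupG _ _ _ taW_valid

theorem ta_gn (t : ℕ) (ht : t + 1 ≤ g) (c : Bool) :
    ta g t (gn g t c) = (wc g t)⁻¹ * gn g t c * wc g t := by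
  have := tw_of_check 1 _ taW_valid ta_chk t ht t c le_rfl (by omega)
  rwa [Zf_one] at this

theorem ta_out (t s : ℕ) (c : Bool) (h : s < t ∨ t + 1 ≤ s) : ta g t (gn g s c) = gn g s c :=
  SupG_fix_gn (ta_mem t) c h

/-- `s_j s_{j+1} ⋯ s_{j+l-1}` -/
def Rd (g j : ℕ) : ℕ → MulAut (SurfaceGroup g)
  | 0 => 1
  | l + 1 => Rd g j l * sw g (j + l)

theorem Rd_mem (j l : ℕ) : Rd g j l ∈ SupG g j (l + 1) := by
  induction l with
  | zero => exact one_mem _
  | succ l ih => exact mul_mem (SupG_mono le_rfl (by omega) ih) (SupG_mono (by omega) (by omega) (sw_mem _))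

theorem sw_TwG (t : ℕ) : sw g t ∈ TwG g := prodW_mem_TwG _ _
theorem ta_TwG (t : ℕ) : ta g t ∈ TwG g := prodW_mem_TwG _ _

theorem Rd_TwG (j l : ℕ) : Rd g j l ∈ TwG g := by
  induction l with
  | zero => exact one_mem _
  | succ l ih => exact mul_mem ih (sw_TwG _)

theorem Rd_out (j l s : ℕ) (c : Bool) (h : s < j ∨ j + l < s) :
    Rd g j l (gn g s c) = gn g s c := SupG_fix_gn (Rd_mem j l) c (by omega)

theorem Rd_lo (j l t : ℕ) (c : Bool) (h1 : j ≤ t) (h2 : t < j + l) (hg : j + l + 1 ≤ g) :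
    Rd g j l (gn g t c) = gn g (t + 1) c := by
  induction l with
  | zero => omega
  | succ l ih =>
    rw [Rd, MulAut.mul_apply]
    by_cases ht : t = j + l
    · subst ht
      rw [sw_lo _ (by omega), Rd_out _ _ _ _ (by omega)]
    · rw [sw_out _ _ _ (by omega), ih (by omega) (by omega)]

theorem Rd_hi (j l : ℕ) (c : Bool) (hg : j + l + 1 ≤ g) :
    Rd g j l (gn g (j + l) c) =
      (Zf (gn g) (j + 1) l)⁻¹ * gn g j c * Zf (gn g) (j + 1) l := by
  induction l with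
  | zero => simp [Rd, Zf]
  | succ l ih =>
    rw [Rd, MulAut.mul_apply, ← add_assoc, sw_hi _ (by omega), map_mul, map_mul, map_inv,
      ih (by omega)]
    have : Rd g j l (wc g (j + l + 1)) = wc g (j + l + 1) := by
      rw [← Zf_one]
      exact SupG_fix_Blk (Rd_mem j l) (by omega) (Zf_mem_Blk le_rfl le_rfl)
    rw [this, Zf, show j + 1 + l = j + l + 1 by omega]
    simp only [wc]
    group

/-- `s_{f-1} ⋯ s_0` -/
def Ld (g : ℕ) : ℕ → MulAut (SurfaceGroup g)
  | 0 => 1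
  | f + 1 => sw g f * Ld g f

theorem Ld_mem (f : ℕ) : Ld g f ∈ SupG g 0 (f + 1) := by
  induction f with
  | zero => exact one_mem _
  | succ l ih => exact mul_mem (SupG_mono (by omega) (by omega) (sw_mem _)) (SupG_mono le_rfl (by omega) ih)

theorem Ld_TwG (f : ℕ) : Ld g f ∈ TwG g := by
  induction f with
  | zero => exact one_mem _
  | succ l ih => exact mul_mem (sw_TwG _) ih

theorem Ld_zero (f : ℕ) (c : Bool) (hg : f + 1 ≤ g) : Ld g f (gn g 0 c) = gn g f c := by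
  induction f with
  | zero => rfl
  | succ f ih => rw [Ld, MulAut.mul_apply, ih (by omega), sw_lo _ (by omega)]

theorem Ld_pos (f r : ℕ) (c : Bool) (hg : f + 1 ≤ g) (hr : r < f) :
    Ld g f (gn g (r + 1) c) = (wc g f)⁻¹ * gn g r c * wc g f := by
  induction f with
  | zero => omega
  | succ f ih =>
    rw [Ld, MulAut.mul_apply]
    by_cases h : r = f
    · subst h
      rw [SupG_fix_gn (Ld_mem r) c (by omega), sw_hi _ (by omega)]
    · rw [ih (by omega) (by omega), map_mul, map_mul, map_inv, sw_out _ _ _ (by omega)]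
      have : sw g f (wc g f) = wc g (f + 1) := by
        simp only [wc, cmt, map_mul, map_inv, sw_lo f (by omega : f + 2 ≤ g)]
      rw [this]

/-- the rotation; `f` central handles, `n' + 1` handles rotated -/
def rot (g f n' : ℕ) : MulAut (SurfaceGroup g) :=
  Ld g f * Rd g 0 f * Rd g f n' * ta g (f + n')

theorem rot_TwG (f n' : ℕ) : rot g f n' ∈ TwG g :=
  mul_mem (mul_mem (mul_mem (Ld_TwG _) (Rd_TwG _ _)) (Rd_TwG _ _)) (ta_TwG _)

theorem rot_mem (f n' : ℕ) : rot g f n' ∈ SupG g 0 (f + n' + 1) :=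
  mul_mem (mul_mem (mul_mem (SupG_mono (by omega) (by omega) (Ld_mem _))
    (SupG_mono (by omega) (by omega) (Rd_mem _ _))) (SupG_mono (by omega) (by omega) (Rd_mem _ _)))
    (SupG_mono (by omega) (by omega) (ta_mem _))

theorem L_lo (f r : ℕ) (c : Bool) (hr : r < f) (hg : f + 1 ≤ g) :
    (Ld g f * Rd g 0 f) (gn g r c) = (wc g f)⁻¹ * gn g r c * wc g f := by
  rw [MulAut.mul_apply, Rd_lo _ _ _ _ (by omega) (by omega) (by omega), Ld_pos _ _ _ hg hr]

theorem L_hi (f : ℕ) (c : Bool) (hg : f + 1 ≤ g) :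
    (Ld g f * Rd g 0 f) (gn g f c) = ((wc g f)⁻¹ * Zf (gn g) 0 f * wc g f)⁻¹ * gn g f c *
      ((wc g f)⁻¹ * Zf (gn g) 0 f * wc g f) := by
  have h := Rd_hi (g := g) 0 f c (by omega)
  rw [zero_add] at h
  rw [MulAut.mul_apply, h, map_mul, map_mul, map_inv, Ld_zero _ _ hg]
  have h2 : Ld g f (Zf (gn g) (0 + 1) f) = (wc g f)⁻¹ * Zf (gn g) 0 f * wc g f := by
    apply aut_Zf_conj
    intro r c hr
    rw [show 0 + 1 + r = r + 1 by omega, Ld_pos _ _ _ hg hr, zero_add]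
  rw [h2]

theorem L_out (f s : ℕ) (c : Bool) (hs : f < s) :
    (Ld g f * Rd g 0 f) (gn g s c) = gn g s c := by
  rw [MulAut.mul_apply, Rd_out _ _ _ _ (by omega), SupG_fix_gn (Ld_mem f) c (by omega)]

theorem rot_lt (f n' r : ℕ) (c : Bool) (hr : r < f) (hg : f + n' + 1 ≤ g) :
    rot g f n' (gn g r c) = (wc g f)⁻¹ * gn g r c * wc g f := by
  rw [rot, MulAut.mul_apply, MulAut.mul_apply, ta_out _ _ _ (by omega), Rd_out _ _ _ _ (by omega),
    L_lo _ _ _ hr (by omega)]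

theorem rot_mid (f n' s : ℕ) (c : Bool) (h1 : f ≤ s) (h2 : s < f + n') (hg : f + n' + 1 ≤ g) :
    rot g f n' (gn g s c) = gn g (s + 1) c := by
  rw [rot, MulAut.mul_apply, MulAut.mul_apply, ta_out _ _ _ (by omega),
    Rd_lo _ _ _ _ (by omega) (by omega) (by omega), L_out _ _ _ (by omega)]

theorem rot_last (f n' : ℕ) (c : Bool) (hg : f + n' + 1 ≤ g) :
    rot g f n' (gn g (f + n') c) =
      (Zf (gn g) 0 (f + n' + 1))⁻¹ * gn g f c * Zf (gn g) 0 (f + n' + 1) := by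
  rw [rot, MulAut.mul_apply, MulAut.mul_apply, ta_gn _ (by omega)]
  have h1 : Rd g f n' (wc g (f + n')) =
      (Zf (gn g) (f + 1) n')⁻¹ * wc g f * Zf (gn g) (f + 1) n' := by
    simp only [wc, cmt, map_mul, map_inv, Rd_hi f n' _ hg]
    group
  simp only [map_mul, map_inv, h1, Rd_hi f n' _ hg]
  have h2 : (Ld g f * Rd g 0 f) (Zf (gn g) (f + 1) n') = Zf (gn g) (f + 1) n' :=
    SupG_fix_Blk (i := 0) (l := f + 1)
      (mul_mem (Ld_mem f) (SupG_mono (by omega) (by omega) (Rd_mem _ _)))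
      (by omega) (Zf_mem_Blk le_rfl le_rfl)
  have h3 : (Ld g f * Rd g 0 f) (wc g f) = ((wc g f)⁻¹ * Zf (gn g) 0 f * wc g f)⁻¹ * wc g f *
      ((wc g f)⁻¹ * Zf (gn g) 0 f * wc g f) := by
    rw [wc, cmt]
    simp only [map_mul, map_inv, L_hi f _ (by omega : f + 1 ≤ g)]
    simp only [wc, cmt]
    group
  simp only [h2, h3, L_hi f _ (by omega : f + 1 ≤ g)]
  have h4 : Zf (gn g) 0 (f + n' + 1) = Zf (gn g) 0 f * wc g f * Zf (gn g) (f + 1) n' := by
    rw [show f + n' + 1 = f + 1 + n' by omega, Zf_add, Zf_add, zero_add, zero_add, Zf_one]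
  rw [h4]
  group

theorem rot_out (f n' s : ℕ) (c : Bool) (hs : f + n' + 1 ≤ s) :
    rot g f n' (gn g s c) = gn g s c := SupG_fix_gn (rot_mem f n') c (by omega)

end Pool.Agent.H808
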