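import Pool.Agent.H808.Surf

namespace Pool.Agent.H808

variable {g : ℕ}

/-- Subgroup generated by the handles in `[i, i + l)`. -/
def Blk (g i l : ℕ) : Subgroup (SurfaceGroup g) :=
  Subgroup.closure {y | ∃ s c, i ≤ s ∧ s < i + l ∧ y = gn g s c}

theorem gn_mem_Blk {i l s : ℕ} (c : Bool) (h1 : i ≤ s) (h2 : s < i + l) :
    gn g s c ∈ Blk g i l := Subgroup.subset_closure ⟨s, c, h1, h2, rfl⟩

theorem Blk_mono {i l i' l' : ℕ} (h1 : i' ≤ i) (h2 : i + l ≤ i' + l') :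
    Blk g i l ≤ Blk g i' l' := by
  rw [Blk, Subgroup.closure_le]
  rintro _ ⟨s, c, h3, h4, rfl⟩
  exact gn_mem_Blk c (by omega) (by omega)

theorem Zf_mem_Blk {i l i' l' : ℕ} (h1 : i' ≤ i) (h2 : i + l ≤ i' + l') :
    Zf (gn g) i l ∈ Blk g i' l' := by
  induction l with
  | zero => exact one_mem _
  | succ l ih =>
    rw [Zf]
    refine mul_mem (ih (by omega)) ?_
    unfold cmt
    have ha : ∀ c, gn g (i + l) c ∈ Blk g i' l' := fun c => gn_mem_Blk c (by omega) (by omega)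
    exact mul_mem (mul_mem (mul_mem (ha _) (ha _)) (inv_mem (ha _))) (inv_mem (ha _))

theorem map_mem_Blk {i l : ℕ} (φ : MulAut (SurfaceGroup g)) (K : Subgroup (SurfaceGroup g))
    (h : ∀ s c, i ≤ s → s < i + l → φ (gn g s c) ∈ K) : ∀ y ∈ Blk g i l, φ y ∈ K := by
  intro y hy
  have : Blk g i l ≤ K.comap (φ : SurfaceGroup g →* SurfaceGroup g) := by
    rw [Blk, Subgroup.closure_le]
    rintro _ ⟨s, c, h3, h4, rfl⟩
    exact h s c h3 h4
  exact this hy

/-- fixed subgroup of an automorphism -/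
def Fix (φ : MulAut (SurfaceGroup g)) : Subgroup (SurfaceGroup g) where
  carrier := {y | φ y = y}
  one_mem' := map_one φ
  mul_mem' := by
    intro a b ha hb
    simp only [Set.mem_setOf_eq] at *
    rw [map_mul, ha, hb]
  inv_mem' := by
    intro a ha
    simp only [Set.mem_setOf_eq] at *
    rw [map_inv, ha]

theorem mem_Fix {φ : MulAut (SurfaceGroup g)} {y : SurfaceGroup g} : y ∈ Fix φ ↔ φ y = y :=
  Iff.rfl

theorem Blk_le_Fix {i l : ℕ} (φ : MulAut (SurfaceGroup g))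
    (h : ∀ s c, i ≤ s → s < i + l → φ (gn g s c) = gn g s c) : Blk g i l ≤ Fix φ := by
  rw [Blk, Subgroup.closure_le]
  rintro _ ⟨s, c, h3, h4, rfl⟩
  exact h s c h3 h4

/-- Automorphisms supported on the handles `[i, i + l)`, preserving the boundary word. -/
def SupG (g i l : ℕ) : Subgroup (MulAut (SurfaceGroup g)) where
  carrier := {φ | (∀ s c, (s < i ∨ i + l ≤ s) → φ (gn g s c) = gn g s c) ∧
    (∀ y ∈ Blk g i l, φ y ∈ Blk g i l) ∧ (∀ y ∈ Blk g i l, φ⁻¹ y ∈ Blk g i l) ∧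
    φ (Zf (gn g) i l) = Zf (gn g) i l}
  one_mem' := by
    refine ⟨fun _ _ _ => rfl, fun y hy => hy, fun y hy => by simpa using hy, rfl⟩
  mul_mem' := by
    rintro φ ψ ⟨a1, a2, a3, a4⟩ ⟨b1, b2, b3, b4⟩
    refine ⟨fun s c h => ?_, fun y hy => a2 _ (b2 _ hy), fun y hy => ?_, ?_⟩
    · rw [MulAut.mul_apply, b1 s c h, a1 s c h]
    · rw [mul_inv_rev]; exact b3 _ (a3 _ hy)
    · rw [MulAut.mul_apply, b4, a4]
  inv_mem' := by
    rintro φ ⟨a1, a2, a3, a4⟩
    refine ⟨fun s c h => ?_, a3, fun y hy => by rw [inv_inv]; exact a2 _ hy, ?_⟩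
    · conv_lhs => rw [← a1 s c h]
      exact MulAut.inv_apply_self _ _ _
    · conv_lhs => rw [← a4]
      exact MulAut.inv_apply_self _ _ _

theorem SupG_fix_gn {i l : ℕ} {φ : MulAut (SurfaceGroup g)} (h : φ ∈ SupG g i l) {s : ℕ}
    (c : Bool) (hs : s < i ∨ i + l ≤ s) : φ (gn g s c) = gn g s c := h.1 s c hs

theorem SupG_fix_Blk {i l i' l' : ℕ} {φ : MulAut (SurfaceGroup g)} (h : φ ∈ SupG g i l)
    (hd : i' + l' ≤ i ∨ i + l ≤ i') {y : SurfaceGroup g} (hy : y ∈ Blk g i' l') : φ y = y :=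
  Blk_le_Fix φ (fun s c h1 h2 => h.1 s c (by omega)) hy

theorem SupG_fix_Zf {i l i' l' : ℕ} {φ : MulAut (SurfaceGroup g)} (h : φ ∈ SupG g i l)
    (hd : (i' + l' ≤ i ∨ i + l ≤ i') ∨ (i' ≤ i ∧ i + l ≤ i' + l')) :
    φ (Zf (gn g) i' l') = Zf (gn g) i' l' := by
  rcases hd with hd | ⟨h1, h2⟩
  · exact SupG_fix_Blk h hd (Zf_mem_Blk le_rfl le_rfl)
  · obtain ⟨u, rfl⟩ : ∃ u, i = i' + u := ⟨i - i', by omega⟩
    obtain ⟨v, rfl⟩ : ∃ v, l' = u + l + v := ⟨l' - (u + l), by omega⟩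
    rw [Zf_add, Zf_add, map_mul, map_mul, h.2.2.2,
      SupG_fix_Blk h (i' := i') (l' := u) (by omega) (Zf_mem_Blk le_rfl le_rfl),
      SupG_fix_Blk h (i' := i' + (u + l)) (l' := v) (by omega) (Zf_mem_Blk le_rfl le_rfl)]

theorem SupG_mono {i l i' l' : ℕ} (h1 : i' ≤ i) (h2 : i + l ≤ i' + l') :
    SupG g i l ≤ SupG g i' l' := by
  intro φ hφ
  have key : ∀ ψ : MulAut (SurfaceGroup g), ψ ∈ SupG g i l → ∀ y ∈ Blk g i' l', ψ y ∈ Blk g i' l' := by
    intro ψ hψ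
    apply map_mem_Blk
    intro s c h3 h4
    by_cases h5 : i ≤ s ∧ s < i + l
    · exact Blk_mono h1 h2 (hψ.2.1 _ (gn_mem_Blk c h5.1 h5.2))
    · rw [SupG_fix_gn hψ c (by omega)]
      exact gn_mem_Blk c h3 h4
  exact ⟨fun s c h => hφ.1 s c (by omega), key φ hφ, key _ (inv_mem hφ),
    SupG_fix_Zf hφ (Or.inr ⟨h1, h2⟩)⟩

theorem SupG_commute {i l i' l' : ℕ} {φ ψ : MulAut (SurfaceGroup g)} (hφ : φ ∈ SupG g i l)
    (hψ : ψ ∈ SupG g i' l') (hd : i + l ≤ i') : Commute φ ψ := by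
  apply aut_ext_gn
  intro s c hs
  rw [MulAut.mul_apply, MulAut.mul_apply]
  rcases lt_or_ge s i' with h1 | h1
  · rw [SupG_fix_gn hψ c (Or.inl h1)]
    by_cases h2 : i ≤ s ∧ s < i + l
    · exact (SupG_fix_Blk hψ (by omega) (hφ.2.1 _ (gn_mem_Blk c h2.1 h2.2))).symm
    · rw [SupG_fix_gn hφ c (by omega), SupG_fix_gn hψ c (by omega)]
  · rw [SupG_fix_gn hφ (s := s) c (by omega)]
    by_cases h2 : s < i' + l'
    · exact SupG_fix_Blk hφ (by omega) (hψ.2.1 _ (gn_mem_Blk c h1 h2))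
    · rw [SupG_fix_gn hψ c (by omega), SupG_fix_gn hφ c (by omega)]

theorem sub_mem_Blk (T : Tw) (e : Bool) (s : ℕ) (c : Bool) (h1 : T.lo ≤ s)
    (h2 : s < T.lo + T.len) : sub g T e s c ∈ Blk g T.lo T.len := by
  cases T with
  | A t =>
    have ha : ∀ c, gn g t c ∈ Blk g t 1 := fun c => gn_mem_Blk c le_rfl (by omega)
    have hs : gn g s c ∈ Blk g t 1 := gn_mem_Blk c h1 h2
    cases e <;> simp only [sub, Tw.lo, Tw.len] <;> split_ifs
    · exact mul_mem (ha _) (ha _)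
    · exact hs
    · exact mul_mem (ha _) (inv_mem (ha _))
    · exact hs
  | B t =>
    have ha : ∀ c, gn g t c ∈ Blk g t 1 := fun c => gn_mem_Blk c le_rfl (by omega)
    have hs : gn g s c ∈ Blk g t 1 := gn_mem_Blk c h1 h2
    cases e <;> simp only [sub, Tw.lo, Tw.len] <;> split_ifs
    · exact mul_mem (ha _) (inv_mem (ha _))
    · exact hs
    · exact mul_mem (ha _) (ha _)
    · exact hs
  | C t =>
    have ha : ∀ c, gn g t c ∈ Blk g t 2 := fun c => gn_mem_Blk c le_rfl (by omega)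
    have hb : ∀ c, gn g (t+1) c ∈ Blk g t 2 := fun c => gn_mem_Blk c (by omega) (by omega)
    have hs : gn g s c ∈ Blk g t 2 := gn_mem_Blk c h1 h2
    have hd : dc g t ∈ Blk g t 2 :=
      mul_mem (mul_mem (mul_mem (ha _) (inv_mem (ha _))) (inv_mem (ha _))) (hb _)
    cases e <;> simp only [sub, Tw.lo, Tw.len] <;> split_ifs
    · exact mul_mem (inv_mem hd) (ha _)
    · exact mul_mem (mul_mem (inv_mem hd) (hb _)) hd
    · exact mul_mem (hb _) hd
    · exact hs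
    · exact hs
    · exact mul_mem hd (ha _)
    · exact mul_mem (mul_mem hd (hb _)) (inv_mem hd)
    · exact mul_mem (hb _) (inv_mem hd)
    · exact hs
    · exact hs

theorem Zf_map {G H : Type*} [Group G] [Group H] (f : G →* H) (φ : ℕ → Bool → G) (i l : ℕ) :
    f (Zf φ i l) = Zf (fun s c => f (φ s c)) i l := by
  induction l with
  | zero => simp [Zf]
  | succ l ih => rw [Zf, map_mul, ih, Zf]; simp [cmt]

theorem aut_Zf (φ : MulAut (SurfaceGroup g)) (f : ℕ → Bool → SurfaceGroup g) (i l : ℕ) :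
    φ (Zf f i l) = Zf (fun s c => φ (f s c)) i l :=
  Zf_map φ.toMonoidHom f i l

theorem twe_mem_SupG (T : Tw) (e : Bool) : twe g (T, e) ∈ SupG g T.lo T.len := by
  have key : ∀ e, ∀ y ∈ Blk g T.lo T.len, twe g (T, e) y ∈ Blk g T.lo T.len := by
    intro e
    apply map_mem_Blk
    intro s c h1 h2
    rw [twe_gn]
    exact sub_mem_Blk T e s c h1 h2
  have hinv : (twe g (T, e))⁻¹ = twe g (T, !e) := by cases e <;> simp [twe]
  refine ⟨fun s c h => ?_, key e, ?_, ?_⟩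
  · rw [twe_gn]
    exact sub_of_not T e s c h
  · rw [hinv]; exact key _
  · rw [aut_Zf]
    have : (fun s c => twe g (T, e) (gn g s c)) = sub g T e := by
      funext s c
      exact twe_gn (T, e) s c
    rw [this, Zf_sub_block]

theorem tw_mem_SupG (T : Tw) : tw g T ∈ SupG g T.lo T.len := twe_mem_SupG T false

/-- The subgroup generated by the twists. -/
def TwG (g : ℕ) : Subgroup (MulAut (SurfaceGroup g)) := Subgroup.closure (Set.range (tw g))

theorem tw_mem_TwG (T : Tw) : tw g T ∈ TwG g := Subgroup.subset_closure ⟨T, rfl⟩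

theorem twe_mem_TwG (p : Tw × Bool) : twe g p ∈ TwG g := by
  rcases p with ⟨T, e⟩
  cases e
  · exact tw_mem_TwG T
  · exact inv_mem (tw_mem_TwG T)

end Pool.Agent.H808
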