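import Pool.Agent.H808.SurfDefs

namespace Pool.Agent.H808

variable {g : ℕ}

/-- Generators of the surface group. -/
def ofS (p : Fin g × Bool) : SurfaceGroup g :=
  PresentedGroup.of (rels := ({surfaceRelator g} : Set (FreeGroup (Fin g × Bool)))) p

/-- The projection from the free group. -/
def mkS (g : ℕ) : FreeGroup (Fin g × Bool) →* SurfaceGroup g :=
  PresentedGroup.mk ({surfaceRelator g} : Set (FreeGroup (Fin g × Bool)))

theorem mkS_of (p : Fin g × Bool) : mkS g (FreeGroup.of p) = ofS p := rfl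

theorem mkS_relator (g : ℕ) : mkS g (surfaceRelator g) = 1 :=
  PresentedGroup.one_of_mem (rels := ({surfaceRelator g} : Set (FreeGroup (Fin g × Bool)))) rfl

/-- Generators of the surface group indexed by all natural numbers (trivial out of range). -/
def gn (g t : ℕ) (c : Bool) : SurfaceGroup g :=
  if h : t < g then ofS (⟨t, h⟩, c) else 1

theorem gn_of_lt {t : ℕ} (h : t < g) (c : Bool) :
    gn g t c = ofS (⟨t, h⟩, c) := by
  simp [gn, h]

theorem gn_of_le {t : ℕ} (h : g ≤ t) (c : Bool) : gn g t c = 1 := by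
  simp [gn, Nat.not_lt.mpr h]

/-- commutator -/
def cmt {G : Type*} [Group G] (x y : G) : G := x * y * x⁻¹ * y⁻¹

/-- Products of consecutive commutators. -/
def Zf {G : Type*} [Group G] (φ : ℕ → Bool → G) (i : ℕ) : ℕ → G
  | 0 => 1
  | l + 1 => Zf φ i l * cmt (φ (i + l) false) (φ (i + l) true)

theorem Zf_add {G : Type*} [Group G] (φ : ℕ → Bool → G) (i l m : ℕ) :
    Zf φ i (l + m) = Zf φ i l * Zf φ (i + l) m := by
  induction m with
  | zero => simp [Zf]
  | succ m ih => rw [← add_assoc, Zf, ih, Zf, mul_assoc, add_assoc]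

theorem Zf_congr {G : Type*} [Group G] (φ ψ : ℕ → Bool → G) (i l : ℕ)
    (h : ∀ s c, i ≤ s → s < i + l → φ s c = ψ s c) : Zf φ i l = Zf ψ i l := by
  induction l with
  | zero => rfl
  | succ l ih =>
    rw [Zf, Zf, ih (fun s c h1 h2 => h s c h1 (by omega)), h (i+l) false (by omega) (by omega),
      h (i+l) true (by omega) (by omega)]

theorem prod_ofFn_eq {G : Type*} [Group G] (φ : ℕ → Bool → G) (n : ℕ) :
    (List.ofFn fun i : Fin n => φ i false * φ i true * (φ i false)⁻¹ * (φ i true)⁻¹).prod
      = Zf φ 0 n := by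
  induction n with
  | zero => simp [Zf]
  | succ n ih =>
    rw [List.ofFn_succ']
    simp only [List.concat_eq_append, List.prod_append, List.prod_cons, List.prod_nil, mul_one,
      Fin.val_castSucc, Fin.val_last]
    rw [ih, Zf]
    simp [cmt]

theorem lift_relator {G : Type*} [Group G] (φ : ℕ → Bool → G) (g : ℕ) :
    FreeGroup.lift (fun p : Fin g × Bool => φ p.1 p.2) (surfaceRelator g) = Zf φ 0 g := by
  rw [surfaceRelator, map_list_prod, List.map_ofFn, ← prod_ofFn_eq]
  congr 1
  congr 1
  funext i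
  simp

theorem Zf_gn (g : ℕ) : Zf (gn g) 0 g = 1 := by
  rw [← lift_relator]
  have h : FreeGroup.lift (fun p : Fin g × Bool => gn g p.1 p.2) = mkS g := by
    apply FreeGroup.ext_hom
    rintro ⟨⟨t, ht⟩, c⟩
    rw [FreeGroup.lift_apply_of, mkS_of, gn_of_lt ht]
  rw [h, mkS_relator]

/-- The endomorphism given by a substitution preserving the relation. -/
def endo {G : Type*} [Group G] (φ : ℕ → Bool → G) (h : Zf φ 0 g = 1) : SurfaceGroup g →* G :=
  PresentedGroup.toGroup (rels := ({surfaceRelator g} : Set (FreeGroup (Fin g × Bool))))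
    (f := fun p : Fin g × Bool => φ p.1 p.2) (by
    rintro r rfl
    rw [lift_relator, h])

theorem endo_ofS {G : Type*} [Group G] (φ : ℕ → Bool → G) (h : Zf φ 0 g = 1)
    (p : Fin g × Bool) : endo φ h (ofS p) = φ p.1 p.2 :=
  PresentedGroup.toGroup.of (rels := ({surfaceRelator g} : Set (FreeGroup (Fin g × Bool))))
    (f := fun p : Fin g × Bool => φ p.1 p.2) _

theorem endo_gn {G : Type*} [Group G] (φ : ℕ → Bool → G) (h : Zf φ 0 g = 1) {s : ℕ} (hs : s < g)
    (c : Bool) : endo φ h (gn g s c) = φ s c := by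
  rw [gn_of_lt hs, endo_ofS]

theorem hom_ext_ofS {G : Type*} [Group G] {f f' : SurfaceGroup g →* G}
    (h : ∀ p, f (ofS p) = f' (ofS p)) : f = f' :=
  PresentedGroup.ext (rels := ({surfaceRelator g} : Set (FreeGroup (Fin g × Bool)))) h

theorem hom_ext_gn {G : Type*} [Group G] {f f' : SurfaceGroup g →* G}
    (h : ∀ s c, s < g → f (gn g s c) = f' (gn g s c)) : f = f' := by
  apply hom_ext_ofS
  rintro ⟨⟨s, hs⟩, c⟩
  have := h s c hs
  rwa [gn_of_lt hs] at this

theorem aut_ext_gn {φ ψ : MulAut (SurfaceGroup g)}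
    (h : ∀ s c, s < g → φ (gn g s c) = ψ (gn g s c)) : φ = ψ := by
  have : φ.toMonoidHom = ψ.toMonoidHom := hom_ext_gn (by simpa using h)
  ext x
  exact DFunLike.congr_fun this x

/-- Names of the twists. -/
inductive Tw
  | A (i : ℕ)
  | B (i : ℕ)
  | C (i : ℕ)
deriving DecidableEq

/-- the curve of the third kind of twist -/
def dc (g t : ℕ) : SurfaceGroup g :=
  gn g t true * (gn g t false)⁻¹ * (gn g t true)⁻¹ * gn g (t + 1) false

/-- The substitutions defining the twists (`e = false`) and their inverses (`e = true`). -/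
def sub (g : ℕ) : Tw → Bool → ℕ → Bool → SurfaceGroup g
  | .A t, false, s, c => if s = t ∧ c = true then gn g t true * gn g t false else gn g s c
  | .A t, true, s, c => if s = t ∧ c = true then gn g t true * (gn g t false)⁻¹ else gn g s c
  | .B t, false, s, c => if s = t ∧ c = false then gn g t false * (gn g t true)⁻¹ else gn g s c
  | .B t, true, s, c => if s = t ∧ c = false then gn g t false * gn g t true else gn g s c
  | .C t, false, s, c => if t + 1 < g then
      (if s = t ∧ c = true then (dc g t)⁻¹ * gn g t true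
      else if s = t + 1 ∧ c = false then (dc g t)⁻¹ * gn g (t + 1) false * dc g t
      else if s = t + 1 ∧ c = true then gn g (t + 1) true * dc g t else gn g s c) else gn g s c
  | .C t, true, s, c => if t + 1 < g then
      (if s = t ∧ c = true then dc g t * gn g t true
      else if s = t + 1 ∧ c = false then dc g t * gn g (t + 1) false * (dc g t)⁻¹
      else if s = t + 1 ∧ c = true then gn g (t + 1) true * (dc g t)⁻¹ else gn g s c) else gn g s c

/-- first handle of the support -/
def Tw.lo : Tw → ℕ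
  | .A t => t
  | .B t => t
  | .C t => t

/-- number of handles of the support -/
def Tw.len : Tw → ℕ
  | .A _ => 1
  | .B _ => 1
  | .C _ => 2

theorem sub_of_not (T : Tw) (e : Bool) (s : ℕ) (c : Bool) (h : s < T.lo ∨ T.lo + T.len ≤ s) :
    sub g T e s c = gn g s c := by
  cases T <;> cases e <;> simp only [Tw.lo, Tw.len] at h <;> simp only [sub] <;>
    split_ifs <;> first | rfl | (exfalso; omega)

theorem sub_of_out (T : Tw) (e : Bool) (s : ℕ) (c : Bool) (h : g < T.lo + T.len) :
    sub g T e s c = gn g s c := by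
  cases T with
  | A t =>
    simp only [Tw.lo, Tw.len] at h
    have h1 : ∀ c, gn g t c = 1 := fun c => gn_of_le (by omega) c
    cases e <;> simp only [sub] <;> split_ifs with hh
    · rw [hh.1]; simp [h1]
    · rfl
    · rw [hh.1]; simp [h1]
    · rfl
  | B t =>
    simp only [Tw.lo, Tw.len] at h
    have h1 : ∀ c, gn g t c = 1 := fun c => gn_of_le (by omega) c
    cases e <;> simp only [sub] <;> split_ifs with hh
    · rw [hh.1]; simp [h1]
    · rfl
    · rw [hh.1]; simp [h1]
    · rfl
  | C t =>
    simp only [Tw.lo, Tw.len] at h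
    have h1 : ¬ (t + 1 < g) := by omega
    cases e <;> simp only [sub] <;> rw [if_neg h1]

theorem Zf_sub_block (T : Tw) (e : Bool) :
    Zf (sub g T e) T.lo T.len = Zf (gn g) T.lo T.len := by
  cases T with
  | A t => cases e <;> simp [Zf, sub, Tw.lo, Tw.len, cmt] <;> group
  | B t => cases e <;> simp [Zf, sub, Tw.lo, Tw.len, cmt] <;> group
  | C t =>
    by_cases h : t + 1 < g
    · cases e <;> simp [Zf, sub, Tw.lo, Tw.len, cmt, h, dc] <;> group
    · apply Zf_congr
      intro s c _ _
      exact sub_of_out _ _ _ _ (by simp [Tw.lo, Tw.len]; omega)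

theorem Zf_sub (T : Tw) (e : Bool) : Zf (sub g T e) 0 g = 1 := by
  rw [← Zf_gn g]
  by_cases h : T.lo + T.len ≤ g
  · obtain ⟨r, hr⟩ : ∃ r, g = T.lo + T.len + r := ⟨g - (T.lo + T.len), by omega⟩
    have key : ∀ n, n = T.lo + T.len + r → Zf (sub g T e) 0 n = Zf (gn g) 0 n := by
      rintro n rfl
      rw [Zf_add, Zf_add, Zf_add (gn g), Zf_add (gn g), zero_add, zero_add, Zf_sub_block]
      congr 1
      · congr 1
        apply Zf_congr
        intro s c _ h2
        exact sub_of_not _ _ _ _ (by omega)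
      · apply Zf_congr
        intro s c h1 _
        exact sub_of_not _ _ _ _ (by omega)
    exact key g hr
  · apply Zf_congr
    intro s c _ _
    exact sub_of_out _ _ _ _ (by omega)

/-- The endomorphism of a twist. -/
def twHom (g : ℕ) (T : Tw) (e : Bool) : SurfaceGroup g →* SurfaceGroup g :=
  endo (sub g T e) (Zf_sub T e)

theorem twHom_gn (T : Tw) (e : Bool) (s : ℕ) (c : Bool) :
    twHom g T e (gn g s c) = sub g T e s c := by
  by_cases hs : s < g
  · exact endo_gn _ _ hs c
  · rw [gn_of_le (by omega), map_one]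
    by_cases h : g < T.lo + T.len
    · rw [sub_of_out _ _ _ _ h, gn_of_le (by omega)]
    · rw [sub_of_not _ _ _ _ (by omega), gn_of_le (by omega)]

theorem twHom_comp (T : Tw) (e : Bool) (s : ℕ) (c : Bool) :
    twHom g T (!e) (twHom g T e (gn g s c)) = gn g s c := by
  rw [twHom_gn]
  cases T with
  | A t =>
    cases e <;> simp only [sub] <;> split_ifs with hh
    · rw [map_mul, twHom_gn, twHom_gn, hh.1, hh.2]; simp [sub]
    · rw [twHom_gn]; simp [sub, hh]
    · rw [map_mul, map_inv, twHom_gn, twHom_gn, hh.1, hh.2]; simp [sub]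
    · rw [twHom_gn]; simp [sub, hh]
  | B t =>
    cases e <;> simp only [sub] <;> split_ifs with hh
    · rw [map_mul, map_inv, twHom_gn, twHom_gn, hh.1, hh.2]; simp [sub]
    · rw [twHom_gn]; simp [sub, hh]
    · rw [map_mul, twHom_gn, twHom_gn, hh.1, hh.2]; simp [sub]
    · rw [twHom_gn]; simp [sub, hh]
  | C t =>
    by_cases h : t + 1 < g
    · cases e <;> simp only [sub, h, if_true] <;> split_ifs with h1 h2 h3
      · rw [h1.1, h1.2]; simp [dc, twHom_gn, sub, h]; group
      · rw [h2.1, h2.2]; simp [dc, twHom_gn, sub, h]; group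
      · rw [h3.1, h3.2]; simp [dc, twHom_gn, sub, h]; group
      · simp [twHom_gn, sub, h, h1, h2, h3]
      · rw [h1.1, h1.2]; simp [dc, twHom_gn, sub, h]; group
      · rw [h2.1, h2.2]; simp [dc, twHom_gn, sub, h]; group
      · rw [h3.1, h3.2]; simp [dc, twHom_gn, sub, h]; group
      · simp [twHom_gn, sub, h, h1, h2, h3]
    · rw [sub_of_out _ _ _ _ (by simp [Tw.lo, Tw.len]; omega), twHom_gn,
        sub_of_out _ _ _ _ (by simp [Tw.lo, Tw.len]; omega)]

/-- The twist automorphisms. -/
def tw (g : ℕ) (T : Tw) : MulAut (SurfaceGroup g) :=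
  MonoidHom.toMulEquiv (twHom g T false) (twHom g T true)
    (hom_ext_gn fun s c _ => twHom_comp T false s c)
    (hom_ext_gn fun s c _ => twHom_comp T true s c)

theorem tw_gn (T : Tw) (s : ℕ) (c : Bool) : tw g T (gn g s c) = sub g T false s c :=
  twHom_gn T false s c

theorem tw_inv_gn (T : Tw) (s : ℕ) (c : Bool) : (tw g T)⁻¹ (gn g s c) = sub g T true s c :=
  twHom_gn T true s c

/-- The twist with sign: `twe T true` is the inverse twist. -/
def twe (g : ℕ) (p : Tw × Bool) : MulAut (SurfaceGroup g) :=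
  if p.2 then (tw g p.1)⁻¹ else tw g p.1

theorem twe_gn (p : Tw × Bool) (s : ℕ) (c : Bool) : twe g p (gn g s c) = sub g p.1 p.2 s c := by
  rcases p with ⟨T, e⟩
  cases e
  · exact tw_gn T s c
  · exact tw_inv_gn T s c

end Pool.Agent.H808
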