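import Mathlib

/-!
# Mapping class groups of closed surfaces as groups of outer automorphisms

`SurfaceGroup g` is the fundamental group of the closed oriented surface of genus `g`, and
`MCG g` is the mapping class group, as the subgroup of `Out (SurfaceGroup g)` generated by the
classes of the Lickorish Dehn twists.
-/

namespace Pool.Agent.H808

/-- The word `[a_1,b_1]⋯[a_g,b_g]`; here `(i, false)` stands for `a_i` and `(i, true)` for `b_i`. -/
def surfaceRelator (g : ℕ) : FreeGroup (Fin g × Bool) :=
  (List.ofFn fun i : Fin g => FreeGroup.of (i, false) * FreeGroup.of (i, true) *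
    (FreeGroup.of (i, false))⁻¹ * (FreeGroup.of (i, true))⁻¹).prod

/-- The fundamental group `⟨a_1,b_1,…,a_g,b_g | [a_1,b_1]⋯[a_g,b_g] = 1⟩` of the closed oriented
surface of genus `g`. -/
def SurfaceGroup (g : ℕ) : Type :=
  PresentedGroup ({surfaceRelator g} : Set (FreeGroup (Fin g × Bool)))

instance SurfaceGroup.group (g : ℕ) : Group (SurfaceGroup g) :=
  instGroupPresentedGroup ({surfaceRelator g} : Set (FreeGroup (Fin g × Bool)))

/-- The generator `a_i` of the surface group. -/
def ga {g : ℕ} (i : Fin g) : SurfaceGroup g :=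
  PresentedGroup.of (rels := ({surfaceRelator g} : Set (FreeGroup (Fin g × Bool)))) (i, false)

/-- The generator `b_i` of the surface group. -/
def gb {g : ℕ} (i : Fin g) : SurfaceGroup g :=
  PresentedGroup.of (rels := ({surfaceRelator g} : Set (FreeGroup (Fin g × Bool)))) (i, true)

/-- The inner automorphisms of a group. -/
def Inn (G : Type*) [Group G] : Subgroup (MulAut G) := (MulAut.conj : G →* MulAut G).range

instance Inn.normal (G : Type*) [Group G] : (Inn G).Normal := by
  constructor
  rintro _ ⟨x, rfl⟩ φ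
  refine ⟨φ x, ?_⟩
  ext y
  simp [MulAut.conj_apply]

/-- The group of outer automorphisms of `G`. -/
def Out (G : Type*) [Group G] : Type _ := MulAut G ⧸ Inn G

instance Out.group (G : Type*) [Group G] : Group (Out G) :=
  QuotientGroup.Quotient.group (Inn G)

/-- The outer class of an automorphism. -/
def toOut (G : Type*) [Group G] : MulAut G →* Out G := QuotientGroup.mk' (Inn G)

/-- The element `d = b_i a_i⁻¹ b_i⁻¹ a_j`; for `j = i + 1` it is represented by the simple closed
curve `c_i` which links the `i`-th and the `j`-th handle. -/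
def gd {g : ℕ} (i j : Fin g) : SurfaceGroup g := gb i * (ga i)⁻¹ * (gb i)⁻¹ * ga j

/-- `φ` is the Dehn twist about the curve `a_i`. -/
def IsTwistA {g : ℕ} (i : Fin g) (φ : MulAut (SurfaceGroup g)) : Prop :=
  φ (gb i) = gb i * ga i ∧ (∀ l, φ (ga l) = ga l) ∧ ∀ l, l ≠ i → φ (gb l) = gb l

/-- `φ` is the Dehn twist about the curve `b_i`. -/
def IsTwistB {g : ℕ} (i : Fin g) (φ : MulAut (SurfaceGroup g)) : Prop :=
  φ (ga i) = ga i * (gb i)⁻¹ ∧ (∀ l, φ (gb l) = gb l) ∧ ∀ l, l ≠ i → φ (ga l) = ga l

/-- `φ` is the Dehn twist about the curve `d = b_i a_i⁻¹ b_i⁻¹ a_j`, where `j = i + 1`, which links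
the `i`-th and the `j`-th handle. -/
def IsTwistC {g : ℕ} (i j : Fin g) (φ : MulAut (SurfaceGroup g)) : Prop :=
  φ (gb i) = (gd i j)⁻¹ * gb i ∧ φ (ga j) = (gd i j)⁻¹ * ga j * gd i j ∧
  φ (gb j) = gb j * gd i j ∧
  (∀ l, l ≠ j → φ (ga l) = ga l) ∧ ∀ l, l ≠ i → l ≠ j → φ (gb l) = gb l

/-- The `3 g - 1` Lickorish Dehn twists, as automorphisms of the surface group. -/
def lickorishTwists (g : ℕ) : Set (MulAut (SurfaceGroup g)) :=
  {φ | (∃ i, IsTwistA i φ) ∨ (∃ i, IsTwistB i φ) ∨
    ∃ i j : Fin g, (j : ℕ) = i + 1 ∧ IsTwistC i j φ}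

/-- The mapping class group of the closed oriented surface of genus `g`: the subgroup of
`Out (SurfaceGroup g)` generated by the classes of the Lickorish Dehn twists (equivalently, by the
theorems of Dehn-Nielsen-Baer and Lickorish, the group of orientation-preserving outer
automorphisms). -/
def MCG (g : ℕ) : Subgroup (Out (SurfaceGroup g)) :=
  Subgroup.closure (toOut (SurfaceGroup g) '' lickorishTwists g)

/-- The group `G` is generated by three elements of order exactly `k`. -/
def GenByThree (G : Type*) [Group G] (k : ℕ) : Prop :=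
  ∃ x y z : G, orderOf x = k ∧ orderOf y = k ∧ orderOf z = k ∧
    Subgroup.closure ({x, y, z} : Set G) = ⊤

end Pool.Agent.H808
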